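import Pool.Agent.J4.H29.SP.Sieve
import Pool.Agent.K3h19.RV.Num

/-! One dyadic block. -/

set_option autoImplicit false

namespace Pool.Agent.J4.H29.SP

open Polynomial Finset Filter Topology
open Pool.Agent.H474R2.PG
open Pool.Agent.W23.DC
open Pool.Agent.Y882
open Pool.Agent.Y882.KW
open Pool.Agent.Y882.EHF (S)
open Pool.Agent.TH926.EH
open Pool.Agent.K3h31.LP (log_pow_le)
open Pool.Agent.K3h19.RV (Lam richert)

theorem Adm_coprime {F : ℤ[X]} {m : ℕ} {M : ℤ} (h : ∀ p : ℕ, p.Prime → Adm F m M p) :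
    M.natAbs.Coprime m := by
  by_contra hnc
  obtain ⟨q, hq, hq1, hq2⟩ := Nat.Prime.not_coprime_iff_dvd.1 hnc
  obtain ⟨n, hn⟩ := h q hq
  apply hn
  apply Dvd.dvd.mul_left
  apply dvd_sub (Int.natCast_dvd.2 hq1)
  exact Dvd.dvd.mul_right (by exact_mod_cast hq2) _

/-- The arguments which are counted. -/
noncomputable def goodN (F : ℤ[X]) (m : ℕ) (M : ℤ) (x R r : ℕ) (w : ℝ) : Finset ℕ := by
  classical
  exact (JJ m M x R).filter (fun n : ℕ => 0 < F.eval (n : ℤ) ∧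
    (F.eval (n : ℤ)).natAbs.primeFactorsList.length ≤ r ∧
    ∀ p : ℕ, p.Prime → p ∣ (F.eval (n : ℤ)).natAbs → w ≤ p)

/-- real analysis: all the thresholds -/
theorem thresholds (h m A B kW kP : ℕ) (C t : ℝ) (θ κ ε f c2 CP KS υ' ε' S' : ℝ) (hθ0 : 1 / 2 ≤ θ)
    (hκ0 : 0 < κ) (hκε : κ ≤ ε / 8) (hκθ : θ + κ < 1 - ε') (hε : 0 < ε) (hε' : 0 < ε')
    (hf : 0 < f) (hc2 : 0 < c2) (hυ' : υ' < 1) (hS' : (h : ℝ) < S') (hA : A = kW + kP + 4) :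
    ∀ᶠ Y : ℕ in atTop,
      5 * m * (Y : ℝ) ^ (θ + κ) ≤ (Y : ℝ) ^ (1 - ε') ∧
      10 * m ^ 2 * Real.log Y ^ (A + B) * (Y : ℝ) ^ (2 * θ + 2 * κ - 1) ≤ (Y : ℝ) ^ (2 * θ - 1 + ε) ∧
      60 * h * 2 ^ (2 * A + 1) / (f * c2) ≤ Real.log Y ∧
      180 * h * CP * h ^ kP / (f * c2) ≤ Real.log Y ∧
      120 * h / (f * c2) * Real.log Y ^ (kW + 3) * (Y : ℝ) ^ (θ + κ) ≤ (Y : ℝ) ^ (1 : ℝ) ∧
      48 * KS / (f * c2) * Real.log Y ^ (kW + 1) * (Y : ℝ) ^ (1 - θ / 4) ≤ (Y : ℝ) ^ (1 : ℝ) ∧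
      8 * KS / (f * c2) * Real.log Y ^ (kW + 1) * (Y : ℝ) ^ υ' ≤ (Y : ℝ) ^ (1 : ℝ) ∧
      C * Real.log Y ^ 0 * (Y : ℝ) ^ (h : ℝ) ≤ (Y : ℝ) ^ S' ∧
      t ≤ (Y : ℝ) ∧ 1 ≤ Real.log Y := by
  have e1 : ∀ᶠ Y : ℕ in atTop, 5 * m * (Y : ℝ) ^ (θ + κ) ≤ (Y : ℝ) ^ (1 - ε') := by
    have := log_pow_le (5 * m) 0 (θ + κ) (1 - ε') hκθ
    filter_upwards [this] with Y hY
    rwa [pow_zero, mul_one] at hY
  have e2 : ∀ᶠ Y : ℕ in atTop, 10 * m ^ 2 * Real.log Y ^ (A + B) * (Y : ℝ) ^ (2 * θ + 2 * κ - 1) ≤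
      (Y : ℝ) ^ (2 * θ - 1 + ε) := log_pow_le (10 * m ^ 2) (A + B) _ _ (by linarith)
  have l1 : ∀ a : ℝ, ∀ᶠ Y : ℕ in atTop, a ≤ Real.log Y := fun a =>
    (Real.tendsto_log_atTop.comp tendsto_natCast_atTop_atTop).eventually_ge_atTop a
  have e5 := log_pow_le (120 * h / (f * c2)) (kW + 3) (θ + κ) 1 (by linarith)
  have e6 := log_pow_le (48 * KS / (f * c2)) (kW + 1) (1 - θ / 4) 1 (by linarith)
  have e7 := log_pow_le (8 * KS / (f * c2)) (kW + 1) υ' 1 hυ'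
  have e8 := log_pow_le C 0 (h : ℝ) S' hS'
  have e9 : ∀ᶠ Y : ℕ in atTop, t ≤ (Y : ℝ) := tendsto_natCast_atTop_atTop.eventually_ge_atTop t
  filter_upwards [e1, e2, l1 _, l1 _, e5, e6, e7, e8, e9, l1 1] with Y a1 a2 a3 a4 a5 a6 a7 a8 a9 a10
  exact ⟨a1, a2, a3, a4, a5, a6, a7, a8, a9, a10⟩

/-- real analysis: the errors are small -/
theorem err_small (h A kW kP : ℕ) (L Y Yt f c2 CP E2 x R U D lD lx : ℝ) (hL : 1 ≤ L) (hY : 0 < Y)
    (hf : 0 < f) (hc2 : 0 < c2) (hA : A = kW + kP + 4) (hCP : 0 < CP)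
    (a3 : 60 * h * 2 ^ (2 * A + 1) / (f * c2) ≤ L)
    (a4 : 180 * h * CP * h ^ kP / (f * c2) ≤ L)
    (a5 : 120 * h / (f * c2) * L ^ (kW + 3) * Yt ≤ Y)
    (hE1 : E2 ≤ 5 * (h * L) * (R * (x / lx) + 3 * x / R * (CP * (h * L) ^ kP) + D * (2 * lD)))
    (hx : 0 ≤ x) (hxY : x ≤ Y) (hR1 : L ^ A ≤ R) (hR2 : R ≤ 2 * L ^ A) (hlx : (L / 2) ^ (2 * A) ≤ lx)
    (hD : D ≤ Yt) (hD0 : 0 ≤ D) (hlD : lD ≤ L) (hlD0 : 0 ≤ lD) :
    E2 ≤ f / 4 * (c2 * Y / L ^ (kW + 1)) := by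
  have hL0 : 0 < L := by linarith
  have hLA : 0 < L ^ A := by positivity
  have hR0 : 0 < R := by linarith
  have hlx0 : 0 < lx := lt_of_lt_of_le (by positivity) hlx
  have hfc : 0 < f * c2 := by positivity
  have hh : (0 : ℝ) ≤ h := Nat.cast_nonneg h
  -- the three terms
  have t1 : R * (x / lx) ≤ 2 ^ (2 * A + 1) * Y / L ^ A := by
    calc R * (x / lx) ≤ (2 * L ^ A) * (Y / (L / 2) ^ (2 * A)) := by
          apply mul_le_mul hR2 _ (by positivity) (by positivity)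
          exact div_le_div₀ hY.le hxY (by positivity) hlx
      _ = _ := by
          rw [div_pow, pow_mul L 2 A, ← pow_mul, mul_comm 2 A, pow_mul L A 2]
          field_simp
          ring
  have t2 : 3 * x / R * (CP * (h * L) ^ kP) ≤ 3 * CP * h ^ kP * Y * L ^ kP / L ^ A := by
    calc 3 * x / R * (CP * (h * L) ^ kP) ≤ 3 * Y / L ^ A * (CP * (h * L) ^ kP) := by
          apply mul_le_mul_of_nonneg_right _ (by positivity)
          exact div_le_div₀ (by positivity) (by linarith) hLA hR1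
      _ = _ := by
          rw [mul_pow]
          field_simp
  have t3 : D * (2 * lD) ≤ Yt * (2 * L) := by
    apply mul_le_mul hD (by linarith) (by positivity)
    linarith
  have hE : E2 ≤ 5 * (h * L) * (2 ^ (2 * A + 1) * Y / L ^ A + 3 * CP * h ^ kP * Y * L ^ kP / L ^ A +
      Yt * (2 * L)) := by
    refine hE1.trans ?_
    apply mul_le_mul_of_nonneg_left _ (by positivity)
    linarith
  have hpos : 0 < L ^ (kW + 1) := by positivity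
  have s1 : 5 * (h * L) * (2 ^ (2 * A + 1) * Y / L ^ A) ≤ f / 12 * (c2 * Y / L ^ (kW + 1)) := by
    have e1 : L ^ A = L ^ (kW + 1) * (L ^ (kP + 2) * L) := by
      rw [hA]; ring
    rw [e1]
    have h1 : 60 * h * 2 ^ (2 * A + 1) ≤ L * (f * c2) := by
      rwa [div_le_iff₀ hfc] at a3
    have h2 : L ≤ L ^ (kP + 2) := le_self_pow₀ hL (by omega)
    have h3 : 60 * h * 2 ^ (2 * A + 1) ≤ L ^ (kP + 2) * (f * c2) :=
      h1.trans (mul_le_mul_of_nonneg_right h2 hfc.le)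
    have e2 : 5 * (h * L) * (2 ^ (2 * A + 1) * Y / (L ^ (kW + 1) * (L ^ (kP + 2) * L))) =
        (60 * h * 2 ^ (2 * A + 1)) * (Y / (12 * L ^ (kW + 1) * L ^ (kP + 2))) := by
      field_simp
      ring
    rw [e2]
    calc (60 * h * 2 ^ (2 * A + 1)) * (Y / (12 * L ^ (kW + 1) * L ^ (kP + 2))) ≤
        (L ^ (kP + 2) * (f * c2)) * (Y / (12 * L ^ (kW + 1) * L ^ (kP + 2))) :=
          mul_le_mul_of_nonneg_right h3 (by positivity)
      _ = _ := by field_simp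
  have s2 : 5 * (h * L) * (3 * CP * h ^ kP * Y * L ^ kP / L ^ A) ≤
      f / 12 * (c2 * Y / L ^ (kW + 1)) := by
    have e1 : L ^ A = L ^ (kW + 1) * (L ^ kP * (L ^ 2 * L)) := by
      rw [hA]; ring
    rw [e1]
    have h1 : 180 * h * CP * h ^ kP ≤ L * (f * c2) := by
      rwa [div_le_iff₀ hfc] at a4
    have h2 : L ≤ L ^ 2 := le_self_pow₀ hL (by omega)
    have h3 : 180 * h * CP * h ^ kP ≤ L ^ 2 * (f * c2) :=
      h1.trans (mul_le_mul_of_nonneg_right h2 hfc.le)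
    have e2 : 5 * (h * L) * (3 * CP * h ^ kP * Y * L ^ kP / (L ^ (kW + 1) * (L ^ kP * (L ^ 2 * L)))) =
        (180 * h * CP * h ^ kP) * (Y / (12 * L ^ (kW + 1) * L ^ 2)) := by
      field_simp
      ring
    rw [e2]
    calc (180 * h * CP * h ^ kP) * (Y / (12 * L ^ (kW + 1) * L ^ 2)) ≤
        (L ^ 2 * (f * c2)) * (Y / (12 * L ^ (kW + 1) * L ^ 2)) :=
          mul_le_mul_of_nonneg_right h3 (by positivity)
      _ = _ := by field_simp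
  have s3 : 5 * (h * L) * (Yt * (2 * L)) ≤ f / 12 * (c2 * Y / L ^ (kW + 1)) := by
    have e2 : 5 * (h * L) * (Yt * (2 * L)) =
        (120 * h / (f * c2) * L ^ (kW + 3) * Yt) * (f * c2 / (12 * L ^ (kW + 1))) := by
      have e3 : L ^ (kW + 3) = L ^ (kW + 1) * L ^ 2 := by ring
      rw [e3]
      field_simp
      ring
    rw [e2]
    calc (120 * h / (f * c2) * L ^ (kW + 3) * Yt) * (f * c2 / (12 * L ^ (kW + 1))) ≤
        Y * (f * c2 / (12 * L ^ (kW + 1))) := mul_le_mul_of_nonneg_right a5 (by positivity)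
      _ = _ := by field_simp
  have e : 5 * (h * L) * (2 ^ (2 * A + 1) * Y / L ^ A + 3 * CP * h ^ kP * Y * L ^ kP / L ^ A +
      Yt * (2 * L)) = 5 * (h * L) * (2 ^ (2 * A + 1) * Y / L ^ A) +
      5 * (h * L) * (3 * CP * h ^ kP * Y * L ^ kP / L ^ A) + 5 * (h * L) * (Yt * (2 * L)) := by ring
  rw [e] at hE
  linarith

end Pool.Agent.J4.H29.SP
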