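import Pool.Agent.J4.H29.SP.Err

/-! The densities. -/

set_option autoImplicit false

namespace Pool.Agent.J4.H29.SP

open Polynomial Finset
open Pool.Agent.H474R2.PG
open Pool.Agent.TH926.EH

/-- the density at the prime `p` -/
noncomputable def dens (F : ℤ[X]) (m : ℕ) (M : ℤ) (p : ℕ) : ℝ :=
  (rN F m M p : ℝ) / (if p ∣ m then (p : ℝ) else (p : ℝ) - 1)

lemma totient_prod (m : ℕ) (T : Finset ℕ) (hT : ∀ p ∈ T, p.Prime) :
    (Nat.totient (m * ∏ p ∈ T, p) : ℝ) =
      Nat.totient m * ∏ p ∈ T, (if p ∣ m then (p : ℝ) else (p : ℝ) - 1) := by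
  classical
  induction T using Finset.induction_on with
  | empty => simp
  | insert q s hq ih =>
    have hs' : ∀ p ∈ s, p.Prime := fun p hp => hT p (mem_insert_of_mem hp)
    have hqp := hT q (mem_insert_self _ _)
    have ih' := ih hs'
    rw [prod_insert hq, prod_insert hq]
    have e : m * (q * ∏ p ∈ s, p) = q * (m * ∏ p ∈ s, p) := by ring
    rw [e]
    have hqs : ¬ q ∣ ∏ p ∈ s, p := by
      intro h
      obtain ⟨p, hp, hpq⟩ := (Prime.dvd_finset_prod_iff hqp.prime _).1 h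
      rw [Nat.prime_dvd_prime_iff_eq hqp (hs' p hp)] at hpq
      subst hpq
      exact hq hp
    by_cases h : q ∣ m
    · rw [Nat.totient_mul_of_prime_of_dvd hqp (Dvd.dvd.mul_right h _), if_pos h]
      push_cast
      rw [ih']
      ring
    · have h2 : ¬ q ∣ m * ∏ p ∈ s, p := by
        intro h3
        rcases (Nat.Prime.dvd_mul hqp).1 h3 with h4 | h4
        · exact h h4
        · exact hqs h4
      rw [Nat.totient_mul_of_prime_of_not_dvd hqp h2, if_neg h]
      push_cast
      rw [ih', Nat.cast_sub hqp.one_le, Nat.cast_one]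
      ring

/-- the main terms -/
theorem main_eq (F : ℤ[X]) (m : ℕ) (M : ℤ) (x : ℕ) (T : Finset ℕ) (hT : ∀ p ∈ T, p.Prime) :
    pc x / (Nat.totient (m * ∏ p ∈ T, p) : ℝ) * (rtc F m M (∏ p ∈ T, p)).card =
      pc x / Nat.totient m * ∏ p ∈ T, dens F m M p := by
  rw [totient_prod m T hT, rtc_card F m M T hT]
  unfold dens
  rw [prod_div_distrib]
  push_cast
  rw [div_mul_eq_mul_div, mul_div_assoc, div_mul_eq_mul_div, mul_div_assoc]
  congr 1
  rw [div_div, mul_comm (Nat.totient m : ℝ), ← div_div]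

/-- no fixed prime divisor at `p` -/
def Adm (F : ℤ[X]) (m : ℕ) (M : ℤ) (p : ℕ) : Prop := ∃ n : ℤ, ¬ (p : ℤ) ∣ F.eval n * (M - m * n)

/-- the number of the roots of `F (M - m x)` -/
noncomputable def om (F : ℤ[X]) (m : ℕ) (M : ℤ) (p : ℕ) : ℕ :=
  ((range p).filter (fun a : ℕ => (p : ℤ) ∣ F.eval (a : ℤ) * (M - m * a))).card

lemma Adm_nat {F : ℤ[X]} {m : ℕ} {M : ℤ} {p : ℕ} (hp : p.Prime) (h : Adm F m M p) :
    ∃ a < p, ¬ (p : ℤ) ∣ F.eval (a : ℤ) ∧ ¬ (p : ℤ) ∣ M - m * a := by
  obtain ⟨n, hn⟩ := h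
  have hp0 : (0 : ℤ) < p := by exact_mod_cast hp.pos
  obtain ⟨a, ha⟩ := Int.eq_ofNat_of_zero_le (Int.emod_nonneg n hp0.ne')
  have hlt : (a : ℤ) < p := by
    rw [← ha]
    exact Int.emod_lt_of_pos n hp0
  have hd : (p : ℤ) ∣ n - a := by
    rw [← ha]
    exact Int.dvd_self_sub_emod
  refine ⟨a, by exact_mod_cast hlt, ?_, ?_⟩
  · intro h
    apply hn
    apply Dvd.dvd.mul_right
    have h1 : n - (a : ℤ) ∣ F.eval n - F.eval (a : ℤ) := sub_dvd_eval_sub _ _ _
    have := dvd_add (hd.trans h1) h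
    rwa [sub_add_cancel] at this
  · intro h
    apply hn
    apply Dvd.dvd.mul_left
    have h1 : (p : ℤ) ∣ (m : ℤ) * (n - a) := Dvd.dvd.mul_left hd _
    have := dvd_sub h h1
    have e : M - m * (a : ℤ) - m * (n - a) = M - m * n := by ring
    rwa [e] at this

/-- the root of `M - m x` modulo `p ∤ m` -/
lemma lin_root (m : ℕ) (M : ℤ) (p : ℕ) (hp : p.Prime) (hpm : ¬ p ∣ m) :
    ∃ a < p, (p : ℤ) ∣ M - m * (a : ℕ) ∧ ∀ a' < p, (p : ℤ) ∣ M - m * (a' : ℕ) → a' = a := by
  have hp0 : (0 : ℤ) < p := by exact_mod_cast hp.pos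
  have hco : IsCoprime (m : ℤ) (p : ℤ) := by
    rw [Nat.isCoprime_iff_coprime, Nat.coprime_comm, hp.coprime_iff_not_dvd]
    exact hpm
  obtain ⟨u, v, huv⟩ := hco
  obtain ⟨a, ha⟩ := Int.eq_ofNat_of_zero_le (Int.emod_nonneg (M * u) hp0.ne')
  have hlt : (a : ℤ) < p := by
    rw [← ha]
    exact Int.emod_lt_of_pos _ hp0
  have hd : (p : ℤ) ∣ M * u - a := by
    rw [← ha]
    exact Int.dvd_self_sub_emod
  have h1 : (p : ℤ) ∣ M - m * (a : ℕ) := by
    have h2 : (p : ℤ) ∣ (m : ℤ) * (M * u - a) := Dvd.dvd.mul_left hd _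
    have h3 : (p : ℤ) ∣ M * v * p := Dvd.intro_left _ rfl
    have h4 := dvd_add h2 h3
    have e : (m : ℤ) * (M * u - a) + M * v * p = M - m * (a : ℕ) := by
      linear_combination M * huv
    rwa [e] at h4
  refine ⟨a, by exact_mod_cast hlt, h1, fun a' ha' h => ?_⟩
  have h2 := dvd_sub h1 h
  have e : M - m * (a : ℕ) - (M - m * (a' : ℕ)) = (m : ℤ) * ((a' : ℤ) - a) := by push_cast; ring
  rw [e] at h2
  have h3 : (p : ℤ) ∣ (a' : ℤ) - a := by
    apply IsCoprime.dvd_of_dvd_mul_left _ h2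
    rw [Nat.isCoprime_iff_coprime, hp.coprime_iff_not_dvd]
    exact hpm
  have h4 : a ≡ a' [MOD p] := Nat.modEq_iff_dvd.2 h3
  have hlt' : a < p := by exact_mod_cast hlt
  unfold Nat.ModEq at h4
  rw [Nat.mod_eq_of_lt hlt', Nat.mod_eq_of_lt ha'] at h4
  exact h4.symm

/-- upper bound for the density, from the admissibility -/
theorem dens_le {F : ℤ[X]} {m : ℕ} {M : ℤ} {p : ℕ} (hp : p.Prime) (h : Adm F m M p) :
    dens F m M p ≤ 1 - 1 / p := by
  classical
  have hp2 : (2 : ℝ) ≤ p := by exact_mod_cast hp.two_le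
  have hp0 : (0 : ℝ) < p := by linarith
  obtain ⟨n, hnp, hn1, hn2⟩ := Adm_nat hp h
  unfold dens
  split_ifs with hpm
  · have h1 : rN F m M p + 1 ≤ p := by
      have h2 : insert n ((range p).filter (fun a : ℕ => (p : ℤ) ∣ F.eval (a : ℤ) ∧
          ¬ (p : ℤ) ∣ M - m * a)) ⊆ range p := by
        intro a ha
        rw [mem_insert, mem_filter] at ha
        rcases ha with rfl | ha
        · exact mem_range.2 hnp
        · exact ha.1
      have h3 := card_le_card h2
      rw [card_insert_of_notMem, card_range] at h3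
      · exact h3
      · rw [mem_filter]
        rintro ⟨_, h4, _⟩
        exact hn1 h4
    have h2 : (rN F m M p : ℝ) + 1 ≤ p := by exact_mod_cast h1
    rw [div_le_iff₀ hp0]
    have : (1 - 1 / (p : ℝ)) * p = p - 1 := by field_simp
    linarith
  · obtain ⟨a0, ha0, ha1, ha2⟩ := lin_root m M p hp hpm
    have hne : n ≠ a0 := by
      rintro rfl
      exact hn2 ha1
    have h1 : rN F m M p + 2 ≤ p := by
      have h2 : insert n (insert a0 ((range p).filter (fun a : ℕ => (p : ℤ) ∣ F.eval (a : ℤ) ∧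
          ¬ (p : ℤ) ∣ M - m * a))) ⊆ range p := by
        intro a ha
        rw [mem_insert, mem_insert, mem_filter] at ha
        rcases ha with rfl | rfl | ha
        · exact mem_range.2 hnp
        · exact mem_range.2 ha0
        · exact ha.1
      have h3 := card_le_card h2
      rw [card_insert_of_notMem, card_insert_of_notMem, card_range] at h3
      · exact h3
      · rw [mem_filter]
        rintro ⟨_, _, h4⟩
        exact h4 ha1
      · rw [mem_insert, mem_filter]
        rintro (h4 | ⟨_, h4, _⟩)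
        · exact hne h4
        · exact hn1 h4
    have h2 : (rN F m M p : ℝ) + 2 ≤ p := by exact_mod_cast h1
    rw [div_le_iff₀ (by linarith)]
    have h3 : (1 - 1 / (p : ℝ)) * (p - 1) = p - 2 + 1 / p := by
      field_simp
      ring
    have : 0 ≤ 1 / (p : ℝ) := by positivity
    linarith

theorem dens_nonneg {F : ℤ[X]} {m : ℕ} {M : ℤ} {p : ℕ} (hp : p.Prime) : 0 ≤ dens F m M p := by
  have hp2 : (2 : ℝ) ≤ p := by exact_mod_cast hp.two_le
  unfold dens
  apply div_nonneg (Nat.cast_nonneg _)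
  split_ifs <;> linarith

theorem dens_le_of_not_dvd {F : ℤ[X]} {m : ℕ} {M : ℤ} {p : ℕ} (hp : p.Prime) (hpm : ¬ p ∣ m)
    (K : ℝ) (hK : (rho F p : ℝ) ≤ K) : dens F m M p ≤ K / ((p : ℝ) - 1) := by
  have hp2 : (2 : ℝ) ≤ p := by exact_mod_cast hp.two_le
  unfold dens
  rw [if_neg hpm]
  apply div_le_div_of_nonneg_right _ (by linarith)
  have : (rN F m M p : ℝ) ≤ rho F p := by exact_mod_cast rN_le_rho F m M p
  linarith

/-- the factor of the singular series -/
theorem om_dens {F : ℤ[X]} {m : ℕ} {M : ℤ} {p : ℕ} (hp : p.Prime) (h : Adm F m M p) :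
    (1 - (om F m M p : ℝ) / p) / (1 - 1 / (p : ℝ)) =
      (1 - dens F m M p) * (if p ∣ m then 1 / (1 - 1 / (p : ℝ)) else 1) := by
  classical
  have hp2 : (2 : ℝ) ≤ p := by exact_mod_cast hp.two_le
  have hp0 : (0 : ℝ) < p := by linarith
  have hpp : (Prime (p : ℤ)) := Nat.prime_iff_prime_int.1 hp
  have h1p : 0 < 1 - 1 / (p : ℝ) := by
    rw [sub_pos, div_lt_one hp0]
    linarith
  obtain ⟨n, hnp, hn1, hn2⟩ := Adm_nat hp h
  unfold dens
  by_cases hpm : p ∣ m
  · rw [if_pos hpm, if_pos hpm]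
    have e : om F m M p = rN F m M p := by
      unfold om rN
      congr 1
      apply filter_congr
      intro a _
      have hpm' : (p : ℤ) ∣ m := by exact_mod_cast hpm
      have h2 : ¬ (p : ℤ) ∣ M - m * a := by
        intro h3
        apply hn2
        have h4 := dvd_add h3 (Dvd.dvd.mul_right hpm' (a : ℤ))
        rw [sub_add_cancel] at h4
        exact dvd_sub h4 (Dvd.dvd.mul_right hpm' _)
      constructor
      · intro h3
        rcases hpp.dvd_or_dvd h3 with h4 | h4
        · exact ⟨h4, h2⟩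
        · exact absurd h4 h2
      · rintro ⟨h3, _⟩
        exact Dvd.dvd.mul_right h3 _
    rw [e, mul_one_div]
  · rw [if_neg hpm, if_neg hpm, mul_one]
    obtain ⟨a0, ha0, ha1, ha2⟩ := lin_root m M p hp hpm
    have e : om F m M p = rN F m M p + 1 := by
      unfold om rN
      rw [← card_insert_of_notMem (a := a0)]
      · congr 1
        ext a
        rw [mem_insert, mem_filter, mem_filter, mem_range]
        constructor
        · rintro ⟨h2, h3⟩
          by_cases h4 : (p : ℤ) ∣ M - m * a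
          · exact Or.inl (ha2 a h2 h4)
          · rcases hpp.dvd_or_dvd h3 with h5 | h5
            · exact Or.inr ⟨h2, h5, h4⟩
            · exact absurd h5 h4
        · rintro (rfl | ⟨h2, h3, h4⟩)
          · exact ⟨ha0, Dvd.dvd.mul_left ha1 _⟩
          · exact ⟨h2, Dvd.dvd.mul_right h3 _⟩
      · rw [mem_filter]
        rintro ⟨_, _, h4⟩
        exact h4 ha1
    rw [e]
    push_cast
    have h3 : (p : ℝ) - 1 ≠ 0 := by linarith
    have h4 : (1 : ℝ) - 1 / p = (p - 1) / p := by field_simp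
    rw [h4]
    field_simp
    ring

end Pool.Agent.J4.H29.SP
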