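import Mathlib
import Pool.Agent.H474R2.PG.Defs

/-! Counting the solutions of `F(n) ≡ 0 (mod d)` with `M - m n` prime by residue classes. -/

set_option autoImplicit false

namespace Pool.Agent.J4.H29.SP

open Polynomial Finset
open Pool.Agent.H474R2.PG

/-- after `Pool.Agent.H362R2.R1.cnt_mul` -/
lemma cnt_mul (m n : ℕ) (h : Nat.Coprime m n) (hm : 0 < m) (hn : 0 < n) (P Q : ℕ → Prop)
    [DecidablePred P] [DecidablePred Q]
    (hP : ∀ x, P (x % m) ↔ P x) (hQ : ∀ x, Q (x % n) ↔ Q x) :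
    ((range (m * n)).filter (fun x => P x ∧ Q x)).card =
      ((range m).filter P).card * ((range n).filter Q).card := by
  rw [← card_product]
  apply card_nbij' (fun x => (x % m, x % n)) (fun q => (Nat.chineseRemainder h q.1 q.2 : ℕ))
  · intro x hx
    rw [mem_coe, mem_filter] at hx
    rw [mem_coe, mem_product, mem_filter, mem_filter, mem_range, mem_range]
    exact ⟨⟨Nat.mod_lt _ hm, (hP x).2 hx.2.1⟩, ⟨Nat.mod_lt _ hn, (hQ x).2 hx.2.2⟩⟩
  · intro q hq
    rw [mem_coe, mem_product, mem_filter, mem_filter, mem_range, mem_range] at hq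
    rw [mem_coe, mem_filter, mem_range]
    have h1 := (Nat.chineseRemainder h q.1 q.2).2
    refine ⟨Nat.chineseRemainder_lt_mul h q.1 q.2 hm.ne' hn.ne', ?_, ?_⟩
    · rw [← hP, h1.1, hP]
      exact hq.1.2
    · rw [← hQ, h1.2, hQ]
      exact hq.2.2
  · intro x hx
    rw [mem_coe, mem_filter, mem_range] at hx
    have h1 := Nat.chineseRemainder_modEq_unique h (a := x % m) (b := x % n) (z := x)
      (Nat.mod_modEq x m).symm (Nat.mod_modEq x n).symm
    have h2 := Nat.ModEq.eq_of_lt_of_lt h1 hx.1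
      (Nat.chineseRemainder_lt_mul h (x % m) (x % n) hm.ne' hn.ne')
    exact h2.symm
  · intro q hq
    rw [mem_coe, mem_product, mem_filter, mem_filter, mem_range, mem_range] at hq
    have h1 := (Nat.chineseRemainder h q.1 q.2).2
    apply Prod.ext
    · have := h1.1
      rw [Nat.ModEq, Nat.mod_eq_of_lt hq.1.1] at this
      exact this
    · have := h1.2
      rw [Nat.ModEq, Nat.mod_eq_of_lt hq.2.1] at this
      exact this

/-- after `Pool.Agent.H362R2.R1.cnt_prod` -/
lemma cnt_prod (S : Finset ℕ) (hS : ∀ p ∈ S, p.Prime) (P : ℕ → ℕ → Prop) [∀ p, DecidablePred (P p)]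
    (hP : ∀ p ∈ S, ∀ x, P p (x % p) ↔ P p x) :
    ((range (∏ p ∈ S, p)).filter (fun x => ∀ p ∈ S, P p x)).card =
      ∏ p ∈ S, ((range p).filter (P p)).card := by
  classical
  induction S using Finset.induction_on with
  | empty => simp
  | insert q S hq ih =>
    have ih' := ih (fun p hp => hS p (mem_insert_of_mem hp)) (fun p hp => hP p (mem_insert_of_mem hp))
    rw [prod_insert hq, prod_insert hq, ← ih']
    have hco : Nat.Coprime q (∏ p ∈ S, p) := by
      apply Nat.Coprime.prod_right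
      intro p hp
      rw [Nat.coprime_primes (hS q (mem_insert_self _ _)) (hS p (mem_insert_of_mem hp))]
      rintro rfl
      exact hq hp
    have hpos : 0 < ∏ p ∈ S, p := prod_pos fun p hp => (hS p (mem_insert_of_mem hp)).pos
    rw [← cnt_mul q (∏ p ∈ S, p) hco (hS q (mem_insert_self _ _)).pos hpos (P q)
      (fun x => ∀ p ∈ S, P p x)
      (hP q (mem_insert_self _ _)) (by
        intro x
        have h1 : ∀ p ∈ S, (P p (x % ∏ p ∈ S, p) ↔ P p x) := by
          intro p hp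
          rw [← hP p (mem_insert_of_mem hp) (x % ∏ p ∈ S, p), ← hP p (mem_insert_of_mem hp) x,
            Nat.mod_mod_of_dvd _ (dvd_prod_of_mem _ hp)]
        constructor
        · intro h p hp
          exact (h1 p hp).1 (h p hp)
        · intro h p hp
          exact (h1 p hp).2 (h p hp))]
    congr 1
    apply filter_congr
    intro x _
    constructor
    · intro h
      exact ⟨h q (mem_insert_self _ _), fun p hp => h p (mem_insert_of_mem hp)⟩
    · rintro ⟨h1, h2⟩ p hp
      rcases mem_insert.1 hp with rfl | hp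
      · exact h1
      · exact h2 p hp

/-- the roots of `F` modulo `d` -/
noncomputable def rts (F : ℤ[X]) (d : ℕ) : Finset ℕ :=
  (range d).filter (fun a : ℕ => (d : ℤ) ∣ F.eval (a : ℤ))

/-- the roots `a` of `F` modulo `d` with `M - m a` prime to `d` -/
noncomputable def rtc (F : ℤ[X]) (m : ℕ) (M : ℤ) (d : ℕ) : Finset ℕ :=
  (rts F d).filter (fun a : ℕ => (M - m * a).natAbs.Coprime d)

/-- the number of the roots `a` of `F` modulo a prime `p` with `M - m a` prime to `p` -/
noncomputable def rN (F : ℤ[X]) (m : ℕ) (M : ℤ) (p : ℕ) : ℕ :=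
  ((range p).filter (fun a : ℕ => (p : ℤ) ∣ F.eval (a : ℤ) ∧ ¬ (p : ℤ) ∣ M - m * a)).card

lemma eval_mod (F : ℤ[X]) (p : ℕ) (x : ℕ) :
    (p : ℤ) ∣ F.eval ((x % p : ℕ) : ℤ) ↔ (p : ℤ) ∣ F.eval (x : ℤ) := by
  have h1 : ((x % p : ℕ) : ℤ) - (x : ℤ) ∣ F.eval ((x % p : ℕ) : ℤ) - F.eval (x : ℤ) :=
    sub_dvd_eval_sub _ _ _
  have h2 : (p : ℤ) ∣ ((x % p : ℕ) : ℤ) - (x : ℤ) := by
    rw [Int.natCast_mod, ← Int.modEq_iff_dvd]
    exact (Int.mod_modEq _ _).symm
  have h3 := h2.trans h1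
  constructor
  · intro h
    have := dvd_sub h h3
    rwa [sub_sub_cancel] at this
  · intro h
    have := dvd_add h3 h
    rwa [sub_add_cancel] at this

lemma lin_mod (m : ℕ) (M : ℤ) (p : ℕ) (x : ℕ) :
    (p : ℤ) ∣ M - m * ((x % p : ℕ) : ℤ) ↔ (p : ℤ) ∣ M - m * (x : ℤ) := by
  have h2 : (p : ℤ) ∣ ((x % p : ℕ) : ℤ) - (x : ℤ) := by
    rw [Int.natCast_mod, ← Int.modEq_iff_dvd]
    exact (Int.mod_modEq _ _).symm
  have h3 : (p : ℤ) ∣ (M - m * ((x % p : ℕ) : ℤ)) - (M - m * (x : ℤ)) := by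
    have e : (M - m * ((x % p : ℕ) : ℤ)) - (M - m * (x : ℤ)) =
        -(m : ℤ) * (((x % p : ℕ) : ℤ) - (x : ℤ)) := by ring
    rw [e]
    exact Dvd.dvd.mul_left h2 _
  constructor
  · intro h
    have := dvd_sub h h3
    rwa [sub_sub_cancel] at this
  · intro h
    have := dvd_add h3 h
    rwa [sub_add_cancel] at this

lemma prod_dvd_iff (T : Finset ℕ) (hT : ∀ p ∈ T, p.Prime) (z : ℤ) :
    ((∏ p ∈ T, p : ℕ) : ℤ) ∣ z ↔ ∀ p ∈ T, (p : ℤ) ∣ z := by
  constructor
  · intro h p hp
    refine dvd_trans ?_ h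
    exact_mod_cast dvd_prod_of_mem _ hp
  · intro h
    rw [Int.natCast_dvd]
    apply Finset.prod_primes_dvd
    · intro p hp
      exact (hT p hp).prime
    · intro p hp
      exact Int.natCast_dvd.1 (h p hp)

theorem rts_card (F : ℤ[X]) (T : Finset ℕ) (hT : ∀ p ∈ T, p.Prime) :
    (rts F (∏ p ∈ T, p)).card = ∏ p ∈ T, rho F p := by
  unfold rts rho
  rw [← cnt_prod T hT (fun p a => (p : ℤ) ∣ F.eval (a : ℤ)) (fun p _ x => eval_mod F p x)]
  congr 1
  apply filter_congr
  intro a _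
  exact prod_dvd_iff T hT _

theorem rtc_card (F : ℤ[X]) (m : ℕ) (M : ℤ) (T : Finset ℕ) (hT : ∀ p ∈ T, p.Prime) :
    (rtc F m M (∏ p ∈ T, p)).card = ∏ p ∈ T, rN F m M p := by
  unfold rtc rts rN
  rw [← cnt_prod T hT (fun p a => (p : ℤ) ∣ F.eval (a : ℤ) ∧ ¬ (p : ℤ) ∣ M - m * a)
    (fun p _ x => by rw [eval_mod, lin_mod]), filter_filter]
  congr 1
  apply filter_congr
  intro a _
  rw [prod_dvd_iff T hT, Nat.coprime_prod_right_iff]
  constructor
  · rintro ⟨h1, h2⟩ p hp
    refine ⟨h1 p hp, fun h3 => ?_⟩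
    have h4 := h2 p hp
    rw [Nat.coprime_comm, (hT p hp).coprime_iff_not_dvd] at h4
    exact h4 (Int.natCast_dvd.1 h3)
  · intro h
    refine ⟨fun p hp => (h p hp).1, fun p hp => ?_⟩
    rw [Nat.coprime_comm, (hT p hp).coprime_iff_not_dvd]
    intro h3
    exact (h p hp).2 (Int.natCast_dvd.2 h3)

lemma rN_le_rho (F : ℤ[X]) (m : ℕ) (M : ℤ) (p : ℕ) : rN F m M p ≤ rho F p := by
  unfold rN rho
  apply card_le_card
  intro a ha
  rw [mem_filter] at ha ⊢
  exact ⟨ha.1, ha.2.1⟩

open Classical in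
/-- the `n` with `M - m n` a prime `≤ x` -/
noncomputable def JJ (m : ℕ) (M : ℤ) (x R : ℕ) : Finset ℕ :=
  (Icc 1 R).filter (fun n : ℕ => ∃ p : ℕ, p.Prime ∧ p ≤ x ∧ M - m * n = p)

/-- the primes `p ≤ x` in the class of `M - m a` modulo `q` -/
noncomputable def Cl (m : ℕ) (M : ℤ) (x q a : ℕ) : Finset ℕ :=
  (Icc 1 x).filter (fun p : ℕ => p.Prime ∧ (q : ℤ) ∣ p - (M - m * a))

theorem count_J (F : ℤ[X]) (m : ℕ) (hm : 1 ≤ m) (M : ℤ) (x R d : ℕ) (hd : 1 ≤ d)
    (hx : (x : ℤ) + m ≤ M) (hR : M ≤ R) :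
    ((JJ m M x R).filter (fun n : ℕ => (d : ℤ) ∣ F.eval (n : ℤ))).card =
      ∑ a ∈ rts F d, (Cl m M x (m * d) a).card := by
  classical
  have hm0 : (0 : ℤ) < m := by exact_mod_cast hm
  rw [card_eq_sum_card_fiberwise (s := (JJ m M x R).filter (fun n : ℕ => (d : ℤ) ∣ F.eval (n : ℤ)))
    (f := fun n : ℕ => n % d) (t := rts F d)]
  · apply sum_congr rfl
    intro a ha
    unfold rts at ha
    rw [mem_filter, mem_range] at ha
    refine card_bij (fun n _ => (M - m * n).toNat) ?_ ?_ ?_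
    · intro n hn
      rw [mem_filter, mem_filter, JJ, mem_filter, mem_Icc] at hn
      obtain ⟨⟨⟨h1, p, hp, hpx, hpn⟩, h2⟩, h3⟩ := hn
      have e : (M - m * n).toNat = p := by rw [hpn, Int.toNat_natCast]
      show (M - m * n).toNat ∈ _
      rw [e, Cl, mem_filter, mem_Icc]
      refine ⟨⟨hp.one_le, hpx⟩, hp, ?_⟩
      rw [← hpn]
      have h4 : (d : ℤ) ∣ (n : ℤ) - a := by
        have h5 : n ≡ a [MOD d] := by
          unfold Nat.ModEq
          have h6 : n % d = a := h3
          rw [h6, Nat.mod_eq_of_lt ha.1]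
        exact (Nat.modEq_iff_dvd.1 h5.symm)
      obtain ⟨k, hk⟩ := h4
      refine ⟨-k, ?_⟩
      push_cast
      linear_combination -(m : ℤ) * hk
    · intro n hn n' hn' h
      rw [mem_filter, mem_filter, JJ, mem_filter, mem_Icc] at hn hn'
      obtain ⟨⟨⟨h1, p, hp, hpx, hpn⟩, h2⟩, h3⟩ := hn
      obtain ⟨⟨⟨h1', p', hp', hpx', hpn'⟩, h2'⟩, h3'⟩ := hn'
      have h4 : (M - m * n).toNat = (M - m * n').toNat := h
      rw [hpn, hpn', Int.toNat_natCast, Int.toNat_natCast] at h4
      have h5 : (m : ℤ) * n = m * n' := by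
        rw [h4] at hpn
        linarith
      have h6 := mul_left_cancel₀ hm0.ne' h5
      exact_mod_cast h6
    · intro p hp
      rw [Cl, mem_filter, mem_Icc] at hp
      obtain ⟨⟨h1, h2⟩, h3, k, hk⟩ := hp
      -- `n = a - d k`
      have hk' : (p : ℤ) = M - m * (a - d * k) := by
        push_cast at hk
        linear_combination hk
      have hpx : (p : ℤ) ≤ x := by exact_mod_cast h2
      have hpos : 0 < (a : ℤ) - d * k := by
        have h4 : (m : ℤ) * 1 ≤ m * (a - d * k) := by linarith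
        have h5 := le_of_mul_le_mul_left h4 hm0
        linarith
      obtain ⟨n, hn⟩ := Int.eq_ofNat_of_zero_le hpos.le
      refine ⟨n, ?_, ?_⟩
      · rw [mem_filter, mem_filter, JJ, mem_filter, mem_Icc]
        have hn1 : 1 ≤ n := by
          have : (0 : ℤ) < n := by rw [← hn]; exact hpos
          exact_mod_cast this
        have hp0 : (0 : ℤ) ≤ p := by positivity
        have hnR : (n : ℤ) ≤ R := by
          have h6 : (m : ℤ) * n ≤ R := by
            rw [hn] at hk'
            linarith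
          have h7 : (1 : ℤ) * n ≤ m * n := by
            apply mul_le_mul_of_nonneg_right _ (by positivity)
            exact_mod_cast hm
          linarith
        have hmod : n % d = a := by
          have h8 : n ≡ a [MOD d] := by
            apply Nat.ModEq.symm
            rw [Nat.modEq_iff_dvd]
            refine ⟨-k, ?_⟩
            rw [← hn]
            ring
          unfold Nat.ModEq at h8
          rw [h8, Nat.mod_eq_of_lt ha.1]
        refine ⟨⟨⟨⟨hn1, by exact_mod_cast hnR⟩, p, h3, h2, ?_⟩, ?_⟩, hmod⟩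
        · rw [hk', hn]
        · rw [← eval_mod, hmod]
          exact ha.2
      · show (M - m * n).toNat = p
        have : M - m * n = p := by rw [hk', hn]
        rw [this, Int.toNat_natCast]
  · intro n hn
    rw [mem_coe, mem_filter] at hn
    show n % d ∈ rts F d
    unfold rts
    rw [mem_filter, mem_range]
    refine ⟨Nat.mod_lt _ hd, ?_⟩
    rw [eval_mod]
    exact hn.2

/-- the classes which are not prime to the modulus contain few primes -/
theorem noncop (F : ℤ[X]) (m : ℕ) (hm : 1 ≤ m) (M : ℤ) (x d : ℕ) (hd : 1 ≤ d) :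
    ∑ a ∈ rts F d \ rtc F m M d, (Cl m M x (m * d) a).card ≤ d.primeFactors.card := by
  classical
  have hm0 : (0 : ℤ) < m := by exact_mod_cast hm
  rw [← card_biUnion]
  · apply card_le_card
    intro p hp
    rw [mem_biUnion] at hp
    obtain ⟨a, ha, hp⟩ := hp
    rw [mem_sdiff] at ha
    unfold rtc at ha
    rw [mem_filter] at ha
    have hnc : ¬ (M - m * a).natAbs.Coprime d := fun h => ha.2 ⟨ha.1, h⟩
    obtain ⟨q, hq, hq1, hq2⟩ := Nat.Prime.not_coprime_iff_dvd.1 hnc
    rw [Cl, mem_filter] at hp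
    obtain ⟨h1, h2, h3⟩ := hp
    have h4 : (q : ℤ) ∣ p := by
      have h5 : (q : ℤ) ∣ ((m * d : ℕ) : ℤ) := by
        push_cast
        exact Dvd.dvd.mul_left (by exact_mod_cast hq2) _
      have h6 := h5.trans h3
      have h7 : (q : ℤ) ∣ M - m * a := Int.natCast_dvd.2 hq1
      have := dvd_add h6 h7
      rwa [sub_add_cancel] at this
    have h5 : q ∣ p := by exact_mod_cast h4
    rw [Nat.prime_dvd_prime_iff_eq hq h2] at h5
    subst h5
    rw [Nat.mem_primeFactors]
    exact ⟨hq, hq2, by omega⟩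
  · intro a ha a' ha' haa
    rw [mem_coe, mem_sdiff] at ha ha'
    show Disjoint _ _
    rw [Finset.disjoint_left]
    intro p hp hp'
    rw [Cl, mem_filter] at hp hp'
    have h1 := dvd_sub hp.2.2 hp'.2.2
    have h2 : ((m : ℤ) * d) ∣ m * ((a : ℤ) - a') := by
      have e : ((p : ℤ) - (M - m * a)) - (p - (M - m * a')) = m * ((a : ℤ) - a') := by ring
      rw [e] at h1
      push_cast at h1
      exact h1
    have h3 : (d : ℤ) ∣ (a : ℤ) - a' := (mul_dvd_mul_iff_left hm0.ne').1 h2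
    have ha1 := ha.1
    have ha1' := ha'.1
    unfold rts at ha1 ha1'
    rw [mem_filter, mem_range] at ha1 ha1'
    have h4 : a' ≡ a [MOD d] := Nat.modEq_iff_dvd.2 h3
    unfold Nat.ModEq at h4
    rw [Nat.mod_eq_of_lt ha1.1, Nat.mod_eq_of_lt ha1'.1] at h4
    exact haa h4.symm

end Pool.Agent.J4.H29.SP
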