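import Pool.Agent.Y882.EHF
import Pool.Agent.J4.H29.SP.Loc

/-! The level of distribution with few exceptions, in the classes `N - b - m a`, `a` a root of `F` modulo `d`. -/

set_option autoImplicit false

namespace Pool.Agent.J4.H29.SP

open Polynomial Finset
open Pool.Agent.H474R2.PG
open Pool.Agent.TH926.EH
open Pool.Agent.Y882.EHF
open Pool.Agent.H442R2.EHI (piAP)

/-- the `j`-th root of `F` modulo `d` -/
noncomputable def rj (F : ℤ[X]) (d j : ℕ) : ℕ :=
  if h : j < (rts F d).card then (rts F d).orderEmbOfFin rfl ⟨j, h⟩ else 0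

lemma exists_rj (F : ℤ[X]) (d a : ℕ) (ha : a ∈ rts F d) : ∃ j < (rts F d).card, rj F d j = a := by
  have h1 : a ∈ Set.range ((rts F d).orderEmbOfFin rfl) := by
    rw [Finset.range_orderEmbOfFin]
    exact ha
  obtain ⟨i, hi⟩ := h1
  refine ⟨i.1, i.2, ?_⟩
  unfold rj
  rw [dif_pos i.2]
  exact hi

/-- the residue system of the `j`-th roots -/
noncomputable def vj (F : ℤ[X]) (m : ℕ) (b : ℤ) (j q : ℕ) : ℕ :=
  ((-((m : ℤ) * (rj F (q / m) j : ℕ) + b)) % (q : ℤ)).toNat

lemma vj_mod (F : ℤ[X]) (m : ℕ) (b : ℤ) (j q : ℕ) (hq : 1 ≤ q) :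
    (q : ℤ) ∣ (vj F m b j q : ℤ) + ((m : ℤ) * (rj F (q / m) j : ℕ) + b) := by
  unfold vj
  rw [Int.toNat_of_nonneg (Int.emod_nonneg _ (by positivity))]
  have h := Int.emod_add_mul_ediv (-((m : ℤ) * (rj F (q / m) j : ℕ) + b)) (q : ℤ)
  refine ⟨-((-((m : ℤ) * (rj F (q / m) j : ℕ) + b)) / (q : ℤ)), ?_⟩
  linear_combination h

lemma Cl_eq (m : ℕ) (b : ℤ) (N x q a v : ℕ) (hv : (q : ℤ) ∣ (v : ℤ) + ((m : ℤ) * a + b)) :
    (((Cl m ((N : ℤ) - b) x q a).card : ℕ) : ℝ) = piAP x q (N + v) := by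
  unfold piAP Cl
  congr 2
  apply filter_congr
  intro p _
  constructor
  · rintro ⟨h1, h2⟩
    refine ⟨h1, ?_⟩
    apply Nat.ModEq.symm
    rw [Nat.modEq_iff_dvd]
    push_cast
    have := dvd_sub h2 hv
    have e : (p : ℤ) - ((N : ℤ) - b - m * a) - ((v : ℤ) + ((m : ℤ) * a + b)) = p - (N + v) := by ring
    rwa [e] at this
  · rintro ⟨h1, h2⟩
    refine ⟨h1, ?_⟩
    have h3 := Nat.modEq_iff_dvd.1 h2.symm
    push_cast at h3
    have := dvd_add h3 hv
    have e : (p : ℤ) - (N + v) + ((v : ℤ) + ((m : ℤ) * a + b)) = p - ((N : ℤ) - b - m * a) := by ring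
    rwa [e] at this

/-- few exceptions for the first `R` systems of roots -/
theorem exc (F : ℤ[X]) (m : ℕ) (b : ℤ) (U : ℕ) (ε : ℝ) (hε : 0 < ε) :
    ∃ B x₀ : ℕ, ∀ x : ℕ, x₀ ≤ x → ∀ Q : ℕ, (Q : ℝ) ≤ (x : ℝ) ^ (1 - ε) → ∀ R : ℕ,
      ∃ Ex : Finset ℕ, (Ex.card : ℝ) ≤ R * ((Q : ℝ) ^ 2 / x * Real.log x ^ B) ∧
        ∀ N : ℕ, (N : ℝ) ≤ (x : ℝ) ^ (2 : ℝ) → N ∉ Ex → ∀ j < R,
          S x Q (fun q => N + vj F m b j q) ≤ x / Real.log x ^ U := by
  classical
  obtain ⟨B, x₀, H⟩ := few_affine U ε 2 hε (by norm_num)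
  refine ⟨B, x₀, fun x hx Q hQ R => ?_⟩
  set A : ℕ → Finset ℕ := fun j => (Icc 0 (x ^ 2)).filter
    (fun a => x / Real.log x ^ U < S x Q (fun q => a * 1 + vj F m b j q)) with hA
  refine ⟨(range R).biUnion A, ?_, ?_⟩
  · calc (((range R).biUnion A).card : ℝ) ≤ ∑ j ∈ range R, ((A j).card : ℝ) := by
          exact_mod_cast card_biUnion_le
      _ ≤ ∑ _j ∈ range R, ((Q : ℝ) ^ 2 / x * Real.log x ^ B) := by
          apply sum_le_sum
          intro j _
          apply H x hx Q hQ (fun _ => 1) (fun q => vj F m b j q) (fun q _ => Nat.coprime_one_left q)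
          intro a ha
          rw [hA, mem_filter, mem_Icc] at ha
          refine ⟨?_, ha.2⟩
          have : (a : ℝ) ≤ (x : ℝ) ^ 2 := by exact_mod_cast ha.1.2
          rwa [← Real.rpow_natCast] at this
      _ = _ := by rw [sum_const, card_range, nsmul_eq_mul]
  · intro N hN hNE j hj
    by_contra h
    push Not at h
    apply hNE
    rw [mem_biUnion]
    refine ⟨j, mem_range.2 hj, ?_⟩
    rw [hA, mem_filter, mem_Icc]
    refine ⟨⟨Nat.zero_le _, ?_⟩, ?_⟩
    · rw [← Nat.cast_ofNat, Real.rpow_natCast] at hN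
      exact_mod_cast hN
    · have e : (fun q => N * 1 + vj F m b j q) = (fun q => N + vj F m b j q) := by
        funext q
        rw [mul_one]
      rw [e]
      exact h

/-- the total error over the moduli with few roots -/
theorem sum_few (F : ℤ[X]) (m : ℕ) (hm : 1 ≤ m) (b : ℤ) (x D R N : ℕ) (U : ℕ)
    (hN : ((N : ℤ) - b).natAbs.Coprime m)
    (h : ∀ j < R, S x (m * D) (fun q => N + vj F m b j q) ≤ x / Real.log x ^ U) :
    ∑ d ∈ (Icc 1 D).filter (fun d => (rts F d).card ≤ R), ∑ a ∈ rtc F m ((N : ℤ) - b) d,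
      |(((Cl m ((N : ℤ) - b) x (m * d) a).card : ℕ) : ℝ) - pc x / (Nat.totient (m * d) : ℝ)| ≤
      R * (x / Real.log x ^ U) := by
  classical
  set f : ℕ → ℕ → ℝ := fun d a =>
    |(((Cl m ((N : ℤ) - b) x (m * d) a).card : ℕ) : ℝ) - pc x / (Nat.totient (m * d) : ℝ)| with hf
  have hf0 : ∀ d a, 0 ≤ f d a := fun d a => abs_nonneg _
  set rr := rtc F m ((N : ℤ) - b) with hrr
  -- for one modulus
  have h1 : ∀ d ∈ (Icc 1 D).filter (fun d => (rts F d).card ≤ R), ∑ a ∈ rr d, f d a ≤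
      ∑ j ∈ range R, if rj F d j ∈ rr d then f d (rj F d j) else 0 := by
    intro d hd
    rw [mem_filter] at hd
    have hsub : rr d ⊆ ((range R).filter (fun j => rj F d j ∈ rr d)).image (rj F d) := by
      intro a ha
      have ha1 : a ∈ rts F d := (mem_filter.1 ha).1
      obtain ⟨j, hj, hja⟩ := exists_rj F d a ha1
      rw [mem_image]
      refine ⟨j, ?_, hja⟩
      rw [mem_filter, mem_range]
      refine ⟨lt_of_lt_of_le hj hd.2, ?_⟩
      rw [hja]
      exact ha
    calc ∑ a ∈ rr d, f d a ≤ ∑ a ∈ ((range R).filter (fun j => rj F d j ∈ rr d)).image (rj F d), f d a :=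
          sum_le_sum_of_subset_of_nonneg hsub fun a _ _ => hf0 d a
      _ ≤ ∑ j ∈ (range R).filter (fun j => rj F d j ∈ rr d), f d (rj F d j) :=
          sum_image_le_of_nonneg fun _ _ => hf0 _ _
      _ = _ := by rw [sum_filter]
  -- for one system
  have h2 : ∀ j < R, ∑ d ∈ Icc 1 D, (if rj F d j ∈ rr d then f d (rj F d j) else 0) ≤
      x / Real.log x ^ U := by
    intro j hj
    refine le_trans ?_ (h j hj)
    rw [← sum_filter]
    unfold S
    -- injection `d ↦ m d`
    have himg : ∑ d ∈ (Icc 1 D).filter (fun d => rj F d j ∈ rr d), f d (rj F d j) =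
        ∑ q ∈ ((Icc 1 D).filter (fun d => rj F d j ∈ rr d)).image (fun d => m * d),
          f (q / m) (rj F (q / m) j) := by
      rw [sum_image]
      · apply sum_congr rfl
        intro d _
        rw [Nat.mul_div_cancel_left d (by omega)]
      · intro d _ d' _ hdd
        exact Nat.eq_of_mul_eq_mul_left (by omega) hdd
    rw [himg]
    refine le_trans (sum_le_sum (g := fun q => E x q (N + vj F m b j q)) ?_) ?_
    · intro q hq
      rw [mem_image] at hq
      obtain ⟨d, hd, rfl⟩ := hq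
      rw [mem_filter, mem_Icc] at hd
      rw [Nat.mul_div_cancel_left d (by omega)]
      have hmd : 1 ≤ m * d := Nat.mul_pos hm hd.1.1
      have h3 := vj_mod F m b j (m * d) hmd
      rw [Nat.mul_div_cancel_left d (by omega)] at h3
      apply le_of_eq
      simp only [hf]
      unfold E
      rw [Cl_eq m b N x (m * d) (rj F d j) (vj F m b j (m * d)) h3]
    · apply sum_le_sum_of_subset_of_nonneg
      · intro q hq
        rw [mem_image] at hq
        obtain ⟨d, hd, rfl⟩ := hq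
        rw [mem_filter, mem_Icc] at hd
        obtain ⟨hd1, hd2⟩ := hd
        have hmd : 1 ≤ m * d := Nat.mul_pos hm hd1.1
        rw [mem_filter, mem_Icc]
        refine ⟨⟨hmd, Nat.mul_le_mul_left _ hd1.2⟩, ?_⟩
        have h3 := vj_mod F m b j (m * d) hmd
        rw [Nat.mul_div_cancel_left d (by omega)] at h3
        show (N + vj F m b j (m * d)).Coprime (m * d)
        -- primes
        by_contra hnc
        obtain ⟨q, hq, hq1, hq2⟩ := Nat.Prime.not_coprime_iff_dvd.1 hnc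
        have h4 : (q : ℤ) ∣ ((m * d : ℕ) : ℤ) := by exact_mod_cast hq2
        have h5 : (q : ℤ) ∣ ((N + vj F m b j (m * d) : ℕ) : ℤ) := by exact_mod_cast hq1
        have h6 := dvd_sub h5 (h4.trans h3)
        push_cast at h6
        have e : (N : ℤ) + (vj F m b j (m * d) : ℤ) - ((vj F m b j (m * d) : ℤ) +
            ((m : ℤ) * (rj F d j : ℕ) + b)) = (N : ℤ) - b - m * (rj F d j : ℕ) := by ring
        rw [e] at h6
        rcases (Nat.Prime.dvd_mul hq).1 hq2 with h7 | h7
        · -- `q ∣ m`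
          have h8 : (q : ℤ) ∣ (m : ℤ) * (rj F d j : ℕ) := Dvd.dvd.mul_right (by exact_mod_cast h7) _
          have h9 := dvd_add h6 h8
          rw [sub_add_cancel] at h9
          exact Nat.Prime.not_coprime_iff_dvd.2 ⟨q, hq, Int.natCast_dvd.1 h9, h7⟩ hN
        · have h8 := (mem_filter.1 hd2).2
          exact Nat.Prime.not_coprime_iff_dvd.2 ⟨q, hq, Int.natCast_dvd.1 h6, h7⟩ h8
      · intro q _ _
        unfold E
        exact abs_nonneg _
  calc ∑ d ∈ (Icc 1 D).filter (fun d => (rts F d).card ≤ R), ∑ a ∈ rr d, f d a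
      ≤ ∑ d ∈ (Icc 1 D).filter (fun d => (rts F d).card ≤ R),
        ∑ j ∈ range R, (if rj F d j ∈ rr d then f d (rj F d j) else 0) := sum_le_sum h1
    _ ≤ ∑ d ∈ Icc 1 D, ∑ j ∈ range R, (if rj F d j ∈ rr d then f d (rj F d j) else 0) := by
        apply sum_le_sum_of_subset_of_nonneg (filter_subset _ _)
        intro d _ _
        apply sum_nonneg
        intro j _
        split_ifs
        · exact hf0 _ _
        · exact le_refl _
    _ = ∑ j ∈ range R, ∑ d ∈ Icc 1 D, (if rj F d j ∈ rr d then f d (rj F d j) else 0) := sum_comm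
    _ ≤ ∑ _j ∈ range R, (x / Real.log x ^ U : ℝ) := by
        apply sum_le_sum
        intro j hj
        exact h2 j (mem_range.1 hj)
    _ = _ := by rw [sum_const, card_range, nsmul_eq_mul]

end Pool.Agent.J4.H29.SP
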