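import Pool.Agent.K3h31.LP.Prod
import Pool.Agent.J4.H29.SP.Level

/-! The total error of the sieve. -/

set_option autoImplicit false

namespace Pool.Agent.J4.H29.SP

open Polynomial Finset
open Pool.Agent.H474R2.PG
open Pool.Agent.TH926.EH
open Pool.Agent.Y882.EHF

/-- the error of the sieve at the modulus `d` -/
noncomputable def er (F : ℤ[X]) (m : ℕ) (M : ℤ) (x R d : ℕ) : ℝ :=
  (((JJ m M x R).filter (fun n : ℕ => (d : ℤ) ∣ F.eval (n : ℤ))).card : ℝ) -
    pc x / (Nat.totient (m * d) : ℝ) * (rtc F m M d).card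

theorem er_le (F : ℤ[X]) (m : ℕ) (hm : 1 ≤ m) (M : ℤ) (x R d : ℕ) (hd : 1 ≤ d)
    (hx : (x : ℤ) + m ≤ M) (hR : M ≤ R) :
    |er F m M x R d| ≤ ∑ a ∈ rtc F m M d,
      |(((Cl m M x (m * d) a).card : ℕ) : ℝ) - pc x / (Nat.totient (m * d) : ℝ)| +
      d.primeFactors.card := by
  classical
  have h1 := count_J F m hm M x R d hd hx hR
  have h2 := noncop F m hm M x d hd
  have hsub : rtc F m M d ⊆ rts F d := filter_subset _ _
  rw [← sum_sdiff hsub] at h1
  set A := ∑ a ∈ rts F d \ rtc F m M d, (Cl m M x (m * d) a).card with hA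
  have e : er F m M x R d = (A : ℝ) + ∑ a ∈ rtc F m M d,
      ((((Cl m M x (m * d) a).card : ℕ) : ℝ) - pc x / (Nat.totient (m * d) : ℝ)) := by
    unfold er
    rw [h1, sum_sub_distrib, sum_const, nsmul_eq_mul]
    push_cast
    ring
  rw [e]
  refine (abs_add_le _ _).trans ?_
  rw [abs_of_nonneg (Nat.cast_nonneg A), add_comm]
  apply add_le_add (abs_sum_le_sum_abs _ _)
  exact_mod_cast h2

/-- primes in a residue class, trivially -/
theorem Cl_triv (m : ℕ) (M : ℤ) (x q a : ℕ) (hq : 1 ≤ q) :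
    (((Cl m M x q a).card : ℕ) : ℝ) ≤ x / q + 1 := by
  have hq0 : (0 : ℝ) < q := by exact_mod_cast hq
  rcases (Cl m M x q a).eq_empty_or_nonempty with h | ⟨v, hv⟩
  · rw [h, card_empty, Nat.cast_zero]
    positivity
  · have hv' := (mem_filter.1 hv).2.2
    have hsub : Cl m M x q a ⊆ (Ioc 0 x).filter (fun p => p ≡ v [MOD q]) := by
      intro p hp
      unfold Cl at hp
      rw [mem_filter, mem_Icc] at hp
      rw [mem_filter, mem_Ioc]
      refine ⟨⟨by omega, hp.1.2⟩, ?_⟩
      apply Nat.ModEq.symm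
      rw [Nat.modEq_iff_dvd]
      have := dvd_sub hp.2.2 hv'
      have e : (p : ℤ) - (M - m * a) - ((v : ℤ) - (M - m * a)) = p - v := by ring
      rwa [e] at this
    have h1 : (((Ioc 0 x).filter (fun p => p ≡ v [MOD q])).card : ℤ) ≤ ⌊(x : ℚ) / q⌋ + 1 := by
      rw [Nat.Ioc_filter_modEq_card 0 x (by omega) v]
      apply max_le
      · have e1 : ((x : ℚ) - v) / q = (x : ℚ) / q + (((0 : ℕ) : ℚ) - v) / q := by
          push_cast
          ring
        have h3 : ⌊((x : ℚ) - v) / q⌋ ≤ ⌊(x : ℚ) / q⌋ + ⌊(((0 : ℕ) : ℚ) - v) / q⌋ + 1 := by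
          rw [e1]
          have := Int.le_floor_add_floor ((x : ℚ) / q) ((((0 : ℕ) : ℚ) - v) / q)
          linarith
        linarith
      · have : (0 : ℤ) ≤ ⌊(x : ℚ) / q⌋ := Int.floor_nonneg.2 (by positivity)
        linarith
    have h2 : ((Cl m M x q a).card : ℤ) ≤ ⌊(x : ℚ) / q⌋ + 1 :=
      le_trans (by exact_mod_cast card_le_card hsub) h1
    have h3 : ((⌊(x : ℚ) / q⌋ : ℤ) : ℚ) ≤ (x : ℚ) / q := Int.floor_le _
    have h4 : (((Cl m M x q a).card : ℕ) : ℚ) ≤ (x : ℚ) / q + 1 := by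
      have h5 : (((Cl m M x q a).card : ℤ) : ℚ) ≤ ((⌊(x : ℚ) / q⌋ + 1 : ℤ) : ℚ) := by
        exact_mod_cast h2
      push_cast at h5
      linarith
    have h5 : ((((Cl m M x q a).card : ℕ) : ℚ) : ℝ) ≤ (((x : ℚ) / q + 1 : ℚ) : ℝ) := by
      exact_mod_cast h4
    push_cast at h5
    exact h5

theorem pc_le (x : ℕ) : 0 ≤ pc x ∧ pc x ≤ x := by
  unfold pc
  refine ⟨Nat.cast_nonneg _, ?_⟩
  have : ((Icc 1 x).filter (fun p : ℕ => p.Prime)).card ≤ x := by
    refine (card_filter_le _ _).trans ?_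
    rw [Nat.card_Icc]
    omega
  exact_mod_cast this

/-- the trivial bound -/
theorem term_triv (m : ℕ) (hm : 1 ≤ m) (M : ℤ) (x d a : ℕ) (hd : 1 ≤ d) (hx : m * d ≤ x) :
    |(((Cl m M x (m * d) a).card : ℕ) : ℝ) - pc x / (Nat.totient (m * d) : ℝ)| ≤
      3 * x / (Nat.totient d : ℝ) := by
  have hmd : 1 ≤ m * d := Nat.mul_pos hm hd
  have hq0 : (0 : ℝ) < ((m * d : ℕ) : ℝ) := by exact_mod_cast hmd
  have h1 := Cl_triv m M x (m * d) a hmd
  have hφd : 1 ≤ Nat.totient d := Nat.totient_pos.2 (by omega)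
  have hφ0 : (0 : ℝ) < Nat.totient d := by exact_mod_cast hφd
  have hφ : Nat.totient d ≤ Nat.totient (m * d) :=
    Nat.le_of_dvd (Nat.totient_pos.2 (by omega)) (Nat.totient_dvd_of_dvd (Dvd.intro_left m rfl))
  have hφr : (Nat.totient d : ℝ) ≤ Nat.totient (m * d) := by exact_mod_cast hφ
  have hφm0 : (0 : ℝ) < Nat.totient (m * d) := by linarith
  have hxr : ((m * d : ℕ) : ℝ) ≤ x := by exact_mod_cast hx
  have hx0 : (0 : ℝ) < x := by linarith
  have h2 : (x : ℝ) / ((m * d : ℕ) : ℝ) ≤ x / (Nat.totient d : ℝ) := by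
    apply div_le_div_of_nonneg_left hx0.le hφ0
    have h3 : Nat.totient d ≤ m * d := (Nat.totient_le d).trans (Nat.le_mul_of_pos_left d (by omega))
    exact_mod_cast h3
  have h3 : (1 : ℝ) ≤ x / (Nat.totient d : ℝ) := by
    refine le_trans ?_ h2
    rw [le_div_iff₀ hq0]
    linarith
  have h4 : pc x / (Nat.totient (m * d) : ℝ) ≤ x / (Nat.totient d : ℝ) := by
    apply div_le_div₀ hx0.le (pc_le x).2 hφ0 hφr
  have h5 : 0 ≤ pc x / (Nat.totient (m * d) : ℝ) := div_nonneg (pc_le x).1 hφm0.le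
  have h6 : (0 : ℝ) ≤ (((Cl m M x (m * d) a).card : ℕ) : ℝ) := Nat.cast_nonneg _
  have e : 3 * (x : ℝ) / (Nat.totient d : ℝ) = x / (Nat.totient d : ℝ) + x / (Nat.totient d : ℝ) +
      x / (Nat.totient d : ℝ) := by ring
  rw [e, abs_le]
  constructor <;> linarith

lemma prod_inj (T T' : Finset ℕ) (hT : ∀ p ∈ T, p.Prime) (hT' : ∀ p ∈ T', p.Prime)
    (h : ∏ p ∈ T, p = ∏ p ∈ T', p) : T = T' := by
  rw [← Nat.primeFactors_prod hT, ← Nat.primeFactors_prod hT', h]

/-- **The total error.** -/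
theorem total_err (F : ℤ[X]) (m : ℕ) (hm : 1 ≤ m) (b : ℤ) (x Rx D R N U : ℕ) (hR : 1 ≤ R)
    (hD : 1 ≤ D)
    (hx : (x : ℤ) + m ≤ (N : ℤ) - b) (hRx : (N : ℤ) - b ≤ Rx) (hmD : m * D ≤ x)
    (hN : ((N : ℤ) - b).natAbs.Coprime m)
    (hS : ∀ j < R, S x (m * D) (fun q => N + vj F m b j q) ≤ x / Real.log x ^ U)
    (P : Finset ℕ) (hP : ∀ p ∈ P, p.Prime) (c : Finset ℕ → ℝ) (Lc : ℝ) (hLc : 0 ≤ Lc)
    (hc1 : ∀ T, |c T| ≤ Lc) (hc2 : ∀ T ⊆ P, c T ≠ 0 → ∏ p ∈ T, p ≤ D) :
    |∑ T ∈ P.powerset, c T * er F m ((N : ℤ) - b) x Rx (∏ p ∈ T, p)| ≤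
      Lc * (R * (x / Real.log x ^ U) + 3 * x / R * ∏ p ∈ P, (1 + (rho F p : ℝ) ^ 2 / ((p : ℝ) - 1)) +
        D * (2 * Real.log D)) := by
  classical
  have hDr : (1 : ℝ) ≤ D := by exact_mod_cast hD
  have hlD : 0 ≤ Real.log D := Real.log_nonneg hDr
  have hR0 : (0 : ℝ) < R := by exact_mod_cast hR
  set M := (N : ℤ) - b with hM
  set dd : Finset ℕ → ℕ := fun T => ∏ p ∈ T, p with hdd
  set 𝒯 := P.powerset.filter (fun T => dd T ≤ D) with h𝒯
  have hPT : ∀ T ∈ 𝒯, (∀ p ∈ T, p.Prime) ∧ dd T ≤ D ∧ 1 ≤ dd T ∧ T ⊆ P := by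
    intro T hT
    rw [h𝒯, mem_filter, mem_powerset] at hT
    have h1 : ∀ p ∈ T, p.Prime := fun p hp => hP p (hT.1 hp)
    exact ⟨h1, hT.2, Finset.prod_pos fun p hp => (h1 p hp).pos, hT.1⟩
  have hinj : Set.InjOn dd (𝒯 : Set (Finset ℕ)) := by
    intro T hT T' hT' h
    exact prod_inj T T' (hPT T hT).1 (hPT T' hT').1 h
  -- reduction to the sum of the absolute values
  have hred : |∑ T ∈ P.powerset, c T * er F m M x Rx (dd T)| ≤
      Lc * ∑ T ∈ 𝒯, |er F m M x Rx (dd T)| := by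
    have h1 : ∑ T ∈ P.powerset, c T * er F m M x Rx (dd T) =
        ∑ T ∈ 𝒯, c T * er F m M x Rx (dd T) := by
      symm
      apply sum_subset (filter_subset _ _)
      intro T hT hT'
      rw [mem_filter, not_and] at hT'
      have : c T = 0 := by
        by_contra h
        exact hT' hT (hc2 T (mem_powerset.1 hT) h)
      rw [this, zero_mul]
    rw [h1, mul_sum]
    refine (abs_sum_le_sum_abs _ _).trans (sum_le_sum fun T _ => ?_)
    rw [abs_mul]
    exact mul_le_mul_of_nonneg_right (hc1 T) (abs_nonneg _)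
  refine hred.trans (mul_le_mul_of_nonneg_left ?_ hLc)
  -- the three parts
  set f : ℕ → ℝ := fun d => ∑ a ∈ rtc F m M d,
      |(((Cl m M x (m * d) a).card : ℕ) : ℝ) - pc x / (Nat.totient (m * d) : ℝ)| with hf
  have hf0 : ∀ d, 0 ≤ f d := fun d => sum_nonneg fun _ _ => abs_nonneg _
  have hsplit : ∑ T ∈ 𝒯, |er F m M x Rx (dd T)| ≤ ∑ T ∈ 𝒯, f (dd T) + ∑ T ∈ 𝒯, (T.card : ℝ) := by
    rw [← sum_add_distrib]
    apply sum_le_sum
    intro T hT
    obtain ⟨h1, h2, h3, h4⟩ := hPT T hT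
    have h5 := er_le F m hm M x Rx (dd T) h3 hx hRx
    rw [Nat.primeFactors_prod h1] at h5
    exact h5
  have hpart3 : ∑ T ∈ 𝒯, (T.card : ℝ) ≤ D * (2 * Real.log D) := by
    have h1 : ∀ T ∈ 𝒯, (T.card : ℝ) ≤ 2 * Real.log D := by
      intro T hT
      obtain ⟨h1, h2, h3, h4⟩ := hPT T hT
      have h5 : 2 ^ T.card ≤ dd T := by
        have := Finset.prod_le_prod' (s := T) (f := fun _ => 2) (g := fun p => p)
          (fun p hp => (h1 p hp).two_le)
        rwa [prod_const] at this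
      have h6 : (2 : ℝ) ^ T.card ≤ D := by
        exact_mod_cast h5.trans h2
      have h7 := Real.log_le_log (by positivity) h6
      rw [Real.log_pow] at h7
      have h8 : (0.69 : ℝ) < Real.log 2 := by linarith [Real.log_two_gt_d9]
      have h9 : (T.card : ℝ) * 0.69 ≤ T.card * Real.log 2 :=
        mul_le_mul_of_nonneg_left h8.le (Nat.cast_nonneg _)
      linarith
    calc ∑ T ∈ 𝒯, (T.card : ℝ) ≤ ∑ _T ∈ 𝒯, 2 * Real.log D := sum_le_sum h1
      _ = 𝒯.card * (2 * Real.log D) := by rw [sum_const, nsmul_eq_mul]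
      _ ≤ D * (2 * Real.log D) := by
          apply mul_le_mul_of_nonneg_right _ (by positivity)
          have h2 : 𝒯.card ≤ (Icc 1 D).card := by
            apply card_le_card_of_injOn dd _ hinj
            intro T hT
            obtain ⟨h1, h2, h3, h4⟩ := hPT T hT
            rw [mem_coe, mem_Icc]
            exact ⟨h3, h2⟩
          rw [Nat.card_Icc, Nat.add_sub_cancel] at h2
          exact_mod_cast h2
  have hpart1 : ∑ T ∈ 𝒯.filter (fun T => (rts F (dd T)).card ≤ R), f (dd T) ≤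
      R * (x / Real.log x ^ U) := by
    refine le_trans ?_ (sum_few F m hm b x D R N U hN hS)
    have h1 : ∑ T ∈ 𝒯.filter (fun T => (rts F (dd T)).card ≤ R), f (dd T) =
        ∑ d ∈ (𝒯.filter (fun T => (rts F (dd T)).card ≤ R)).image dd, f d := by
      rw [sum_image]
      intro T hT T' hT' h
      exact hinj (mem_filter.1 hT).1 (mem_filter.1 hT').1 h
    rw [h1]
    apply sum_le_sum_of_subset_of_nonneg
    · intro d hd
      rw [mem_image] at hd
      obtain ⟨T, hT, rfl⟩ := hd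
      rw [mem_filter] at hT
      obtain ⟨h1, h2, h3, h4⟩ := hPT T hT.1
      rw [mem_filter, mem_Icc]
      exact ⟨⟨h3, h2⟩, hT.2⟩
    · intro d _ _
      exact hf0 d
  have hpart2 : ∑ T ∈ 𝒯.filter (fun T => ¬ (rts F (dd T)).card ≤ R), f (dd T) ≤
      3 * x / R * ∏ p ∈ P, (1 + (rho F p : ℝ) ^ 2 / ((p : ℝ) - 1)) := by
    have h1 : ∀ T ∈ 𝒯.filter (fun T => ¬ (rts F (dd T)).card ≤ R), f (dd T) ≤
        3 * x / R * ∏ p ∈ T, ((rho F p : ℝ) ^ 2 / ((p : ℝ) - 1)) := by
      intro T hT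
      rw [mem_filter, not_le] at hT
      obtain ⟨h1, h2, h3, h4⟩ := hPT T hT.1
      have hρ : ((rts F (dd T)).card : ℝ) = ∏ p ∈ T, (rho F p : ℝ) := by
        have := rts_card F T h1
        rw [this]
        push_cast
        rfl
      have hφ : (Nat.totient (dd T) : ℝ) = ∏ p ∈ T, ((p : ℝ) - 1) := by
        have e : Nat.totient (dd T) = ∏ p ∈ T, (p - 1) := by
          have h5 : ∀ (s : Finset ℕ), (∀ p ∈ s, p.Prime) →
              Nat.totient (∏ p ∈ s, p) = ∏ p ∈ s, (p - 1) := by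
            intro s
            induction s using Finset.induction_on with
            | empty => intro _; simp
            | insert q s hq ih =>
              intro hs
              have hs' : ∀ p ∈ s, p.Prime := fun p hp => hs p (mem_insert_of_mem hp)
              rw [prod_insert hq, prod_insert hq, Nat.totient_mul, ih hs',
                Nat.totient_prime (hs q (mem_insert_self _ _))]
              apply Nat.Coprime.prod_right
              intro p hp
              rw [Nat.coprime_primes (hs q (mem_insert_self _ _)) (hs' p hp)]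
              rintro rfl
              exact hq hp
          exact h5 T h1
        rw [e]
        push_cast
        apply prod_congr rfl
        intro p hp
        rw [Nat.cast_sub (h1 p hp).one_le, Nat.cast_one]
      have hφ0 : (0 : ℝ) < Nat.totient (dd T) := by
        have : 0 < Nat.totient (dd T) := Nat.totient_pos.2 (by omega)
        exact_mod_cast this
      have hmdx : m * dd T ≤ x := (Nat.mul_le_mul_left m h2).trans hmD
      have h5 : f (dd T) ≤ (rts F (dd T)).card * (3 * x / (Nat.totient (dd T) : ℝ)) := by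
        calc f (dd T) ≤ ∑ _a ∈ rtc F m M (dd T), 3 * (x : ℝ) / (Nat.totient (dd T) : ℝ) :=
              sum_le_sum fun a _ => term_triv m hm M x (dd T) a h3 hmdx
          _ = (rtc F m M (dd T)).card * (3 * x / (Nat.totient (dd T) : ℝ)) := by
              rw [sum_const, nsmul_eq_mul]
          _ ≤ _ := by
              apply mul_le_mul_of_nonneg_right _ (by positivity)
              have : (rtc F m M (dd T)).card ≤ (rts F (dd T)).card := card_le_card (filter_subset _ _)
              exact_mod_cast this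
      have hRρ : (R : ℝ) ≤ (rts F (dd T)).card := by exact_mod_cast hT.2.le
      calc f (dd T) ≤ (rts F (dd T)).card * (3 * x / (Nat.totient (dd T) : ℝ)) := h5
        _ ≤ ((rts F (dd T)).card * ((rts F (dd T)).card / R)) *
            (3 * x / (Nat.totient (dd T) : ℝ)) := by
            apply mul_le_mul_of_nonneg_right _ (by positivity)
            apply le_mul_of_one_le_right (Nat.cast_nonneg _)
            rw [le_div_iff₀ hR0, one_mul]
            exact hRρ
        _ = 3 * x / R * ((rts F (dd T)).card ^ 2 / (Nat.totient (dd T) : ℝ)) := by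
            ring
        _ = _ := by
            rw [hρ, hφ, ← prod_pow, ← prod_div_distrib]
    calc ∑ T ∈ 𝒯.filter (fun T => ¬ (rts F (dd T)).card ≤ R), f (dd T) ≤
        ∑ T ∈ 𝒯.filter (fun T => ¬ (rts F (dd T)).card ≤ R),
          3 * (x : ℝ) / R * ∏ p ∈ T, ((rho F p : ℝ) ^ 2 / ((p : ℝ) - 1)) := sum_le_sum h1
      _ ≤ ∑ T ∈ P.powerset, 3 * (x : ℝ) / R * ∏ p ∈ T, ((rho F p : ℝ) ^ 2 / ((p : ℝ) - 1)) := by
          apply sum_le_sum_of_subset_of_nonneg
          · exact (filter_subset _ _).trans (filter_subset _ _)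
          · intro T hT _
            rw [mem_powerset] at hT
            apply mul_nonneg (by positivity)
            apply prod_nonneg
            intro p hp
            have : (2 : ℝ) ≤ p := by exact_mod_cast (hP p (hT hp)).two_le
            apply div_nonneg (by positivity)
            linarith
      _ = _ := by
          rw [← mul_sum, prod_one_add]
  have htot : ∑ T ∈ 𝒯, f (dd T) = ∑ T ∈ 𝒯.filter (fun T => (rts F (dd T)).card ≤ R), f (dd T) +
      ∑ T ∈ 𝒯.filter (fun T => ¬ (rts F (dd T)).card ≤ R), f (dd T) :=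
    (sum_filter_add_sum_filter_not _ _ _).symm
  linarith

end Pool.Agent.J4.H29.SP
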