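import Pool.Agent.J4.H29.SP.Main
import Pool.Agent.Y882.Cum

/-! The singular series and the cumulative statement. -/

set_option autoImplicit false

namespace Pool.Agent.J4.H29.SP

open Polynomial Finset Filter Topology
open Pool.Agent.H474R2.PG
open Pool.Agent.W23.DC
open Pool.Agent.Y882
open Pool.Agent.K3h31.LP (log_pow_le)
open Pool.Agent.K3h19.RV (Lam)

/-- partial product of the singular series -/
noncomputable def sg (F : ℤ[X]) (m : ℕ) (M : ℤ) (N : ℕ) : ℝ :=
  ∏ p ∈ (Icc 1 N).filter Nat.Prime, (1 - (om F m M p : ℝ) / p) * ((1 - 1 / (p : ℝ))⁻¹) ^ 2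

/-- upper bound for `∏ (1 - 1 / p)` over the primes `p < Z ^ ε` -/
theorem prod_PZ_up (ε : ℝ) (hε : 0 < ε) (hε1 : ε ≤ 1) : ∃ C : ℝ, 0 < C ∧ ∃ Z0 : ℕ, ∀ Z : ℕ, Z0 ≤ Z →
    ∏ p ∈ PZ Z ε, (1 - 1 / (p : ℝ)) ≤ C / Real.log Z := by
  obtain ⟨C, hC⟩ := Pool.Agent.Helper256.KM.mertens_inv
  have ev1 : ∀ᶠ Z : ℕ in atTop, (6 : ℝ) ≤ (Z : ℝ) ^ (ε / 2) :=
    ((tendsto_rpow_atTop (by linarith)).comp tendsto_natCast_atTop_atTop).eventually_ge_atTop _
  obtain ⟨Z0, hZ0⟩ := eventually_atTop.1 (ev1.and (eventually_ge_atTop 3))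
  refine ⟨Real.exp C * (2 / ε), by positivity, Z0, fun Z hZ => ?_⟩
  obtain ⟨e1, e2⟩ := hZ0 Z hZ
  have hZr : (3 : ℝ) ≤ Z := by exact_mod_cast e2
  have hZp : (0 : ℝ) < Z := by linarith
  have hlZ : 0 < Real.log Z := Real.log_pos (by linarith)
  have hsq : (Z : ℝ) ^ ε = (Z : ℝ) ^ (ε / 2) * (Z : ℝ) ^ (ε / 2) := by
    rw [← Real.rpow_add hZp]
    congr 1
    ring
  set w : ℕ := ⌈(Z : ℝ) ^ (ε / 2)⌉₊ with hw
  have hw1 : (Z : ℝ) ^ (ε / 2) ≤ w := Nat.le_ceil _
  have hw2 : (w : ℝ) < (Z : ℝ) ^ (ε / 2) + 1 := Nat.ceil_lt_add_one (by positivity)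
  have hw3 : (w : ℝ) < (Z : ℝ) ^ ε := by
    rw [hsq]
    nlinarith
  have hwn : 3 ≤ w := by
    have : (3 : ℝ) ≤ w := by linarith
    exact_mod_cast this
  have hsub : (Icc 1 w).filter Nat.Prime ⊆ PZ Z ε := by
    intro p hp
    rw [mem_filter, mem_Icc] at hp
    have hpw : (p : ℝ) ≤ w := by exact_mod_cast hp.1.2
    have h5 : (Z : ℝ) ^ ε ≤ Z := by
      calc (Z : ℝ) ^ ε ≤ (Z : ℝ) ^ (1 : ℝ) := Real.rpow_le_rpow_of_exponent_le (by linarith) hε1
        _ = Z := Real.rpow_one _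
    unfold PZ
    rw [mem_filter, mem_Icc]
    refine ⟨⟨hp.1.1, ?_⟩, hp.2, (tt_lt' Z p ε (by omega) (by omega)).2 (by linarith)⟩
    have : (p : ℝ) ≤ Z := by linarith
    exact_mod_cast this
  have h1 : Real.log (Real.log w) - C ≤ ∑ p ∈ PZ Z ε, 1 / (p : ℝ) := by
    have h2 := (abs_le.1 (hC w hwn)).1
    have h3 : ∑ p ∈ (Icc 1 w).filter Nat.Prime, 1 / (p : ℝ) ≤ ∑ p ∈ PZ Z ε, 1 / (p : ℝ) :=
      sum_le_sum_of_subset_of_nonneg hsub fun p _ _ => by positivity
    linarith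
  have hlw : ε / 2 * Real.log Z ≤ Real.log w := by
    rw [← Real.log_rpow hZp]
    exact Real.log_le_log (by positivity) hw1
  have hlw0 : 0 < ε / 2 * Real.log Z := by positivity
  have h2 : Real.log (ε / 2 * Real.log Z) ≤ Real.log (Real.log w) := Real.log_le_log hlw0 hlw
  calc ∏ p ∈ PZ Z ε, (1 - 1 / (p : ℝ)) ≤ ∏ p ∈ PZ Z ε, Real.exp (-(1 / (p : ℝ))) := by
        apply Finset.prod_le_prod
        · intro p hp
          have : (2 : ℝ) ≤ p := by exact_mod_cast (PZ_facts hp).1.two_le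
          rw [sub_nonneg, div_le_one (by linarith)]
          linarith
        · intro p _
          have := Real.add_one_le_exp (-(1 / (p : ℝ)))
          linarith
    _ = Real.exp (-∑ p ∈ PZ Z ε, 1 / (p : ℝ)) := by rw [← Real.exp_sum, sum_neg_distrib]
    _ ≤ Real.exp (C - Real.log (ε / 2 * Real.log Z)) := Real.exp_le_exp.2 (by linarith)
    _ = Real.exp C * (2 / ε) / Real.log Z := by
        rw [Real.exp_sub, Real.exp_log hlw0]
        field_simp

theorem fac_nonneg (F : ℤ[X]) (m : ℕ) (M : ℤ) {p : ℕ} (hp : p.Prime) :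
    0 ≤ 1 - (om F m M p : ℝ) / p ∧ 1 - (om F m M p : ℝ) / p ≤ 1 := by
  have hp0 : (0 : ℝ) < p := by exact_mod_cast hp.pos
  have h1 : (om F m M p : ℝ) ≤ p := by
    have : om F m M p ≤ p := by
      unfold om
      exact (card_filter_le _ _).trans (by rw [card_range])
    exact_mod_cast this
  constructor
  · rw [sub_nonneg, div_le_one hp0]
    exact h1
  · have : 0 ≤ (om F m M p : ℝ) / p := by positivity
    linarith

/-- comparison of the singular series with the product of the sieve -/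
theorem sg_le (F : ℤ[X]) (hd : 0 < F.natDegree) (m : ℕ) (hm : 1 ≤ m) (ε₁ : ℝ) (hε : 0 < ε₁)
    (hε1 : (F.natDegree : ℝ) * ε₁ ≤ 1 / 4) :
    ∃ C : ℝ, 0 < C ∧ ∃ Y0 : ℕ, ∀ Y : ℕ, Y0 ≤ Y → ∀ M : ℤ, (∀ p : ℕ, p.Prime → Adm F m M p) →
      ∀ N : ℕ, Y < N → N ≤ 2 * Y →
      sg F m M N ≤ C * Real.log N * ∏ p ∈ PZ (Y ^ F.natDegree) ε₁, (1 - dens F m M p) := by
  classical
  set h := F.natDegree with hh
  have hhr : (1 : ℝ) ≤ h := by exact_mod_cast hd
  have hε11 : ε₁ ≤ 1 := by nlinarith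
  obtain ⟨C1, hC1, Z0, HZ⟩ := prod_PZ_up ε₁ hε hε11
  obtain ⟨c, hc, HL⟩ := Pool.Agent.K3h31.LP.prod_low
  refine ⟨2 * C1 * 2 ^ m / c ^ 2, by positivity, max Z0 3, fun Y hY M hadm N hN1 hN2 => ?_⟩
  have hY3 : 3 ≤ Y := (le_max_right _ _).trans hY
  have hYr : (3 : ℝ) ≤ Y := by exact_mod_cast hY3
  have hY0 : (0 : ℝ) < Y := by linarith
  have hYZ : Y ≤ Y ^ h := by
    calc Y = Y ^ 1 := (pow_one Y).symm
      _ ≤ Y ^ h := Nat.pow_le_pow_right (by omega) hd
  set Z := Y ^ h with hZ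
  have hZ1 := HZ Z (((le_max_left _ _).trans hY).trans hYZ)
  have hNr : (Y : ℝ) < N := by exact_mod_cast hN1
  have hlY : 0 < Real.log Y := Real.log_pos (by linarith)
  have hlYN : Real.log Y ≤ Real.log N := Real.log_le_log hY0 hNr.le
  have hlN2 : Real.log N ≤ 2 * Real.log Y := by
    have h1 : (N : ℝ) ≤ (Y : ℝ) ^ 2 := by
      have h2 : (N : ℝ) ≤ 2 * Y := by exact_mod_cast hN2
      nlinarith
    have h3 := Real.log_le_log (by linarith) h1
    rw [Real.log_pow] at h3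
    exact_mod_cast h3
  have hlZ : Real.log Z = h * Real.log Y := by rw [hZ]; push_cast; rw [Real.log_pow]
  set P := (Icc 1 N).filter Nat.Prime with hP
  set A := PZ Z ε₁ with hA
  have hAP : A ⊆ P := by
    intro p hp
    obtain ⟨h1, h2, h3⟩ := PZ_facts hp
    have h4 := (tt_lt' Z p ε₁ (by omega) h1.pos).1 h3
    have h5 : (Z : ℝ) ^ ε₁ ≤ Y := by
      rw [hZ]
      push_cast
      rw [← Real.rpow_natCast, ← Real.rpow_mul hY0.le]
      calc (Y : ℝ) ^ ((h : ℝ) * ε₁) ≤ (Y : ℝ) ^ (1 : ℝ) :=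
            Real.rpow_le_rpow_of_exponent_le (by linarith) (by linarith)
        _ = Y := Real.rpow_one _
    rw [hP, mem_filter, mem_Icc]
    refine ⟨⟨h1.one_le, ?_⟩, h1⟩
    have : (p : ℝ) ≤ N := by linarith
    exact_mod_cast this
  -- the factors
  have hfac : ∀ p : ℕ, p.Prime → 0 < 1 - 1 / (p : ℝ) := by
    intro p hp
    have : (2 : ℝ) ≤ p := by exact_mod_cast hp.two_le
    rw [sub_pos, div_lt_one (by linarith)]
    linarith
  have h1 : sg F m M N = (∏ p ∈ P, (1 - (om F m M p : ℝ) / p)) * ((∏ p ∈ P, (1 - 1 / (p : ℝ)))⁻¹) ^ 2 := by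
    unfold sg
    rw [prod_mul_distrib, prod_pow, prod_inv_distrib]
  have h2 : ∏ p ∈ P, (1 - (om F m M p : ℝ) / p) ≤ ∏ p ∈ A, (1 - (om F m M p : ℝ) / p) := by
    rw [← prod_sdiff hAP]
    apply mul_le_of_le_one_left
    · exact prod_nonneg fun p hp => (fac_nonneg F m M (PZ_facts hp).1).1
    · apply prod_le_one
      · intro p hp
        rw [Finset.mem_sdiff, hP, mem_filter] at hp
        exact (fac_nonneg F m M hp.1.2).1
      · intro p hp
        rw [Finset.mem_sdiff, hP, mem_filter] at hp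
        exact (fac_nonneg F m M hp.1.2).2
  have h3 : ∏ p ∈ A, (1 - (om F m M p : ℝ) / p) ≤
      (∏ p ∈ A, (1 - dens F m M p)) * (∏ p ∈ A, (1 - 1 / (p : ℝ))) * 2 ^ m := by
    have h4 : ∀ p ∈ A, 1 - (om F m M p : ℝ) / p =
        (1 - dens F m M p) * (1 - 1 / (p : ℝ)) * (if p ∣ m then 1 / (1 - 1 / (p : ℝ)) else 1) := by
      intro p hp
      have hp1 := (PZ_facts hp).1
      have h5 := om_dens hp1 (hadm p hp1)
      have h6 := (hfac p hp1).ne'
      rw [div_eq_iff h6] at h5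
      rw [h5]
      ring
    rw [prod_congr rfl h4, prod_mul_distrib, prod_mul_distrib]
    apply mul_le_mul_of_nonneg_left
    · calc ∏ p ∈ A, (if p ∣ m then 1 / (1 - 1 / (p : ℝ)) else 1) ≤
          ∏ p ∈ A, (if p ∣ m then (2 : ℝ) else 1) := by
            apply Finset.prod_le_prod
            · intro p hp
              have := hfac p (PZ_facts hp).1
              split_ifs <;> positivity
            · intro p hp
              have h7 : (2 : ℝ) ≤ p := by exact_mod_cast (PZ_facts hp).1.two_le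
              have h8 := hfac p (PZ_facts hp).1
              split_ifs
              · rw [div_le_iff₀ h8]
                have : 1 / (p : ℝ) ≤ 1 / 2 := one_div_le_one_div_of_le (by norm_num) h7
                linarith
              · exact le_refl _
        _ = 2 ^ (A.filter (fun p => p ∣ m)).card := by
            rw [← prod_filter, prod_const]
        _ ≤ 2 ^ m := by
            apply pow_le_pow_right₀ (by norm_num)
            have h9 : A.filter (fun p => p ∣ m) ⊆ Icc 1 m := by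
              intro p hp
              rw [mem_filter] at hp
              rw [mem_Icc]
              exact ⟨(PZ_facts hp.1).1.one_le, Nat.le_of_dvd (by omega) hp.2⟩
            have := card_le_card h9
            rwa [Nat.card_Icc, Nat.add_sub_cancel] at this
    · apply mul_nonneg
      · apply prod_nonneg
        intro p hp
        have hp1 := (PZ_facts hp).1
        have h7 := dens_le hp1 (hadm p hp1)
        have : (0 : ℝ) ≤ 1 / p := by positivity
        linarith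
      · exact prod_nonneg fun p hp => (hfac p (PZ_facts hp).1).le
  have hWnn : 0 ≤ ∏ p ∈ A, (1 - dens F m M p) := by
    apply prod_nonneg
    intro p hp
    have hp1 := (PZ_facts hp).1
    have h7 := dens_le hp1 (hadm p hp1)
    have : (0 : ℝ) ≤ 1 / p := by positivity
    linarith
  have h4 : (∏ p ∈ P, (1 - 1 / (p : ℝ)))⁻¹ ≤ Real.log N / c := by
    have h5 := HL N (by omega) P (Finset.Subset.refl _)
    have hlN : 0 < Real.log N := by linarith
    rw [inv_le_comm₀ (prod_pos fun p hp => hfac p (mem_filter.1 hp).2) (by positivity), inv_div]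
    exact h5
  have h4' : 0 ≤ (∏ p ∈ P, (1 - 1 / (p : ℝ)))⁻¹ :=
    inv_nonneg.2 (prod_nonneg fun p hp => (hfac p (mem_filter.1 hp).2).le)
  have h5 : (∏ p ∈ A, (1 - 1 / (p : ℝ))) ≤ 2 * C1 / Real.log N := by
    refine hZ1.trans ?_
    rw [hlZ, div_le_div_iff₀ (by positivity) (by linarith)]
    have h6 : Real.log N ≤ 2 * (h * Real.log Y) := by nlinarith
    calc C1 * Real.log N ≤ C1 * (2 * (h * Real.log Y)) := mul_le_mul_of_nonneg_left h6 hC1.le
      _ = _ := by ring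
  have h5' : 0 ≤ ∏ p ∈ A, (1 - 1 / (p : ℝ)) := prod_nonneg fun p hp => (hfac p (PZ_facts hp).1).le
  have hlN : 0 < Real.log N := by linarith
  rw [h1]
  calc (∏ p ∈ P, (1 - (om F m M p : ℝ) / p)) * ((∏ p ∈ P, (1 - 1 / (p : ℝ)))⁻¹) ^ 2 ≤
      ((∏ p ∈ A, (1 - dens F m M p)) * (2 * C1 / Real.log N) * 2 ^ m) * (Real.log N / c) ^ 2 := by
        apply mul_le_mul _ (pow_le_pow_left₀ h4' h4 2) (by positivity) (by positivity)
        refine (h2.trans h3).trans ?_
        apply mul_le_mul_of_nonneg_right _ (by positivity)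
        exact mul_le_mul_of_nonneg_left h5 hWnn
    _ = _ := by
        field_simp

end Pool.Agent.J4.H29.SP
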