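import Pool.Agent.J4.H29.SP.Fin
import Pool.Agent.H474R2.GE.FA

/-! The cumulative statement. -/

set_option autoImplicit false

namespace Pool.Agent.J4.H29.SP

open Polynomial Finset Filter Topology
open Pool.Agent.H474R2.PG
open Pool.Agent.W23.DC
open Pool.Agent.Y882
open Pool.Agent.K3h31.LP (log_pow_le sum_inv_sq)
open Pool.Agent.K3h19.RV (Lam)

/-- `1 - u ≥ exp (- u - u ^ 2)` for `0 ≤ u ≤ 1 / 2` -/
theorem one_sub_ge (u : ℝ) (hu0 : 0 ≤ u) (hu : u ≤ 1 / 2) : Real.exp (-(u + 2 * u ^ 2)) ≤ 1 - u := by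
  have h4 : 0 < 1 - u := by linarith
  have h5 := Real.one_sub_inv_le_log_of_pos h4
  have h6 : -(u + 2 * u ^ 2) ≤ 1 - (1 - u)⁻¹ := by
    have e : 1 - (1 - u)⁻¹ = -(u / (1 - u)) := by
      field_simp
      ring
    rw [e, neg_le_neg_iff, div_le_iff₀ h4]
    nlinarith [mul_nonneg hu0 hu0, mul_nonneg (mul_nonneg hu0 hu0) (sub_nonneg.2 hu)]
  calc Real.exp (-(u + 2 * u ^ 2)) ≤ Real.exp (Real.log (1 - u)) := Real.exp_le_exp.2 (h6.trans h5)
    _ = 1 - u := Real.exp_log h4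

/-- the singular series is bounded below -/
theorem sg_low (F : ℤ[X]) (hF : Irreducible F) (hd : 0 < F.natDegree) (m : ℕ) (hm : 1 ≤ m) :
    ∃ c : ℝ, 0 < c ∧ ∀ M : ℤ, (∀ p : ℕ, p.Prime → Adm F m M p) → ∀ N : ℕ, 3 ≤ N →
      c ≤ sg F m M N := by
  classical
  obtain ⟨K, hK1, hK⟩ := rho_bound F hF.ne_zero
  have hKr : (1 : ℝ) ≤ K := by exact_mod_cast hK1
  obtain ⟨C1, hC10, hC1⟩ := Pool.Agent.H474R2.GE.mertens_rho F hF hd
  obtain ⟨C2, hC2⟩ := Pool.Agent.Helper256.KM.mertens_inv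
  set P0 : ℕ := 2 * K + m + 2 with hP0
  have hP0r : (2 : ℝ) ≤ P0 := by
    have : 2 ≤ P0 := by omega
    exact_mod_cast this
  have hlP0 : 0 ≤ Real.log P0 := Real.log_natCast_nonneg _
  set g : ℝ := Real.log P0 + 1 with hg
  have hg0 : 0 ≤ g := by linarith
  set C3 : ℝ := 10 * (K : ℝ) ^ 2 with hC3
  refine ⟨Real.exp (-(P0 * g + C1 + C2 + C3)), Real.exp_pos _, fun M hadm N hN => ?_⟩
  have hfac : ∀ p : ℕ, p.Prime → 0 < 1 - 1 / (p : ℝ) := by
    intro p hp
    have : (2 : ℝ) ≤ p := by exact_mod_cast hp.two_le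
    rw [sub_pos, div_lt_one (by linarith)]
    linarith
  set P := (Icc 1 N).filter Nat.Prime with hP
  have hterm : ∀ p ∈ P, Real.exp ((1 / (p : ℝ) - (rho F p : ℝ) / p) - C3 * (1 / (p : ℝ) ^ 2) -
      (if p ≤ P0 then g else 0)) ≤ (1 - (om F m M p : ℝ) / p) * ((1 - 1 / (p : ℝ))⁻¹) ^ 2 := by
    intro p hp
    have hpp : p.Prime := (mem_filter.1 hp).2
    have hp2 : (2 : ℝ) ≤ p := by exact_mod_cast hpp.two_le
    have hp0 : (0 : ℝ) < p := by linarith
    have h1 := om_dens hpp (hadm p hpp)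
    have h2 := hfac p hpp
    have h3 := dens_le hpp (hadm p hpp)
    have h4 := dens_nonneg (F := F) (m := m) (M := M) hpp
    have hinv : 1 ≤ (1 - 1 / (p : ℝ))⁻¹ := by
      rw [one_le_inv₀ h2]
      have : 0 ≤ 1 / (p : ℝ) := by positivity
      linarith
    have e : (1 - (om F m M p : ℝ) / p) * ((1 - 1 / (p : ℝ))⁻¹) ^ 2 =
        ((1 - (om F m M p : ℝ) / p) / (1 - 1 / (p : ℝ))) * (1 - 1 / (p : ℝ))⁻¹ := by
      field_simp
    have hpinv : 0 < 1 / (p : ℝ) := by positivity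
    have hd0 : 0 < 1 - dens F m M p := by linarith
    have h5 : (1 - dens F m M p) * (1 - 1 / (p : ℝ))⁻¹ ≤
        (1 - (om F m M p : ℝ) / p) * ((1 - 1 / (p : ℝ))⁻¹) ^ 2 := by
      rw [e, h1]
      apply mul_le_mul_of_nonneg_right _ (by positivity)
      apply le_mul_of_one_le_right hd0.le
      split_ifs
      · rw [one_div (1 - 1 / (p : ℝ))]
        exact hinv
      · exact le_refl _
    refine le_trans ?_ h5
    have hρ0 : (0 : ℝ) ≤ (rho F p : ℝ) / p := by positivity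
    have hC30 : 0 ≤ C3 * (1 / (p : ℝ) ^ 2) := by positivity
    split_ifs with hpP
    · -- small primes
      have h6 : Real.exp ((1 / (p : ℝ) - (rho F p : ℝ) / p) - C3 * (1 / (p : ℝ) ^ 2) - g) ≤ 1 / P0 := by
        have h7 : (1 / (p : ℝ) - (rho F p : ℝ) / p) - C3 * (1 / (p : ℝ) ^ 2) - g ≤ -Real.log P0 := by
          have : 1 / (p : ℝ) ≤ 1 := by rw [div_le_one hp0]; linarith
          rw [hg]
          linarith
        calc _ ≤ Real.exp (-Real.log P0) := Real.exp_le_exp.2 h7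
          _ = 1 / P0 := by rw [Real.exp_neg, Real.exp_log (by linarith), one_div]
      refine h6.trans ?_
      have h8 : 1 / (P0 : ℝ) ≤ 1 / p := by
        apply one_div_le_one_div_of_le hp0
        exact_mod_cast hpP
      have h9 : 1 / (p : ℝ) ≤ 1 - dens F m M p := by linarith
      calc 1 / (P0 : ℝ) ≤ 1 - dens F m M p := h8.trans h9
        _ ≤ _ := le_mul_of_one_le_right hd0.le hinv
    · -- large primes
      rw [sub_zero]
      have hpP' : P0 < p := not_le.1 hpP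
      have hpm : ¬ p ∣ m := by
        intro h
        have := Nat.le_of_dvd (by omega) h
        omega
      have hρK : (rho F p : ℝ) ≤ K := by exact_mod_cast hK p hpp
      have h6 := dens_le_of_not_dvd (F := F) (m := m) (M := M) hpp hpm (rho F p : ℝ) le_rfl
      have hpK : 2 * (K : ℝ) + 2 ≤ p := by
        have : 2 * K + 2 ≤ p := by omega
        exact_mod_cast this
      have hp1 : 0 < (p : ℝ) - 1 := by linarith
      have hu2 : (rho F p : ℝ) / ((p : ℝ) - 1) ≤ 1 / 2 := by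
        rw [div_le_div_iff₀ hp1 (by norm_num)]
        linarith
      have hρn : (0 : ℝ) ≤ rho F p := Nat.cast_nonneg _
      have hu0 : 0 ≤ (rho F p : ℝ) / ((p : ℝ) - 1) := by positivity
      have h7 := one_sub_ge _ hu0 hu2
      have h8 : (rho F p : ℝ) / ((p : ℝ) - 1) + 2 * ((rho F p : ℝ) / ((p : ℝ) - 1)) ^ 2 ≤
          (rho F p : ℝ) / p + C3 * (1 / (p : ℝ) ^ 2) := by
        have e1 : (rho F p : ℝ) / ((p : ℝ) - 1) = (rho F p : ℝ) / p +
            (rho F p : ℝ) * (1 / ((p : ℝ) * (p - 1))) := by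
          field_simp
          ring
        have e2 : 1 / ((p : ℝ) * (p - 1)) ≤ 2 * (1 / (p : ℝ) ^ 2) := by
          rw [mul_one_div, div_le_div_iff₀ (by positivity) (by positivity)]
          nlinarith
        have e3 : (rho F p : ℝ) / ((p : ℝ) - 1) ≤ 2 * K / p := by
          rw [div_le_div_iff₀ hp1 hp0]
          nlinarith
        have e4 : ((rho F p : ℝ) / ((p : ℝ) - 1)) ^ 2 ≤ 4 * (K : ℝ) ^ 2 * (1 / (p : ℝ) ^ 2) := by
          calc ((rho F p : ℝ) / ((p : ℝ) - 1)) ^ 2 ≤ (2 * K / p) ^ 2 := pow_le_pow_left₀ hu0 e3 2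
            _ = _ := by field_simp; ring
        have e5 : (rho F p : ℝ) * (1 / ((p : ℝ) * (p - 1))) ≤ 2 * (K : ℝ) ^ 2 * (1 / (p : ℝ) ^ 2) := by
          calc (rho F p : ℝ) * (1 / ((p : ℝ) * (p - 1))) ≤ K * (2 * (1 / (p : ℝ) ^ 2)) :=
                mul_le_mul hρK e2 (by positivity) (by linarith)
            _ ≤ (K : ℝ) ^ 2 * (2 * (1 / (p : ℝ) ^ 2)) := by
                apply mul_le_mul_of_nonneg_right _ (by positivity)
                nlinarith
            _ = _ := by ring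
        rw [hC3]
        linarith
      have h9 : Real.exp (1 / (p : ℝ)) ≤ (1 - 1 / (p : ℝ))⁻¹ := by
        rw [le_inv_comm₀ (Real.exp_pos _) h2, ← Real.exp_neg]
        have := Real.add_one_le_exp (-(1 / (p : ℝ)))
        linarith
      calc Real.exp ((1 / (p : ℝ) - (rho F p : ℝ) / p) - C3 * (1 / (p : ℝ) ^ 2)) =
          Real.exp (-((rho F p : ℝ) / p + C3 * (1 / (p : ℝ) ^ 2))) * Real.exp (1 / (p : ℝ)) := by
            rw [← Real.exp_add]
            congr 1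
            ring
        _ ≤ (1 - dens F m M p) * (1 - 1 / (p : ℝ))⁻¹ := by
            apply mul_le_mul _ h9 (Real.exp_pos _).le hd0.le
            calc Real.exp (-((rho F p : ℝ) / p + C3 * (1 / (p : ℝ) ^ 2))) ≤
                Real.exp (-((rho F p : ℝ) / ((p : ℝ) - 1) +
                  2 * ((rho F p : ℝ) / ((p : ℝ) - 1)) ^ 2)) := Real.exp_le_exp.2 (by linarith)
              _ ≤ 1 - (rho F p : ℝ) / ((p : ℝ) - 1) := h7
              _ ≤ _ := by linarith
  have hPR : PR (N : ℝ) = P := by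
    unfold PR
    rw [Nat.floor_natCast]
  have hNr : (3 : ℝ) ≤ N := by exact_mod_cast hN
  have m1 := (abs_le.1 (hC1 N hNr)).2
  unfold Sg at m1
  rw [hPR] at m1
  have m2 := (abs_le.1 (hC2 N hN)).1
  have m3 := sum_inv_sq N P (Finset.Subset.refl _)
  have hsmall : ∑ p ∈ P, (if p ≤ P0 then g else 0) ≤ P0 * g := by
    rw [← sum_filter, sum_const, nsmul_eq_mul]
    apply mul_le_mul_of_nonneg_right _ hg0
    have h1 : P.filter (fun p => p ≤ P0) ⊆ Icc 1 P0 := by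
      intro p hp
      rw [mem_filter, hP, mem_filter, mem_Icc] at hp
      rw [mem_Icc]
      exact ⟨hp.1.1.1, hp.2⟩
    have h2 := card_le_card h1
    rw [Nat.card_Icc, Nat.add_sub_cancel] at h2
    exact_mod_cast h2
  unfold sg
  calc Real.exp (-(P0 * g + C1 + C2 + C3)) ≤
      Real.exp (∑ p ∈ P, ((1 / (p : ℝ) - (rho F p : ℝ) / p) - C3 * (1 / (p : ℝ) ^ 2) -
        (if p ≤ P0 then g else 0))) := by
        apply Real.exp_le_exp.2
        rw [sum_sub_distrib, sum_sub_distrib, sum_sub_distrib, ← mul_sum]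
        have hC3n : 0 ≤ C3 := by positivity
        have h3 : C3 * ∑ p ∈ P, 1 / (p : ℝ) ^ 2 ≤ C3 * 1 := mul_le_mul_of_nonneg_left m3 hC3n
        linarith
    _ = ∏ p ∈ P, Real.exp ((1 / (p : ℝ) - (rho F p : ℝ) / p) - C3 * (1 / (p : ℝ) ^ 2) -
        (if p ≤ P0 then g else 0)) := Real.exp_sum _ _
    _ ≤ _ := Finset.prod_le_prod (fun p _ => (Real.exp_pos _).le) hterm

/-- the counted arguments -/
def cset (F : ℤ[X]) (m : ℕ) (b : ℤ) (r N : ℕ) : Set ℕ :=
  {n : ℕ | 0 < n ∧ (∃ p : ℕ, p.Prime ∧ (N : ℤ) - (m * n + b) = p) ∧ 0 < F.eval (n : ℤ) ∧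
    (F.eval (n : ℤ)).natAbs.primeFactorsList.length ≤ r ∧
    ∀ q : ℕ, q.Prime → q ∣ (F.eval (n : ℤ)).natAbs → (N : ℝ) ^ ((1 : ℝ) / 9) ≤ q}

theorem cset_finite (F : ℤ[X]) (m : ℕ) (hm : 1 ≤ m) (b : ℤ) (r N : ℕ) : (cset F m b r N).Finite := by
  apply (Finset.finite_toSet (Icc 1 (N + b.natAbs))).subset
  rintro n ⟨h1, ⟨p, hp, hpn⟩, -⟩
  rw [mem_coe, mem_Icc]
  refine ⟨h1, ?_⟩
  have h2 : (1 : ℤ) * n ≤ m * n := mul_le_mul_of_nonneg_right (by exact_mod_cast hm) (by positivity)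
  have h3 : (0 : ℤ) ≤ p := by positivity
  omega

open Classical in
/-- **Few exceptions.** -/
theorem cumul (F : ℤ[X]) (hF : Irreducible F) (hd : 0 < F.natDegree) (hl : 0 < F.leadingCoeff)
    (m : ℕ) (hm : 1 ≤ m) (b : ℤ) (r : ℕ) (hr : 1 ≤ r) (θ : ℝ) (hθ0 : 1 / 2 ≤ θ) (hθ1 : θ < 1)
    (hΛ : (F.natDegree : ℝ) < θ * Lam r) (ε : ℝ) (hε : 0 < ε) :
    ∃ δ C : ℝ, 0 < δ ∧ 0 < C ∧ ∀ X : ℕ, 1 ≤ X →
      (((Icc 1 X).filter (fun N : ℕ => (∀ p : ℕ, p.Prime → Adm F m ((N : ℤ) - b) p) ∧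
        ((cset F m b r N).ncard : ℝ) < δ * sg F m ((N : ℤ) - b) N * (N / Real.log N ^ 2))).card : ℝ) ≤
      C * (X : ℝ) ^ (2 * θ - 1 + ε) := by
  obtain ⟨δ, ε₁, hδ, hε₁, hε₁1, Y0, HB⟩ := block F hF hd hl m hm b r hr θ hθ0 hθ1 hΛ ε hε
  obtain ⟨C1, hC1, Y1, HS⟩ := sg_le F hd m hm ε₁ hε₁ hε₁1
  obtain ⟨C, hC, hcum⟩ := cum (fun N : ℕ => (∀ p : ℕ, p.Prime → Adm F m ((N : ℤ) - b) p) ∧
        ((cset F m b r N).ncard : ℝ) < (δ / (2 * C1)) * sg F m ((N : ℤ) - b) N *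
          (N / Real.log N ^ 2)) (2 * θ - 1 + ε) (by linarith) (max (max Y0 Y1) 256) (by
    intro Y hY
    have hY0 : Y0 ≤ Y := ((le_max_left _ _).trans (le_max_left _ _)).trans hY
    have hY1 : Y1 ≤ Y := ((le_max_right _ _).trans (le_max_left _ _)).trans hY
    have hY3 : 256 ≤ Y := (le_max_right _ _).trans hY
    have hYr : (256 : ℝ) ≤ Y := by exact_mod_cast hY3
    have hYp : (0 : ℝ) < Y := by linarith
    obtain ⟨Ex, hEx, HE⟩ := HB Y hY0
    refine le_trans ?_ hEx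
    apply Nat.cast_le.2
    apply card_le_card
    intro N hN
    rw [mem_filter, mem_Ioc] at hN
    obtain ⟨⟨hN1, hN2⟩, hadm, hlt⟩ := hN
    by_contra hNE
    have h1 := HE N hN1 hN2 hNE hadm
    have h2 := HS Y hY1 ((N : ℤ) - b) hadm N hN1 hN2
    set W := ∏ p ∈ PZ (Y ^ F.natDegree) ε₁, (1 - dens F m ((N : ℤ) - b) p) with hW
    have hNr : (Y : ℝ) < N := by exact_mod_cast hN1
    have hN2r : (N : ℝ) ≤ 2 * Y := by exact_mod_cast hN2
    have hN0 : (0 : ℝ) < N := by linarith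
    have hlY : 0 < Real.log Y := Real.log_pos (by linarith)
    have hlYN : Real.log Y ≤ Real.log N := Real.log_le_log hYp hNr.le
    have hlN : 0 < Real.log N := by linarith
    -- the counted set
    have h3 : ((goodN F m ((N : ℤ) - b) (Y / 4) (3 * Y) r ((Y : ℝ) ^ (θ / 4))).card : ℝ) ≤
        ((cset F m b r N).ncard : ℝ) := by
      have h4 : ((goodN F m ((N : ℤ) - b) (Y / 4) (3 * Y) r ((Y : ℝ) ^ (θ / 4)) : Finset ℕ) : Set ℕ) ⊆
          cset F m b r N := by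
        intro n hn
        rw [mem_coe] at hn
        unfold goodN JJ at hn
        rw [mem_filter, mem_filter, mem_Icc] at hn
        obtain ⟨⟨⟨h5, h6⟩, p, hp, hpx, hpn⟩, h7, h8, h9⟩ := hn
        refine ⟨h5, ⟨p, hp, by rw [← hpn]; ring⟩, h7, h8, fun q hq hqd => ?_⟩
        refine le_trans ?_ (h9 q hq hqd)
        -- `N ^ (1 / 9) ≤ Y ^ (θ / 4)`
        have h10 : (2 : ℝ) ≤ (Y : ℝ) ^ ((1 : ℝ) / 8) := by
          have h11 : ((256 : ℝ)) ^ ((1 : ℝ) / 8) ≤ (Y : ℝ) ^ ((1 : ℝ) / 8) :=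
            Real.rpow_le_rpow (by norm_num) hYr (by norm_num)
          have h12 : (256 : ℝ) ^ ((1 : ℝ) / 8) = 2 := by
            rw [show (256 : ℝ) = 2 ^ (8 : ℝ) by norm_num, ← Real.rpow_mul (by norm_num)]
            norm_num
          rwa [h12] at h11
        have h13 : (N : ℝ) ≤ (Y : ℝ) ^ ((9 : ℝ) / 8) := by
          have e : (Y : ℝ) ^ ((9 : ℝ) / 8) = (Y : ℝ) ^ ((1 : ℝ) / 8) * Y := by
            rw [show (9 : ℝ) / 8 = 1 / 8 + 1 by norm_num, Real.rpow_add hYp, Real.rpow_one]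
          rw [e]
          refine hN2r.trans ?_
          exact mul_le_mul_of_nonneg_right h10 hYp.le
        calc (N : ℝ) ^ ((1 : ℝ) / 9) ≤ ((Y : ℝ) ^ ((9 : ℝ) / 8)) ^ ((1 : ℝ) / 9) :=
              Real.rpow_le_rpow hN0.le h13 (by norm_num)
          _ = (Y : ℝ) ^ ((1 : ℝ) / 8) := by
              rw [← Real.rpow_mul hYp.le]
              norm_num
          _ ≤ (Y : ℝ) ^ (θ / 4) :=
              Real.rpow_le_rpow_of_exponent_le (by linarith) (by linarith)
      have h5 := Set.ncard_le_ncard h4 (cset_finite F m hm b r N)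
      rw [Set.ncard_coe_finset] at h5
      exact_mod_cast h5
    have h4 := (h1.trans h3).trans_lt hlt
    -- comparison
    have h5 : (δ / (2 * C1)) * sg F m ((N : ℤ) - b) N * (N / Real.log N ^ 2) ≤
        δ * (Y / Real.log Y) * W := by
      have hW0 : 0 ≤ W := by
        apply prod_nonneg
        intro p hp
        have hp1 := (PZ_facts hp).1
        have h7 := dens_le hp1 (hadm p hp1)
        have : (0 : ℝ) ≤ 1 / p := by positivity
        linarith
      calc (δ / (2 * C1)) * sg F m ((N : ℤ) - b) N * (N / Real.log N ^ 2) ≤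
          (δ / (2 * C1)) * (C1 * Real.log N * W) * (N / Real.log N ^ 2) := by
            apply mul_le_mul_of_nonneg_right _ (by positivity)
            exact mul_le_mul_of_nonneg_left h2 (by positivity)
        _ = δ * W * ((N / 2) / Real.log N) := by
            field_simp
        _ ≤ δ * W * (Y / Real.log Y) := by
            apply mul_le_mul_of_nonneg_left _ (by positivity)
            exact div_le_div₀ hYp.le (by linarith) hlY hlYN
        _ = _ := by ring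
    linarith)
  exact ⟨δ / (2 * C1), C, by positivity, hC, hcum⟩

/-- `Λ_(h+1) ≥ h + 0.735` -/
theorem Lam_succ (h : ℕ) : (h : ℝ) + 0.735 ≤ Lam (h + 1) := by
  unfold Lam
  have h3 : 0 < Real.log 3 := Real.log_pos (by norm_num)
  have h4 : Real.log 4 ≤ 1.265 * Real.log 3 := by
    have h5 : Real.log ((4 : ℝ) ^ 200) ≤ Real.log (3 ^ 253) :=
      Real.log_le_log (by norm_num) (by norm_num)
    rw [Real.log_pow, Real.log_pow] at h5
    push_cast at h5
    linarith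
  have h5 : ((h : ℝ) + 1) * Real.log 3 - Real.log 4 ≤ Real.log ((3 ^ (h + 1) + 1) / 4) := by
    have h6 : Real.log ((3 : ℝ) ^ (h + 1) / 4) ≤ Real.log ((3 ^ (h + 1) + 1) / 4) := by
      apply Real.log_le_log (by positivity)
      apply div_le_div_of_nonneg_right _ (by norm_num)
      linarith
    rw [Real.log_div (by positivity) (by norm_num), Real.log_pow] at h6
    push_cast at h6
    exact h6
  have h6 : (h : ℝ) - 0.265 ≤ Real.log ((3 ^ (h + 1) + 1) / 4) / Real.log 3 := by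
    rw [le_div_iff₀ h3]
    linarith
  linarith

open Classical in
/-- `r = h + 1` -/
theorem cumul_succ (F : ℤ[X]) (hF : Irreducible F) (hd : 0 < F.natDegree) (hl : 0 < F.leadingCoeff)
    (m : ℕ) (hm : 1 ≤ m) (b : ℤ) :
    ∃ δ C : ℝ, 0 < δ ∧ 0 < C ∧ ∀ X : ℕ, 1 ≤ X →
      (((Icc 1 X).filter (fun N : ℕ => (∀ p : ℕ, p.Prime → Adm F m ((N : ℤ) - b) p) ∧
        ((cset F m b (F.natDegree + 1) N).ncard : ℝ) <
          δ * sg F m ((N : ℤ) - b) N * (N / Real.log N ^ 2))).card : ℝ) ≤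
      C * (X : ℝ) ^ (((10 : ℝ) * F.natDegree - 7) / (10 * F.natDegree + 7)) := by
  set h := F.natDegree with hh
  have hhr : (1 : ℝ) ≤ h := by exact_mod_cast hd
  have hL := Lam_succ h
  obtain ⟨θ, hθ⟩ : ∃ θ : ℝ, θ = h / (h + 0.73) := ⟨_, rfl⟩
  have hθ1 : θ < 1 := by rw [hθ, div_lt_one (by linarith)]; linarith
  have hθ0 : 1 / 2 ≤ θ := by rw [hθ, div_le_div_iff₀ (by norm_num) (by linarith)]; linarith
  have hθp : 0 < θ := by linarith
  have hΛ : (h : ℝ) < θ * Lam (h + 1) := by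
    have h1 : θ * (h + 0.735) ≤ θ * Lam (h + 1) := mul_le_mul_of_nonneg_left hL hθp.le
    have h2 : θ * (h + 0.73) = h := by rw [hθ, div_mul_cancel₀]; linarith
    have h3 : θ * (h + 0.73) < θ * (h + 0.735) := mul_lt_mul_of_pos_left (by linarith) hθp
    linarith
  obtain ⟨ε, hε⟩ : ∃ ε : ℝ, ε = ((10 : ℝ) * h - 7) / (10 * h + 7) - (2 * θ - 1) := ⟨_, rfl⟩
  have hε0 : 0 < ε := by
    rw [hε, hθ, sub_pos]
    have e : 2 * ((h : ℝ) / (h + 0.73)) - 1 = (h - 0.73) / (h + 0.73) := by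
      field_simp
      ring
    rw [e, div_lt_div_iff₀ (by linarith) (by linarith)]
    nlinarith
  obtain ⟨δ, C, hδ, hC, H⟩ := cumul F hF hd hl m hm b (h + 1) (by omega) θ hθ0 hθ1 hΛ ε hε0
  have e : 2 * θ - 1 + ε = ((10 : ℝ) * h - 7) / (10 * h + 7) := by rw [hε]; ring
  rw [e] at H
  exact ⟨δ, C, hδ, hC, H⟩

end Pool.Agent.J4.H29.SP
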