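import Pool.Agent.J4.H29.SP.Fin2

/-! The tail of the singular series. -/

set_option autoImplicit false

namespace Pool.Agent.J4.H29.SP

open Polynomial Finset Filter Topology
open Pool.Agent.H474R2.PG
open Pool.Agent.W23.DC
open Pool.Agent.Y882
open Pool.Agent.K3h31.LP (log_pow_le sum_inv_sq)

/-- `m ^ h * F (M / m)` -/
noncomputable def RR (F : ℤ[X]) (m : ℕ) (M : ℤ) : ℤ := (scaleRoots F (m : ℤ)).eval M

/-- a common root modulo `p` divides `RR` -/
theorem RR_dvd (F : ℤ[X]) (m : ℕ) (M : ℤ) (p : ℕ) (a : ℤ) (h1 : (p : ℤ) ∣ F.eval a)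
    (h2 : (p : ℤ) ∣ M - m * a) : (p : ℤ) ∣ RR F m M := by
  unfold RR
  have h3 : M - m * a ∣ (scaleRoots F (m : ℤ)).eval M - (scaleRoots F (m : ℤ)).eval (m * a) :=
    sub_dvd_eval_sub _ _ _
  have h4 : (scaleRoots F (m : ℤ)).eval ((m : ℤ) * a) = (m : ℤ) ^ F.natDegree * F.eval a := by
    have := scaleRoots_eval₂_mul (p := F) (RingHom.id ℤ) a (m : ℤ)
    simpa [eval₂_id] using this
  rw [h4] at h3
  have h5 := dvd_add (h2.trans h3) (Dvd.dvd.mul_left h1 ((m : ℤ) ^ F.natDegree))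
  rwa [sub_add_cancel] at h5

/-- number of roots at the primes not dividing `m` -/
theorem om_ge (F : ℤ[X]) (m : ℕ) (M : ℤ) (p : ℕ) (hp : p.Prime) (hpm : ¬ p ∣ m) :
    rho F p + (if (p : ℤ) ∣ RR F m M then 0 else 1) ≤ om F m M p := by
  classical
  obtain ⟨a, hap, had, -⟩ := lin_root m M p hp hpm
  unfold rho om
  split_ifs with h
  · rw [add_zero]
    apply card_le_card
    intro c hc
    rw [mem_filter] at hc ⊢
    exact ⟨hc.1, Dvd.dvd.mul_right hc.2 _⟩
  · have h1 : a ∉ (range p).filter (fun a : ℕ => (p : ℤ) ∣ F.eval (a : ℤ)) := by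
      intro h2
      rw [mem_filter] at h2
      exact h (RR_dvd F m M p a h2.2 had)
    rw [← card_insert_of_notMem h1]
    apply card_le_card
    intro c hc
    rw [mem_insert, mem_filter] at hc
    rw [mem_filter, mem_range]
    rcases hc with rfl | hc
    · exact ⟨hap, Dvd.dvd.mul_left had _⟩
    · exact ⟨mem_range.1 hc.1, Dvd.dvd.mul_right hc.2 _⟩

/-- few large primes divide a nonzero number -/
theorem few_big (k N : ℕ) (R : ℤ) (hR : R ≠ 0) (hRN : |R| < (N : ℤ) ^ (k + 1)) (T : Finset ℕ)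
    (hT : ∀ p ∈ T, p.Prime ∧ N < p ∧ (p : ℤ) ∣ R) : T.card ≤ k := by
  classical
  by_contra hk
  rw [not_le] at hk
  have h1 : (∏ p ∈ T, p) ∣ R.natAbs := by
    apply Finset.prod_primes_dvd
    · intro p hp
      exact (hT p hp).1.prime
    · intro p hp
      exact Int.natCast_dvd.1 (hT p hp).2.2
  have h2 := Nat.le_of_dvd (Int.natAbs_pos.2 hR) h1
  have h3 : N ^ T.card ≤ ∏ p ∈ T, p := by
    rw [← prod_const]
    exact prod_le_prod' fun p hp => (hT p hp).2.1.le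
  have h4 : (N : ℤ) ^ T.card ≤ |R| := by
    have := h3.trans h2
    rw [Int.abs_eq_natAbs]
    exact_mod_cast this
  rcases Nat.eq_zero_or_pos N with hN | hN
  · subst hN
    have : |R| < 0 := by
      simpa using hRN
    have := abs_nonneg R
    omega
  · have h5 : (N : ℤ) ^ (k + 1) ≤ (N : ℤ) ^ T.card := pow_le_pow_right₀ (by exact_mod_cast hN) hk
    omega

/-- the tail of the singular series is bounded -/
theorem sg_tail (F : ℤ[X]) (hF : Irreducible F) (hd : 0 < F.natDegree) (m : ℕ) (hm : 1 ≤ m) :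
    ∃ C : ℝ, 0 < C ∧ ∃ N0 : ℕ, ∀ N : ℕ, N0 ≤ N → ∀ M : ℤ, 1 ≤ M → M ≤ 2 * N → RR F m M ≠ 0 →
      ∀ y : ℕ, N ≤ y → sg F m M y ≤ C * sg F m M N := by
  classical
  obtain ⟨C1, hC10, hC1⟩ := Pool.Agent.H474R2.GE.mertens_rho F hF hd
  obtain ⟨C2, hC2⟩ := Pool.Agent.Helper256.KM.mertens_inv
  obtain ⟨B, hB1, hB⟩ := eval_bound (scaleRoots F (m : ℤ))
  set h := F.natDegree with hh
  have hdeg : (scaleRoots F (m : ℤ)).natDegree = h := natDegree_scaleRoots _ _
  set C := Real.exp (2 * C1 + 2 * C2 + 4 + h) with hC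
  refine ⟨C, Real.exp_pos _, m + 3 + (B * 2 ^ h).toNat, fun N hN M hM1 hM2 hR y hy => ?_⟩
  have hNm : m < N := by omega
  have hN3 : 3 ≤ N := by omega
  have hNB : B * 2 ^ h < (N : ℤ) := by
    have h1 := Int.self_le_toNat (B * 2 ^ h)
    have : ((m + 3 + (B * 2 ^ h).toNat : ℕ) : ℤ) ≤ N := by exact_mod_cast hN
    push_cast at this
    linarith
  have hNr : (3 : ℝ) ≤ N := by exact_mod_cast hN3
  have hyr : (N : ℝ) ≤ y := by exact_mod_cast hy
  have hRB : |RR F m M| < (N : ℤ) ^ (h + 1) := by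
    have h1 := hB M hM1
    rw [hdeg] at h1
    have hNpos : (0 : ℤ) < N := by
      have : 0 < N := by omega
      exact_mod_cast this
    calc |RR F m M| ≤ B * M ^ h := h1
      _ ≤ B * (2 * N) ^ h := by
          apply mul_le_mul_of_nonneg_left _ (by linarith)
          exact pow_le_pow_left₀ (by linarith) hM2 h
      _ = (B * 2 ^ h) * (N : ℤ) ^ h := by rw [mul_pow]; ring
      _ < N * (N : ℤ) ^ h := by
          apply mul_lt_mul_of_pos_right hNB
          positivity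
      _ = (N : ℤ) ^ (h + 1) := by ring
  have hfac : ∀ p : ℕ, p.Prime → 0 < 1 - 1 / (p : ℝ) := by
    intro p hp
    have : (2 : ℝ) ≤ p := by exact_mod_cast hp.two_le
    rw [sub_pos, div_lt_one (by linarith)]
    linarith
  set P := (Icc 1 N).filter Nat.Prime with hP
  set Q := (Icc 1 y).filter Nat.Prime with hQ
  have hPQ : P ⊆ Q := by
    intro p hp
    rw [hP, mem_filter, mem_Icc] at hp
    rw [hQ, mem_filter, mem_Icc]
    exact ⟨⟨hp.1.1, hp.1.2.trans hy⟩, hp.2⟩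
  set T := Q \ P with hT
  have hTf : ∀ p ∈ T, p.Prime ∧ N < p := by
    intro p hp
    rw [hT, Finset.mem_sdiff, hQ, hP, mem_filter, mem_filter, mem_Icc, mem_Icc] at hp
    refine ⟨hp.1.2, ?_⟩
    by_contra hlt
    exact hp.2 ⟨⟨hp.1.1.1, not_lt.1 hlt⟩, hp.1.2⟩
  have hsplit : sg F m M y = (∏ p ∈ T, (1 - (om F m M p : ℝ) / p) * ((1 - 1 / (p : ℝ))⁻¹) ^ 2) *
      sg F m M N := by
    unfold sg
    rw [← prod_sdiff hPQ]
  have hsg0 : 0 ≤ sg F m M N := by
    unfold sg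
    apply prod_nonneg
    intro p hp
    have hpp : p.Prime := (mem_filter.1 hp).2
    exact mul_nonneg (fac_nonneg F m M hpp).1 (by positivity)
  rw [hsplit]
  apply mul_le_mul_of_nonneg_right _ hsg0
  -- each factor
  have hterm : ∀ p ∈ T, (1 - (om F m M p : ℝ) / p) * ((1 - 1 / (p : ℝ))⁻¹) ^ 2 ≤
      Real.exp ((1 / (p : ℝ) - (rho F p : ℝ) / p) + 4 * (1 / (p : ℝ) ^ 2) +
        (if (p : ℤ) ∣ RR F m M then 1 else 0)) := by
    intro p hp
    obtain ⟨hpp, hNp⟩ := hTf p hp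
    have hp2 : (3 : ℝ) ≤ p := by
      have : 3 ≤ p := by omega
      exact_mod_cast this
    have hp0 : (0 : ℝ) < p := by linarith
    have hpm : ¬ p ∣ m := by
      intro hd
      have := Nat.le_of_dvd (by omega) hd
      omega
    have h1 := om_ge F m M p hpp hpm
    have h2 := hfac p hpp
    have h3 : (1 - 1 / (p : ℝ))⁻¹ ≤ Real.exp (1 / (p : ℝ) + 2 * (1 / (p : ℝ) ^ 2)) := by
      have e : (1 - 1 / (p : ℝ))⁻¹ = 1 + 1 / ((p : ℝ) - 1) := by
        have : (p : ℝ) - 1 ≠ 0 := by linarith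
        field_simp
        ring
      have e2 : 1 / ((p : ℝ) - 1) ≤ 1 / (p : ℝ) + 2 * (1 / (p : ℝ) ^ 2) := by
        have hp1 : 0 < (p : ℝ) - 1 := by linarith
        have e3 : 1 / (p : ℝ) + 2 * (1 / (p : ℝ) ^ 2) = (p + 2) / p ^ 2 := by
          field_simp
        rw [e3, div_le_div_iff₀ hp1 (by positivity)]
        nlinarith
      rw [e]
      have := Real.add_one_le_exp (1 / ((p : ℝ) - 1))
      calc 1 + 1 / ((p : ℝ) - 1) ≤ Real.exp (1 / ((p : ℝ) - 1)) := by linarith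
        _ ≤ _ := Real.exp_le_exp.2 e2
    have h3' : 0 ≤ (1 - 1 / (p : ℝ))⁻¹ := by positivity
    have h4 : ((1 - 1 / (p : ℝ))⁻¹) ^ 2 ≤ Real.exp (2 * (1 / (p : ℝ) + 2 * (1 / (p : ℝ) ^ 2))) := by
      rw [two_mul, Real.exp_add, pow_two]
      exact mul_le_mul h3 h3 h3' (Real.exp_pos _).le
    have h5 : 1 - (om F m M p : ℝ) / p ≤ Real.exp (-((om F m M p : ℝ) / p)) := by
      have := Real.add_one_le_exp (-((om F m M p : ℝ) / p))
      linarith
    calc (1 - (om F m M p : ℝ) / p) * ((1 - 1 / (p : ℝ))⁻¹) ^ 2 ≤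
        Real.exp (-((om F m M p : ℝ) / p)) * Real.exp (2 * (1 / (p : ℝ) + 2 * (1 / (p : ℝ) ^ 2))) :=
          mul_le_mul h5 h4 (by positivity) (Real.exp_pos _).le
      _ = Real.exp (-((om F m M p : ℝ) / p) + 2 * (1 / (p : ℝ) + 2 * (1 / (p : ℝ) ^ 2))) := by
          rw [Real.exp_add]
      _ ≤ _ := by
          apply Real.exp_le_exp.2
          have h6 : (rho F p : ℝ) / p + (if (p : ℤ) ∣ RR F m M then (0 : ℝ) else 1) / p ≤
              (om F m M p : ℝ) / p := by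
            rw [← add_div]
            apply div_le_div_of_nonneg_right _ hp0.le
            split_ifs with hd
            · rw [if_pos hd] at h1
              exact_mod_cast h1
            · rw [if_neg hd] at h1
              exact_mod_cast h1
          have h7 : 1 / (p : ℝ) ≤ 1 := by rw [div_le_one hp0]; linarith
          split_ifs at h6 ⊢
          · rw [zero_div] at h6
            linarith
          · linarith
  have hcard : ∑ p ∈ T, (if (p : ℤ) ∣ RR F m M then (1 : ℝ) else 0) ≤ h := by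
    rw [← sum_filter, sum_const, nsmul_eq_mul, mul_one]
    have := few_big h N (RR F m M) hR hRB (T.filter (fun p : ℕ => (p : ℤ) ∣ RR F m M)) (by
      intro p hp
      rw [mem_filter] at hp
      exact ⟨(hTf p hp.1).1, (hTf p hp.1).2, hp.2⟩)
    exact_mod_cast this
  have hsq : ∑ p ∈ T, 1 / (p : ℝ) ^ 2 ≤ 1 :=
    sum_inv_sq y T (Finset.sdiff_subset)
  have hPR : PR (N : ℝ) = P := by
    unfold PR
    rw [Nat.floor_natCast]
  have hQR : PR (y : ℝ) = Q := by
    unfold PR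
    rw [Nat.floor_natCast]
  have m1 := (abs_le.1 (hC1 N hNr)).2
  have m1' := (abs_le.1 (hC1 y (by linarith))).1
  unfold Sg at m1 m1'
  rw [hPR] at m1
  rw [hQR] at m1'
  have m2 := (abs_le.1 (hC2 N hN3)).1
  have m2' := (abs_le.1 (hC2 y (by omega))).2
  have s1 : ∑ p ∈ T, 1 / (p : ℝ) = ∑ p ∈ Q, 1 / (p : ℝ) - ∑ p ∈ P, 1 / (p : ℝ) := by
    rw [← sum_sdiff hPQ]
    ring
  have s2 : ∑ p ∈ T, (rho F p : ℝ) / (p : ℝ) = ∑ p ∈ Q, (rho F p : ℝ) / (p : ℝ) -
      ∑ p ∈ P, (rho F p : ℝ) / (p : ℝ) := by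
    rw [← sum_sdiff hPQ]
    ring
  calc ∏ p ∈ T, (1 - (om F m M p : ℝ) / p) * ((1 - 1 / (p : ℝ))⁻¹) ^ 2 ≤
      ∏ p ∈ T, Real.exp ((1 / (p : ℝ) - (rho F p : ℝ) / p) + 4 * (1 / (p : ℝ) ^ 2) +
        (if (p : ℤ) ∣ RR F m M then 1 else 0)) := by
        apply Finset.prod_le_prod
        · intro p hp
          exact mul_nonneg (fac_nonneg F m M (hTf p hp).1).1 (by positivity)
        · exact hterm
    _ = Real.exp (∑ p ∈ T, ((1 / (p : ℝ) - (rho F p : ℝ) / p) + 4 * (1 / (p : ℝ) ^ 2) +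
        (if (p : ℤ) ∣ RR F m M then 1 else 0))) := (Real.exp_sum _ _).symm
    _ ≤ C := by
        rw [hC]
        apply Real.exp_le_exp.2
        rw [sum_add_distrib, sum_add_distrib, sum_sub_distrib, ← mul_sum, s1, s2]
        linarith

end Pool.Agent.J4.H29.SP
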