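import Pool.Agent.J4.H29.SP.Fin3

/-! The cumulative statement with all partial products. -/

set_option autoImplicit false

namespace Pool.Agent.J4.H29.SP

open Polynomial Finset Filter Topology
open Pool.Agent.K3h19.RV (Lam)

/-- `RR ≠ 0` with finitely many exceptions -/
theorem RR_ne (F : ℤ[X]) (hF0 : F ≠ 0) (m : ℕ) :
    ∃ B : ℕ, ∀ M : ℤ, (B : ℤ) ≤ M → RR F m M ≠ 0 := by
  classical
  set G := scaleRoots F (m : ℤ) with hG
  have hG0 : G ≠ 0 := scaleRoots_ne_zero hF0 _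
  refine ⟨∑ a ∈ G.roots.toFinset, a.natAbs + 1, fun M hM h => ?_⟩
  have h1 : M ∈ G.roots.toFinset := by
    rw [Multiset.mem_toFinset, mem_roots hG0]
    exact h
  have h2 : M.natAbs ≤ ∑ a ∈ G.roots.toFinset, a.natAbs :=
    single_le_sum (f := fun a : ℤ => a.natAbs) (fun _ _ => Nat.zero_le _) h1
  have h3 : M ≤ M.natAbs := Int.le_natAbs
  have h4 : (M.natAbs : ℤ) ≤ ((∑ a ∈ G.roots.toFinset, a.natAbs : ℕ) : ℤ) := by exact_mod_cast h2
  push_cast at hM h4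
  have h5 := le_abs_self M
  linarith

open Classical in
theorem upgrade (F : ℤ[X]) (hF : Irreducible F) (hd : 0 < F.natDegree) (m : ℕ) (hm : 1 ≤ m) (b : ℤ)
    (r : ℕ) (e : ℝ) (he : 0 ≤ e)
    (H : ∃ δ C : ℝ, 0 < δ ∧ 0 < C ∧ ∀ X : ℕ, 1 ≤ X →
      (((Icc 1 X).filter (fun N : ℕ => (∀ p : ℕ, p.Prime → Adm F m ((N : ℤ) - b) p) ∧
        ((cset F m b r N).ncard : ℝ) < δ * sg F m ((N : ℤ) - b) N * (N / Real.log N ^ 2))).card : ℝ) ≤
      C * (X : ℝ) ^ e) :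
    ∃ δ C : ℝ, 0 < δ ∧ 0 < C ∧ ∀ X : ℕ, 1 ≤ X →
      (((Icc 1 X).filter (fun N : ℕ => (∀ p : ℕ, p.Prime → Adm F m ((N : ℤ) - b) p) ∧
        ∃ y : ℕ, N ≤ y ∧ ((cset F m b r N).ncard : ℝ) <
          δ * sg F m ((N : ℤ) - b) y * (N / Real.log N ^ 2))).card : ℝ) ≤
      C * (X : ℝ) ^ e := by
  obtain ⟨δ, C, hδ, hC, H⟩ := H
  obtain ⟨C1, hC1, N0, HT⟩ := sg_tail F hF hd m hm
  obtain ⟨B, hB⟩ := RR_ne F hF.ne_zero m
  set N1 : ℕ := N0 + B + b.natAbs + 1 with hN1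
  refine ⟨δ / C1, C + N1, by positivity, by positivity, fun X hX => ?_⟩
  have hXr : (1 : ℝ) ≤ X := by exact_mod_cast hX
  have hXe : 1 ≤ (X : ℝ) ^ e := Real.one_le_rpow hXr he
  have hsub : (Icc 1 X).filter (fun N : ℕ => (∀ p : ℕ, p.Prime → Adm F m ((N : ℤ) - b) p) ∧
        ∃ y : ℕ, N ≤ y ∧ ((cset F m b r N).ncard : ℝ) <
          (δ / C1) * sg F m ((N : ℤ) - b) y * (N / Real.log N ^ 2)) ⊆
      (Icc 1 X).filter (fun N : ℕ => (∀ p : ℕ, p.Prime → Adm F m ((N : ℤ) - b) p) ∧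
        ((cset F m b r N).ncard : ℝ) < δ * sg F m ((N : ℤ) - b) N * (N / Real.log N ^ 2)) ∪
      Icc 1 N1 := by
    intro N hN
    rw [mem_filter] at hN
    obtain ⟨hN, hadm, y, hy, hlt⟩ := hN
    rw [mem_union, mem_filter]
    by_cases hNN : N ≤ N1
    · right
      rw [mem_Icc] at hN ⊢
      exact ⟨hN.1, hNN⟩
    · left
      refine ⟨hN, hadm, hlt.trans_le ?_⟩
      rw [not_le] at hNN
      have hb := Int.le_natAbs (a := b)
      have h1 := HT N (by omega) ((N : ℤ) - b) (by omega) (by omega) (hB _ (by omega)) y hy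
      calc (δ / C1) * sg F m ((N : ℤ) - b) y * (N / Real.log N ^ 2) ≤
          (δ / C1) * (C1 * sg F m ((N : ℤ) - b) N) * (N / Real.log N ^ 2) := by
            apply mul_le_mul_of_nonneg_right _ (by positivity)
            exact mul_le_mul_of_nonneg_left h1 (by positivity)
        _ = _ := by field_simp
  have h1 := (card_le_card hsub).trans (card_union_le _ _)
  rw [Nat.card_Icc, Nat.add_sub_cancel] at h1
  have h2 := H X hX
  have h3 : (N1 : ℝ) ≤ N1 * (X : ℝ) ^ e := le_mul_of_one_le_right (by positivity) hXe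
  calc _ ≤ (((Icc 1 X).filter (fun N : ℕ => (∀ p : ℕ, p.Prime → Adm F m ((N : ℤ) - b) p) ∧
        ((cset F m b r N).ncard : ℝ) <
          δ * sg F m ((N : ℤ) - b) N * (N / Real.log N ^ 2))).card : ℝ) + N1 := by exact_mod_cast h1
    _ ≤ C * (X : ℝ) ^ e + N1 * (X : ℝ) ^ e := add_le_add h2 h3
    _ = _ := by ring

end Pool.Agent.J4.H29.SP
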