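import Pool.Agent.J4.H29.SP.Block

/-! One dyadic block: the theorem. -/

set_option autoImplicit false

namespace Pool.Agent.J4.H29.SP

open Polynomial Finset Filter Topology
open Pool.Agent.H474R2.PG
open Pool.Agent.W23.DC
open Pool.Agent.Y882
open Pool.Agent.Y882.KW
open Pool.Agent.Y882.EHF (S)
open Pool.Agent.TH926.EH
open Pool.Agent.K3h31.LP (log_pow_le)
open Pool.Agent.K3h19.RV (Lam richert)

theorem aux1 (N Y x : ℝ) (hY : 1000 ≤ Y) (hN : N ≤ 2 * Y) (hx : Y / 5 ≤ x) : N ≤ x ^ 2 := by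
  have h2 : (Y / 5) ^ 2 ≤ x ^ 2 := pow_le_pow_left₀ (by linarith) hx 2
  nlinarith

theorem aux2 (Y : ℝ) (hY : 1000 ≤ Y) : Y ≤ (Y / 5) ^ 2 := by nlinarith

theorem aux3 (Y x L lx : ℝ) (hY : 0 < Y) (hx : Y / 5 ≤ x) (hlx : 0 < lx) (hL : lx ≤ L) :
    Y / (10 * L) ≤ x / (2 * lx) := by
  rw [div_le_div_iff₀ (by linarith) (by linarith)]
  have h1 : Y ≤ 5 * x := by linarith
  calc Y * (2 * lx) ≤ (5 * x) * (2 * L) := mul_le_mul h1 (by linarith) (by linarith) (by linarith)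
    _ = x * (10 * L) := by ring

theorem aux4 (m t : ℝ) (hm : 1 ≤ m) (ht : 0 ≤ t) : 2 * m ≤ m * (t + 2) := by nlinarith

/-- **One block.** -/
theorem block (F : ℤ[X]) (hF : Irreducible F) (hd : 0 < F.natDegree) (hl : 0 < F.leadingCoeff)
    (m : ℕ) (hm : 1 ≤ m) (b : ℤ) (r : ℕ) (hr : 1 ≤ r) (θ : ℝ) (hθ0 : 1 / 2 ≤ θ) (hθ1 : θ < 1)
    (hΛ : (F.natDegree : ℝ) < θ * Lam r) (ε : ℝ) (hε : 0 < ε) :
    ∃ δ ε₁ : ℝ, 0 < δ ∧ 0 < ε₁ ∧ (F.natDegree : ℝ) * ε₁ ≤ 1 / 4 ∧ ∃ Y0 : ℕ, ∀ Y : ℕ, Y0 ≤ Y → ∃ Ex : Finset ℕ,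
      (Ex.card : ℝ) ≤ (Y : ℝ) ^ (2 * θ - 1 + ε) ∧
      ∀ N : ℕ, Y < N → N ≤ 2 * Y → N ∉ Ex → (∀ p : ℕ, p.Prime → Adm F m ((N : ℤ) - b) p) →
        δ * (Y / Real.log Y) * ∏ p ∈ PZ (Y ^ F.natDegree) ε₁, (1 - dens F m ((N : ℤ) - b) p) ≤
          ((goodN F m ((N : ℤ) - b) (Y / 4) (3 * Y) r ((Y : ℝ) ^ (θ / 4))).card : ℝ) := by
  classical
  set h := F.natDegree with hh
  have hhr : (1 : ℝ) ≤ h := by exact_mod_cast hd
  have hh0 : (0 : ℝ) < h := by linarith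
  -- parameters
  set τ : ℝ := θ / h with hτ
  have hτ0 : 0 < τ := by positivity
  have hτ1 : τ ≤ 1 := by rw [hτ, div_le_one hh0]; linarith
  have hhτ : (h : ℝ) * τ = θ := by rw [hτ]; field_simp
  have hτL : 1 < τ * Lam r := by
    rw [hτ, div_mul_eq_mul_div, lt_div_iff₀ hh0]
    linarith
  obtain ⟨υ, lam, Sr, l1, l2, l3, l4, l5, l6⟩ := richert r hr τ hτ0 hτL
  set ζ : ℝ := τ / 4 with hζ
  have hζ0 : 0 < ζ := by positivity
  have hυ0 : 0 < υ := by linarith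
  have hυ1 : υ ≤ 1 := by linarith
  set ε' : ℝ := (1 - θ) / 4 with hε'
  have hε'0 : 0 < ε' := by rw [hε']; linarith
  set κ : ℝ := min (ε / 8) ((1 - θ) / 4) with hκ
  have hκ0 : 0 < κ := lt_min (by linarith) (by linarith)
  have hκε : κ ≤ ε / 8 := min_le_left _ _
  have hκθ : κ ≤ (1 - θ) / 4 := min_le_right _ _
  set τ' : ℝ := τ + κ / h with hτ'
  have hττ' : τ < τ' := by
    have : 0 < κ / h := by positivity
    linarith
  have hhτ' : (h : ℝ) * τ' = θ + κ := by rw [hτ', mul_add, hhτ]; field_simp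
  -- the inputs
  obtain ⟨f, ε₁, hf, hε₁, hε₁1, Y1, HL⟩ := lowerN F hF hd hl m hm τ ζ υ lam τ' hζ0 (by linarith)
    (by linarith) hτ1 l1 l2 l3 l6 hττ'
  obtain ⟨cW, hcW, kW, Z1, HW⟩ := W_low F hF.ne_zero m ε₁ hε₁
  obtain ⟨CP, hCP, kP, HP⟩ := P_up F hF.ne_zero
  obtain ⟨KS, Z2, HS⟩ := sq_total F hF hd ζ υ hζ0 hυ1
  obtain ⟨A, hA⟩ : ∃ A : ℕ, A = kW + kP + 4 := ⟨_, rfl⟩
  obtain ⟨B, x₀, HX⟩ := exc F m b (2 * A) ε' hε'0
  obtain ⟨x1, hpc⟩ := eventually_atTop.1 pc_low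
  obtain ⟨t0, hgr⟩ := growth F hd hl
  obtain ⟨C, hC1, hC⟩ := eval_bound F
  have hφ : 1 ≤ Nat.totient m := Nat.totient_pos.2 (by omega)
  have hφr : (1 : ℝ) ≤ Nat.totient m := by exact_mod_cast hφ
  have hφ0 : (0 : ℝ) < Nat.totient m := by linarith
  set c2 : ℝ := cW / (10 * Nat.totient m * h ^ kW) with hc2
  have hc20 : 0 < c2 := by positivity
  have hυ' : (h : ℝ) * υ < 1 := by
    have : (h : ℝ) * υ < h * τ := mul_lt_mul_of_pos_left l2 hh0
    linarith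
  have hS' : (h : ℝ) < h * Sr := lt_mul_of_one_lt_right hh0 l4
  set t : ℝ := 100 * ((x₀ : ℝ) + x1 + |(b : ℝ)| + m * (|(t0 : ℝ)| + 2) + Y1 + Z1 + Z2 + 10) with ht
  obtain ⟨Y2, hY2⟩ := eventually_atTop.1 (thresholds h m A B kW kP (C * 3 ^ h) t θ κ ε f c2 CP KS
    (h * υ) ε' (h * Sr) hθ0 hκ0 hκε (by rw [hε']; linarith) hε hε'0 hf hc20 hυ' hS' hA)
  have hhε : (h : ℝ) * ε₁ ≤ 1 / 4 := by
    have h1 : (h : ℝ) * ε₁ ≤ h * ζ := mul_le_mul_of_nonneg_left hε₁1 hh0.le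
    have h2 : (h : ℝ) * ζ = θ / 4 := by rw [hζ, mul_div_assoc', hhτ]
    linarith
  refine ⟨f / (20 * Nat.totient m), ε₁, by positivity, hε₁, hhε, Y2, fun Y hY => ?_⟩
  obtain ⟨a1, a2, a3, a4, a5, a6, a7, a8, a9, a10⟩ := hY2 Y hY
  set L : ℝ := Real.log Y with hL
  have hL0 : 0 < L := by linarith
  -- simple consequences of the thresholds
  have q1 : (0 : ℝ) ≤ x₀ := Nat.cast_nonneg _
  have q2 : (0 : ℝ) ≤ x1 := Nat.cast_nonneg _
  have q3 : 0 ≤ |(b : ℝ)| := abs_nonneg _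
  have q4 : 0 ≤ |(t0 : ℝ)| := abs_nonneg _
  have q5 : (1 : ℝ) ≤ m := by exact_mod_cast hm
  have q6 : (0 : ℝ) ≤ Y1 := Nat.cast_nonneg _
  have q7 : (0 : ℝ) ≤ Z1 := Nat.cast_nonneg _
  have q8 : (0 : ℝ) ≤ Z2 := Nat.cast_nonneg _
  have q9 : 0 ≤ (m : ℝ) * (|(t0 : ℝ)| + 2) := by positivity
  have q10 : (2 : ℝ) * m ≤ m * (|(t0 : ℝ)| + 2) := aux4 _ _ q5 q4
  rw [ht] at a9
  have hYr : (1000 : ℝ) ≤ Y := by linarith
  have hYn : 1000 ≤ Y := by exact_mod_cast hYr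
  have hY0 : (0 : ℝ) < Y := by linarith
  have hY1 : (1 : ℝ) ≤ Y := by linarith
  have hbY : 100 * b.natAbs ≤ Y := by
    have h1 : ((b.natAbs : ℕ) : ℝ) = |(b : ℝ)| := by rw [Nat.cast_natAbs, Int.cast_abs]
    have h2 : 100 * ((b.natAbs : ℕ) : ℝ) ≤ Y := by rw [h1]; linarith
    exact_mod_cast h2
  have hmY : 100 * m ≤ Y := by
    have h2 : 100 * (m : ℝ) ≤ Y := by linarith
    exact_mod_cast h2
  set x := Y / 4 with hx
  have hx5 : (Y : ℝ) / 5 ≤ x := by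
    have h1 : Y ≤ 5 * x := by omega
    have h2 : (Y : ℝ) ≤ 5 * x := by exact_mod_cast h1
    linarith
  have hxY : (x : ℝ) ≤ Y := by
    have h1 : x ≤ Y := by omega
    exact_mod_cast h1
  have hx0 : (0 : ℝ) < x := by linarith
  have hxx0 : x₀ ≤ x := by
    have : (x₀ : ℝ) ≤ x := by linarith
    exact_mod_cast this
  have hxx1 : x1 ≤ x := by
    have : (x1 : ℝ) ≤ x := by linarith
    exact_mod_cast this
  have hYY1 : Y1 ≤ Y := by
    have : (Y1 : ℝ) ≤ Y := by linarith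
    exact_mod_cast this
  set Z := Y ^ h with hZ
  have hYZ : Y ≤ Z := by
    calc Y = Y ^ 1 := (pow_one Y).symm
      _ ≤ Y ^ h := Nat.pow_le_pow_right (by omega) hd
  have hZr : (Z : ℝ) = (Y : ℝ) ^ h := by rw [hZ]; push_cast; rfl
  have hZ0 : (0 : ℝ) < Z := by rw [hZr]; positivity
  have hZ1 : Z1 ≤ Z := by
    have : (Z1 : ℝ) ≤ Y := by linarith
    have h2 : Z1 ≤ Y := by exact_mod_cast this
    exact h2.trans hYZ
  have hZ2 : Z2 ≤ Z := by
    have : (Z2 : ℝ) ≤ Y := by linarith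
    have h2 : Z2 ≤ Y := by exact_mod_cast this
    exact h2.trans hYZ
  have hlZ : Real.log Z = h * L := by rw [hZr, Real.log_pow]
  have hZpow : ∀ u : ℝ, (Z : ℝ) ^ u = (Y : ℝ) ^ ((h : ℝ) * u) := by
    intro u
    rw [hZr, ← Real.rpow_natCast, ← Real.rpow_mul hY0.le]
  -- the level
  set D : ℕ := ⌊(Z : ℝ) ^ τ'⌋₊ with hD
  have hZτ : (Z : ℝ) ^ τ' = (Y : ℝ) ^ (θ + κ) := by rw [hZpow, hhτ']
  have hDle : (D : ℝ) ≤ (Y : ℝ) ^ (θ + κ) := by
    rw [← hZτ]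
    exact Nat.floor_le (by positivity)
  have hD1 : 1 ≤ D := by
    apply Nat.le_floor
    push_cast
    rw [hZpow, hhτ']
    exact Real.one_le_rpow hY1 (by linarith)
  have hx1ε : (Y : ℝ) ^ (1 - ε') / 5 ≤ (x : ℝ) ^ (1 - ε') := by
    have h0 : 0 < 1 - ε' := by rw [hε']; linarith
    calc (Y : ℝ) ^ (1 - ε') / 5 ≤ (Y : ℝ) ^ (1 - ε') / 5 ^ (1 - ε') := by
          apply div_le_div_of_nonneg_left (by positivity) (by positivity)
          calc (5 : ℝ) ^ (1 - ε') ≤ 5 ^ (1 : ℝ) :=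
                Real.rpow_le_rpow_of_exponent_le (by norm_num) (by linarith)
            _ = 5 := Real.rpow_one _
      _ = (Y / 5 : ℝ) ^ (1 - ε') := by rw [Real.div_rpow hY0.le (by norm_num)]
      _ ≤ _ := Real.rpow_le_rpow (by positivity) hx5 h0.le
  have hQ : (((m * D : ℕ) : ℕ) : ℝ) ≤ (x : ℝ) ^ (1 - ε') := by
    push_cast
    calc (m : ℝ) * D ≤ m * (Y : ℝ) ^ (θ + κ) := mul_le_mul_of_nonneg_left hDle (by linarith)
      _ ≤ (Y : ℝ) ^ (1 - ε') / 5 := by rw [le_div_iff₀ (by norm_num)]; linarith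
      _ ≤ _ := hx1ε
  have hx1r : (1 : ℝ) ≤ x := by linarith
  have hmDx : m * D ≤ x := by
    have h1 : (((m * D : ℕ) : ℕ) : ℝ) ≤ x := by
      refine hQ.trans ?_
      calc (x : ℝ) ^ (1 - ε') ≤ (x : ℝ) ^ (1 : ℝ) :=
            Real.rpow_le_rpow_of_exponent_le hx1r (by linarith)
        _ = x := Real.rpow_one _
    exact_mod_cast h1
  -- the number of systems
  set R : ℕ := ⌈L ^ A⌉₊ with hR
  have hLA1 : 1 ≤ L ^ A := one_le_pow₀ a10
  have hR1 : L ^ A ≤ R := Nat.le_ceil _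
  have hR2 : (R : ℝ) ≤ 2 * L ^ A := by
    have := Nat.ceil_lt_add_one (show 0 ≤ L ^ A by positivity)
    linarith
  have hR1n : 1 ≤ R := by
    have : (1 : ℝ) ≤ R := by linarith
    exact_mod_cast this
  obtain ⟨Ex, hEx1, hEx2⟩ := HX x hxx0 (m * D) hQ R
  refine ⟨Ex, ?_, ?_⟩
  · -- the number of exceptions
    refine hEx1.trans (le_trans ?_ a2)
    push_cast
    have hlx : Real.log x ≤ L := Real.log_le_log hx0 hxY
    have hlx0 : 0 ≤ Real.log x := Real.log_nonneg hx1r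
    calc (R : ℝ) * (((m : ℝ) * D) ^ 2 / x * Real.log x ^ B) ≤
        (2 * L ^ A) * (((m : ℝ) * (Y : ℝ) ^ (θ + κ)) ^ 2 / (Y / 5) * L ^ B) := by
          gcongr
      _ = 10 * m ^ 2 * L ^ (A + B) * ((Y : ℝ) ^ (θ + κ) * (Y : ℝ) ^ (θ + κ) / Y) := by
          rw [pow_add]
          field_simp
          ring
      _ = 10 * m ^ 2 * L ^ (A + B) * (Y : ℝ) ^ (2 * θ + 2 * κ - 1) := by
          congr 1
          rw [← Real.rpow_add hY0, Real.rpow_sub hY0, Real.rpow_one]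
          congr 2
          ring
  -- a non-exceptional `N`
  intro N hN1 hN2 hNE hadm
  set M : ℤ := (N : ℤ) - b with hM
  have hM1 : (Y : ℤ) ≤ 2 * M := by omega
  have hM2 : M ≤ 3 * Y := by omega
  have hxM : (x : ℤ) + m ≤ M := by omega
  have hMR : M ≤ ((3 * Y : ℕ) : ℤ) := by push_cast; omega
  have hNx : (N : ℝ) ≤ (x : ℝ) ^ (2 : ℝ) := by
    have h1 : (N : ℝ) ≤ 2 * Y := by exact_mod_cast hN2
    rw [← Nat.cast_ofNat, Real.rpow_natCast]
    exact aux1 _ _ _ hYr h1 hx5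
  have hSj := hEx2 N hNx hNE
  have hcop : M.natAbs.Coprime m := Adm_coprime hadm
  -- the sieve
  obtain ⟨c, w1, w2, w3⟩ := HL Y hYY1
  set J := JJ m M x (3 * Y) with hJ
  set a : ℕ → ℕ := fun n => (F.eval (n : ℤ)).natAbs with ha
  set X : ℝ := pc x / Nat.totient m with hX
  have hX0 : 0 ≤ X := div_nonneg (pc_le x).1 hφ0.le
  have h1 := w3 M hM1 hM2 hadm J a X hX0
  -- the error
  have herr := total_err F m hm b x (3 * Y) D R N (2 * A) hR1n hD1 hxM hMR hmDx hcop hSj (PZ Z υ)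
    (fun p hp => (PZ_facts hp).1) c (5 * Real.log Z) (by rw [hlZ]; positivity) w1
    (fun T hT hcT => Nat.le_floor (w2 T hT hcT))
  have hid : ∑ T ∈ (PZ Z υ).powerset, c T *
      (((J.filter (fun j => ∏ p ∈ T, p ∣ a j)).card : ℝ) - X * ∏ p ∈ T, dens F m M p) =
      ∑ T ∈ (PZ Z υ).powerset, c T * er F m M x (3 * Y) (∏ p ∈ T, p) := by
    apply sum_congr rfl
    intro T hT
    rw [mem_powerset] at hT
    congr 1
    unfold er
    rw [main_eq F m M x T (fun p hp => (PZ_facts (hT hp)).1)]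
    congr 2
    congr 1
    apply filter_congr
    intro n _
    exact Int.natCast_dvd.symm
  rw [hid] at h1
  set E2 := |∑ T ∈ (PZ Z υ).powerset, c T * er F m M x (3 * Y) (∏ p ∈ T, p)| with hE2
  have hE2' : -E2 ≤ ∑ T ∈ (PZ Z υ).powerset, c T * er F m M x (3 * Y) (∏ p ∈ T, p) := neg_abs_le _
  have hlD : Real.log D ≤ L := by
    apply Real.log_le_log (by exact_mod_cast hD1)
    have h2 : m * D ≤ Y := by omega
    have h3 : D ≤ Y := (Nat.le_mul_of_pos_left D (by omega)).trans h2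
    exact_mod_cast h3
  have hlD0 : 0 ≤ Real.log D := Real.log_natCast_nonneg D
  have hlx : (L / 2) ^ (2 * A) ≤ Real.log x ^ (2 * A) := by
    apply pow_le_pow_left₀ (by positivity)
    have h2 : √(Y : ℝ) ≤ x := by
      refine le_trans ?_ hx5
      rw [Real.sqrt_le_left (by positivity)]
      exact aux2 _ hYr
    have h3 := Real.log_le_log (Real.sqrt_pos.2 hY0) h2
    rw [Real.log_sqrt hY0.le] at h3
    exact h3
  have hEs := err_small h A kW kP L Y ((Y : ℝ) ^ (θ + κ)) f c2 CP E2 x R (2 * A) D (Real.log D)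
    (Real.log x ^ (2 * A)) a10 hY0 hf hc20 hA hCP a3 a4 (by rwa [Real.rpow_one] at a5) (by
      refine herr.trans ?_
      rw [hlZ]
      apply mul_le_mul_of_nonneg_left _ (by positivity)
      apply add_le_add_left
      apply add_le_add_right
      apply mul_le_mul_of_nonneg_left _ (by positivity)
      have h2 := HP Z (by omega) υ
      rwa [hlZ] at h2) hx0.le hxY hR1 hR2 hlx hDle (Nat.cast_nonneg _) hlD hlD0
  -- the main term
  set W : ℝ := ∏ p ∈ PZ Z ε₁, (1 - dens F m M p) with hW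
  have hWlow : cW / (h * L) ^ kW ≤ W := by
    have h2 := HW Z hZ1 M hadm
    rwa [hlZ] at h2
  have hW0 : 0 < W := lt_of_lt_of_le (by positivity) hWlow
  have hXlow : Y / (10 * L * Nat.totient m) ≤ X := by
    have h2 := hpc x hxx1
    have hlx1 : Real.log x ≤ L := Real.log_le_log hx0 hxY
    have hlx0 : 0 < Real.log x := Real.log_pos (by linarith)
    rw [hX, div_le_div_iff₀ (by positivity) hφ0]
    have h3 : (Y : ℝ) / (10 * L) ≤ pc x := (aux3 _ _ _ _ hY0 hx5 hlx0 hlx1).trans h2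
    rw [div_le_iff₀ (by positivity)] at h3
    calc (Y : ℝ) * Nat.totient m ≤ (pc x * (10 * L)) * Nat.totient m :=
          mul_le_mul_of_nonneg_right h3 hφ0.le
      _ = _ := by ring
  have hXW : c2 * Y / L ^ (kW + 1) ≤ X * W := by
    calc c2 * Y / L ^ (kW + 1) = (Y / (10 * L * Nat.totient m)) * (cW / (h * L) ^ kW) := by
          rw [hc2, mul_pow, pow_succ]
          field_simp
      _ ≤ X * W := mul_le_mul hXlow hWlow (by positivity) hX0
  -- the squares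
  set Bad := (Icc 1 (3 * Y)).filter (fun n : ℕ => ∃ q ∈ pr Z ζ υ, (q : ℤ) ^ 2 ∣ F.eval (n : ℤ)) with hBad
  have hBadc : (Bad.card : ℝ) ≤ f / 4 * (c2 * Y / L ^ (kW + 1)) := by
    have h2 := HS Z hZ2 (3 * Y)
    have hζh : (h : ℝ) * ζ = θ / 4 := by rw [hζ, mul_div_assoc', hhτ]
    rw [hZpow, hZpow, hζh] at h2
    refine h2.trans ?_
    push_cast
    have hfc : 0 < f * c2 := by positivity
    have hKS : (0 : ℝ) ≤ KS := Nat.cast_nonneg _
    have h3 : (KS : ℝ) * (2 * (3 * Y) / (Y : ℝ) ^ (θ / 4)) ≤ f / 8 * (c2 * Y / L ^ (kW + 1)) := by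
      have e1 : (Y : ℝ) / (Y : ℝ) ^ (θ / 4) = (Y : ℝ) ^ (1 - θ / 4) := by
        rw [Real.rpow_sub hY0, Real.rpow_one]
      have e2 : (KS : ℝ) * (2 * (3 * Y) / (Y : ℝ) ^ (θ / 4)) =
          (48 * KS / (f * c2) * L ^ (kW + 1) * (Y : ℝ) ^ (1 - θ / 4)) *
            (f * c2 / (8 * L ^ (kW + 1))) := by
        rw [← e1]
        field_simp
        ring
      rw [e2]
      rw [Real.rpow_one] at a6
      calc _ ≤ Y * (f * c2 / (8 * L ^ (kW + 1))) := mul_le_mul_of_nonneg_right a6 (by positivity)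
        _ = _ := by field_simp
    have h4 : (KS : ℝ) * (Y : ℝ) ^ ((h : ℝ) * υ) ≤ f / 8 * (c2 * Y / L ^ (kW + 1)) := by
      have e2 : (KS : ℝ) * (Y : ℝ) ^ ((h : ℝ) * υ) =
          (8 * KS / (f * c2) * L ^ (kW + 1) * (Y : ℝ) ^ ((h : ℝ) * υ)) *
            (f * c2 / (8 * L ^ (kW + 1))) := by
        field_simp
      rw [e2]
      rw [Real.rpow_one] at a7
      calc _ ≤ Y * (f * c2 / (8 * L ^ (kW + 1))) := mul_le_mul_of_nonneg_right a7 (by positivity)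
        _ = _ := by field_simp
    calc (KS : ℝ) * (2 * (3 * Y) / (Y : ℝ) ^ (θ / 4) + (Y : ℝ) ^ ((h : ℝ) * υ)) =
        KS * (2 * (3 * Y) / (Y : ℝ) ^ (θ / 4)) + KS * (Y : ℝ) ^ ((h : ℝ) * υ) := by ring
      _ ≤ _ := by linarith
  -- the good arguments
  have hsub : (J.filter (fun j => 0 < WW Z ζ υ lam (lam / υ) (a j))) ⊆
      goodN F m M x (3 * Y) r ((Y : ℝ) ^ (θ / 4)) ∪ Bad := by
    intro n hn
    rw [mem_filter] at hn
    obtain ⟨hnJ, hnW⟩ := hn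
    rw [mem_union]
    by_cases hbad : n ∈ Bad
    · exact Or.inr hbad
    · left
      have hnJ' := hnJ
      rw [hJ, JJ, mem_filter, mem_Icc] at hnJ'
      obtain ⟨⟨hn1, hn3⟩, p, hp, hpx, hpn⟩ := hnJ'
      -- size of `n`
      have hbig : |(t0 : ℝ)| + 2 ≤ n := by
        have h2 : (m : ℝ) * n = ((M : ℤ) : ℝ) - p := by
          have h3 : ((m : ℤ) * n : ℤ) = M - p := by linarith
          exact_mod_cast h3
        have h3 : (p : ℝ) ≤ x := by exact_mod_cast hpx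
        have h4 : (x : ℝ) ≤ Y / 4 := by
          have h5 : 4 * x ≤ Y := by omega
          have h6 : 4 * (x : ℝ) ≤ Y := by exact_mod_cast h5
          linarith
        have h5 : (Y : ℝ) ≤ 2 * ((M : ℤ) : ℝ) := by exact_mod_cast hM1
        have h6 : (m : ℝ) * (|(t0 : ℝ)| + 2) ≤ m * n := by
          rw [h2]
          linarith
        exact le_of_mul_le_mul_left h6 (by linarith)
      have hF0 : 0 < F.eval (n : ℤ) := by
        have h2 : t0 ≤ (n : ℤ) := by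
          have h3 : (t0 : ℝ) ≤ n := by
            have := le_abs_self (t0 : ℝ)
            linarith
          exact_mod_cast h3
        have h3 := hgr (n : ℤ) h2
        have h4 : (1 : ℤ) ≤ n := by exact_mod_cast hn1
        omega
      have ha0 : a n ≠ 0 := by
        simp only [ha]
        omega
      have haS : ((a n : ℕ) : ℝ) ≤ (Z : ℝ) ^ Sr := by
        have h2 := hC (n : ℤ) (by exact_mod_cast hn1)
        have h3 : ((a n : ℕ) : ℝ) = ((|F.eval (n : ℤ)| : ℤ) : ℝ) := by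
          simp only [ha]
          rw [Nat.cast_natAbs]
        rw [h3, hZpow]
        have hn3r : (n : ℝ) ≤ 3 * Y := by exact_mod_cast hn3
        have hCr : (1 : ℝ) ≤ C := by exact_mod_cast hC1
        calc ((|F.eval (n : ℤ)| : ℤ) : ℝ) ≤ ((C * (n : ℤ) ^ h : ℤ) : ℝ) := by exact_mod_cast h2
          _ = C * (n : ℝ) ^ h := by push_cast; rfl
          _ ≤ C * (3 * Y : ℝ) ^ h := by
              apply mul_le_mul_of_nonneg_left _ (by linarith)
              exact pow_le_pow_left₀ (Nat.cast_nonneg _) hn3r h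
          _ = C * 3 ^ h * L ^ 0 * (Y : ℝ) ^ (h : ℝ) := by
              rw [mul_pow, Real.rpow_natCast, pow_zero]; ring
          _ ≤ _ := a8
      have hal := almost Z (by omega) ζ υ lam Sr r l1 hυ0 hυ1 l3 l5 (a n) ha0 haS hnW (by
        intro q hq hqd
        apply hbad
        rw [hBad, mem_filter, mem_Icc]
        refine ⟨⟨hn1, hn3⟩, q, hq, ?_⟩
        have h2 : ((q ^ 2 : ℕ) : ℤ) ∣ F.eval (n : ℤ) := Int.natCast_dvd.2 hqd
        push_cast at h2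
        exact h2)
      unfold goodN
      rw [mem_filter]
      refine ⟨hnJ, hF0, hal.1, fun p hp hpd => ?_⟩
      have h2 := hal.2 p hp hpd
      have hζh : (h : ℝ) * ζ = θ / 4 := by rw [hζ, mul_div_assoc', hhτ]
      rwa [hZpow, hζh] at h2
  have hcard : ((J.filter (fun j => 0 < WW Z ζ υ lam (lam / υ) (a j))).card : ℝ) ≤
      ((goodN F m M x (3 * Y) r ((Y : ℝ) ^ (θ / 4))).card : ℝ) + Bad.card := by
    exact_mod_cast (card_le_card hsub).trans (card_union_le _ _)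
  -- conclusion
  have hfin : f / 2 * (X * W) ≤ ((goodN F m M x (3 * Y) r ((Y : ℝ) ^ (θ / 4))).card : ℝ) := by
    have h2 : f / 4 * (c2 * Y / L ^ (kW + 1)) ≤ f / 4 * (X * W) :=
      mul_le_mul_of_nonneg_left hXW (by positivity)
    have h3 : f * X * W = f * (X * W) := by ring
    rw [h3] at h1
    linarith
  refine le_trans ?_ hfin
  calc f / (20 * Nat.totient m) * (Y / L) * W = f / 2 * ((Y / (10 * L * Nat.totient m)) * W) := by
        field_simp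
        ring
    _ ≤ f / 2 * (X * W) := by
        apply mul_le_mul_of_nonneg_left _ (by positivity)
        exact mul_le_mul_of_nonneg_right hXlow hW0.le

end Pool.Agent.J4.H29.SP
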