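import Pool.Agent.Y772.HC.Mer
import Pool.Agent.H474R2.GE.RhoHoms
import Pool.Agent.H474R2.PG.MertensF
import Pool.Agent.H921R2.TatePole.Homs
import Pool.Agent.W23.DC.Defs
import Pool.Agent.Y882.Core

/-! Mertens' theorem with the asymptotic constant for the numbers of roots of an irreducible polynomial. -/

set_option autoImplicit false

namespace Pool.Agent.J4.H29.SP

open Polynomial Finset Filter Topology NumberField
open Pool.Agent.H474R2.PG
open scoped ArithmeticFunction.vonMangoldt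

section homs

variable {K : Type} [Field K] [NumberField K]

/-- homomorphisms to `𝔽_p` and ideals of norm `p` -/
theorem card_ideals {p : ℕ} (hp : p.Prime) :
    Nat.card (𝓞 K →+* ZMod p) = {𝔞 : Ideal (𝓞 K) | Ideal.absNorm 𝔞 = p}.ncard := by
  have : Fact p.Prime := ⟨hp⟩
  rw [← Nat.card_coe_set_eq]
  have hcard : ∀ φ : 𝓞 K →+* ZMod p, Ideal.absNorm (RingHom.ker φ) = p := by
    intro φ
    have e := RingHom.quotientKerEquivOfSurjective (ZMod.ringHom_surjective φ)
    have h1 : Nat.card (𝓞 K ⧸ RingHom.ker φ) = Nat.card (ZMod p) := Nat.card_congr e.toEquiv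
    rw [Nat.card_zmod] at h1
    rw [Ideal.absNorm_apply, Submodule.cardQuot_apply]
    exact h1
  refine Nat.card_congr (Equiv.ofBijective
    (fun φ : 𝓞 K →+* ZMod p => (⟨RingHom.ker φ, hcard φ⟩ :
      {𝔞 : Ideal (𝓞 K) | Ideal.absNorm 𝔞 = p})) ⟨?_, ?_⟩)
  · intro φ ψ h
    apply Pool.Agent.H921R2.TatePole.hom_ext_of_ker
    exact congrArg Subtype.val h
  · rintro ⟨I, hI⟩
    have hI' : Ideal.absNorm I = p := hI
    have hcI : Nat.card (𝓞 K ⧸ I) = p := by
      rw [← hI', Ideal.absNorm_apply, Submodule.cardQuot_apply]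
    have hfin : Finite (𝓞 K ⧸ I) := Nat.finite_of_card_ne_zero (by rw [hcI]; exact hp.ne_zero)
    have := Fintype.ofFinite (𝓞 K ⧸ I)
    have hc' : Fintype.card (𝓞 K ⧸ I) = p := by
      rw [← Nat.card_eq_fintype_card]; exact hcI
    set e := ZMod.ringEquivOfPrime (𝓞 K ⧸ I) hp hc' with he
    refine ⟨(e.symm : 𝓞 K ⧸ I →+* ZMod p).comp (Ideal.Quotient.mk I), ?_⟩
    apply Subtype.ext
    change RingHom.ker ((e.symm : 𝓞 K ⧸ I →+* ZMod p).comp (Ideal.Quotient.mk I)) = I
    ext x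
    rw [RingHom.mem_ker, RingHom.comp_apply]
    rw [RingEquiv.coe_toRingHom, map_eq_zero_iff _ e.symm.injective]
    exact Ideal.Quotient.eq_zero_iff_mem

open Pool.Agent.Y773 Pool.Agent.Y767 Pool.Agent.Y772.SL Pool.Agent.Y772.NZ Pool.Agent.Y772
  Pool.Agent.Y772.HC in
theorem cK_homs {p : ℕ} (hp : p.Prime) : ‖cK K p‖ ^ 2 = Nat.card (𝓞 K →+* ZMod p) := by
  classical
  have hfin : {𝔞 : Ideal (𝓞 K) | Ideal.absNorm 𝔞 = p}.Finite := Ideal.finite_setOfPred_absNorm_eq p
  have h2 : ∀ 𝔞 ∈ hfin.toFinset, 𝔞 ≠ 0 := by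
    intro 𝔞 h𝔞
    rw [Set.Finite.mem_toFinset] at h𝔞
    exact ne_bot_of_norm hp h𝔞
  rw [card_ideals hp, Set.ncard_eq_toFinset_card _ hfin,
    cK_prime hp, DK.cc_prime (one K) hp, finsum_mem_eq_finite_toFinset_sum _ hfin,
    Finset.sum_congr rfl fun 𝔞 h => one_ne K (h2 𝔞 h), Finset.sum_const, nsmul_eq_mul, mul_one,
    Complex.natCast_re]

theorem nonprime_sum : ∃ C : ℝ, 0 ≤ C ∧ ∀ F : Finset ℕ, (∀ n ∈ F, ¬ n.Prime) →
    ∑ n ∈ F, Λ n / n ≤ C := by
  have h := ArithmeticFunction.vonMangoldt.summable_residueClass_non_primes_div (q := 1)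
    (a := (0 : ZMod 1))
  refine ⟨∑' n : ℕ, (if n.Prime then 0 else
      ArithmeticFunction.vonMangoldt.residueClass (0 : ZMod 1) n) / n, tsum_nonneg ?_, fun F hF => ?_⟩
  · intro n
    split_ifs
    · simp
    · exact div_nonneg (ArithmeticFunction.vonMangoldt.residueClass_nonneg _ _) (Nat.cast_nonneg _)
  · refine le_trans (le_of_eq ?_) (h.sum_le_tsum F ?_)
    · refine Finset.sum_congr rfl fun n hn => ?_
      rw [if_neg (hF n hn)]
      congr 1
      unfold ArithmeticFunction.vonMangoldt.residueClass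
      rw [Set.indicator_of_mem]
      exact Subsingleton.elim _ _
    · intro n _
      split_ifs
      · simp
      · exact div_nonneg (ArithmeticFunction.vonMangoldt.residueClass_nonneg _ _)
          (Nat.cast_nonneg _)

open Pool.Agent.Y767 Pool.Agent.Y772.HC in
/-- Mertens' theorem for the homomorphisms to prime fields -/
theorem sum_homs (K : Type) [Field K] [NumberField K] :
    Tendsto (fun x : ℝ => (∑ p ∈ PR x, (Nat.card (𝓞 K →+* ZMod p) : ℝ) * Real.log p / p) /
      Real.log x) atTop (𝓝 1) := by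
  obtain ⟨C1, hC1, hn⟩ := nonprime_sum
  have hT := t_mer K
  unfold W388.SelE at hT
  set d : ℝ := (Module.finrank ℚ K : ℝ) with hd
  have hlow : Tendsto (fun x : ℝ => (∑ n ∈ Finset.Icc 1 ⌊x⌋₊, Λ n * ‖cK K n‖ ^ 2 / n) / Real.log x -
      d ^ 2 * C1 / Real.log x) atTop (𝓝 1) := by
    have h0 : Tendsto (fun x : ℝ => d ^ 2 * C1 / Real.log x) atTop (𝓝 0) :=
      Tendsto.div_atTop tendsto_const_nhds Real.tendsto_log_atTop
    have := hT.sub h0
    rwa [sub_zero] at this
  have hsplit : ∀ x : ℝ, ∑ n ∈ Finset.Icc 1 ⌊x⌋₊, Λ n * ‖cK K n‖ ^ 2 / n =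
      ∑ p ∈ PR x, (Nat.card (𝓞 K →+* ZMod p) : ℝ) * Real.log p / p +
      ∑ n ∈ (Finset.Icc 1 ⌊x⌋₊).filter (fun n => ¬ n.Prime), Λ n * ‖cK K n‖ ^ 2 / n := by
    intro x
    rw [← Finset.sum_filter_add_sum_filter_not (Finset.Icc 1 ⌊x⌋₊) Nat.Prime]
    congr 1
    unfold PR
    refine Finset.sum_congr rfl fun p hp => ?_
    have hpp := (Finset.mem_filter.1 hp).2
    rw [cK_homs hpp, ArithmeticFunction.vonMangoldt_apply_prime hpp, mul_comm]
  have hnp : ∀ x : ℝ, 0 ≤ ∑ n ∈ (Finset.Icc 1 ⌊x⌋₊).filter (fun n => ¬ n.Prime),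
      Λ n * ‖cK K n‖ ^ 2 / n ∧ ∑ n ∈ (Finset.Icc 1 ⌊x⌋₊).filter (fun n => ¬ n.Prime),
      Λ n * ‖cK K n‖ ^ 2 / n ≤ d ^ 2 * C1 := by
    intro x
    constructor
    · refine Finset.sum_nonneg fun n _ => ?_
      have h6 : 0 ≤ Λ n := ArithmeticFunction.vonMangoldt_nonneg
      positivity
    · calc ∑ n ∈ (Finset.Icc 1 ⌊x⌋₊).filter (fun n => ¬ n.Prime), Λ n * ‖cK K n‖ ^ 2 / n
            ≤ ∑ n ∈ (Finset.Icc 1 ⌊x⌋₊).filter (fun n => ¬ n.Prime), d ^ 2 * (Λ n / n) := by
              refine Finset.sum_le_sum fun n _ => ?_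
              have h5 : ‖cK K n‖ ^ 2 ≤ d ^ 2 := by
                rw [hd]
                exact pow_le_pow_left₀ (norm_nonneg _) (cK_le n) 2
              have h6 : 0 ≤ Λ n / n :=
                div_nonneg ArithmeticFunction.vonMangoldt_nonneg (Nat.cast_nonneg _)
              calc Λ n * ‖cK K n‖ ^ 2 / n = ‖cK K n‖ ^ 2 * (Λ n / n) := by ring
                _ ≤ _ := mul_le_mul_of_nonneg_right h5 h6
          _ = d ^ 2 * ∑ n ∈ (Finset.Icc 1 ⌊x⌋₊).filter (fun n => ¬ n.Prime), Λ n / n := by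
              rw [Finset.mul_sum]
          _ ≤ d ^ 2 * C1 := by
              refine mul_le_mul_of_nonneg_left (hn _ fun n hn => (Finset.mem_filter.1 hn).2) ?_
              positivity
  refine tendsto_of_tendsto_of_tendsto_of_le_of_le' hlow hT ?_ ?_
  · filter_upwards [eventually_gt_atTop 1] with x hx
    have hl : 0 < Real.log x := Real.log_pos hx
    rw [← sub_div]
    apply div_le_div_of_nonneg_right _ hl.le
    rw [hsplit]
    linarith [(hnp x).2]
  · filter_upwards [eventually_gt_atTop 1] with x hx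
    have hl : 0 < Real.log x := Real.log_pos hx
    apply div_le_div_of_nonneg_right _ hl.le
    rw [hsplit]
    linarith [(hnp x).1]

end homs

/-- Mertens' theorem for the numbers of roots -/
theorem rho_log (f : ℤ[X]) (hf : Irreducible f) (hd : 0 < f.natDegree) :
    Tendsto (fun x : ℝ => (∑ p ∈ PR x, (rho f p : ℝ) / p * Real.log p) / Real.log x)
      atTop (𝓝 1) := by
  obtain ⟨K1, iF1, iN1, B1, hB1⟩ := homs_le_rho f hf hd
  obtain ⟨K2, iF2, iN2, B2, hB2⟩ := Pool.Agent.H474R2.GE.rho_le_homs f hf hd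
  have h1 := sum_homs K1
  have h2 := sum_homs K2
  have hterm : ∀ (a : ℕ → ℝ) (p : ℕ), 0 ≤ a p → 0 ≤ a p * Real.log p / p := by
    intro a p ha
    have := Real.log_natCast_nonneg p
    positivity
  -- comparison
  have hcomp : ∀ (a b : ℕ → ℝ) (B : ℕ), (∀ p, 0 ≤ a p) → (∀ p, 0 ≤ b p) →
      (∀ p : ℕ, p.Prime → B < p → a p ≤ b p) → ∀ x : ℝ,
      ∑ p ∈ PR x, a p * Real.log p / p ≤ ∑ p ∈ PR B, a p * Real.log p / p +
        ∑ p ∈ PR x, b p * Real.log p / p := by
    intro a b B ha hb hab x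
    rw [← Finset.sum_filter_add_sum_filter_not (PR x) (fun p => p ≤ B)]
    apply add_le_add
    · apply Finset.sum_le_sum_of_subset_of_nonneg
      · intro p hp
        rw [Finset.mem_filter, PR, Finset.mem_filter, Finset.mem_Icc] at hp
        rw [PR, Finset.mem_filter, Finset.mem_Icc, Nat.floor_natCast]
        exact ⟨⟨hp.1.1.1, hp.2⟩, hp.1.2⟩
      · intro p _ _
        exact hterm a p (ha p)
    · calc ∑ p ∈ (PR x).filter (fun p => ¬ p ≤ B), a p * Real.log p / p
          ≤ ∑ p ∈ (PR x).filter (fun p => ¬ p ≤ B), b p * Real.log p / p := by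
            apply Finset.sum_le_sum
            intro p hp
            rw [Finset.mem_filter] at hp
            have hpp : p.Prime := (Finset.mem_filter.1 hp.1).2
            have h3 := hab p hpp (not_le.1 hp.2)
            have := Real.log_natCast_nonneg p
            gcongr
        _ ≤ ∑ p ∈ PR x, b p * Real.log p / p := by
            apply Finset.sum_le_sum_of_subset_of_nonneg (Finset.filter_subset _ _)
            intro p _ _
            exact hterm b p (hb p)
  set C1 : ℝ := ∑ p ∈ PR B1, (Nat.card (𝓞 K1 →+* ZMod p) : ℝ) * Real.log p / p with hC1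
  set C2 : ℝ := ∑ p ∈ PR B2, (rho f p : ℝ) * Real.log p / p with hC2
  have e : ∀ x : ℝ, ∑ p ∈ PR x, (rho f p : ℝ) / p * Real.log p =
      ∑ p ∈ PR x, (rho f p : ℝ) * Real.log p / p := by
    intro x
    refine Finset.sum_congr rfl fun p _ => by ring
  have l0 : ∀ C : ℝ, Tendsto (fun x : ℝ => C / Real.log x) atTop (𝓝 0) := fun C =>
    Tendsto.div_atTop tendsto_const_nhds Real.tendsto_log_atTop
  have hlow := h1.sub (l0 C1)
  have hup := h2.add (l0 C2)
  rw [sub_zero] at hlow
  rw [add_zero] at hup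
  refine tendsto_of_tendsto_of_tendsto_of_le_of_le' hlow hup ?_ ?_
  · filter_upwards [eventually_gt_atTop 1] with x hx
    have hl : 0 < Real.log x := Real.log_pos hx
    rw [← sub_div, e]
    apply div_le_div_of_nonneg_right _ hl.le
    have := hcomp (fun p => (Nat.card (𝓞 K1 →+* ZMod p) : ℝ)) (fun p => (rho f p : ℝ)) B1
      (fun p => by positivity) (fun p => by positivity)
      (fun p hp hB => by exact_mod_cast hB1 p hp hB) x
    linarith
  · filter_upwards [eventually_gt_atTop 1] with x hx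
    have hl : 0 < Real.log x := Real.log_pos hx
    rw [← add_div, e]
    apply div_le_div_of_nonneg_right _ hl.le
    have := hcomp (fun p => (rho f p : ℝ)) (fun p => (Nat.card (𝓞 K2 →+* ZMod p) : ℝ)) B2
      (fun p => by positivity) (fun p => by positivity)
      (fun p hp hB => by exact_mod_cast hB2 p hp hB) x
    linarith

end Pool.Agent.J4.H29.SP
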