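import Mathlib
import Pool.Agent.H474R2.PG.Defs
import Pool.Agent.W23.DC.Defs
import Pool.Agent.Y882.Core

/-! Regularity of densities from the sums with logarithms. -/

set_option autoImplicit false

namespace Pool.Agent.J4.H29.SP

open Finset Filter Topology
open Pool.Agent.H474R2.PG
open Pool.Agent.W23.DC
open Pool.Agent.Y882

theorem tt_lt' (Y p : ℕ) (v : ℝ) (hY : 2 ≤ Y) (hp : 0 < p) : tt Y p < v ↔ (p : ℝ) < (Y : ℝ) ^ v := by
  have hY1 : (1 : ℝ) < Y := by exact_mod_cast hY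
  have hY0 : (0 : ℝ) < Y := by linarith
  have hL : 0 < Real.log Y := Real.log_pos hY1
  have hp0 : (0 : ℝ) < p := by exact_mod_cast hp
  unfold tt
  rw [div_lt_iff₀ hL, ← Real.log_rpow hY0, Real.log_lt_log_iff hp0 (by positivity)]

open Classical in
/-- the sums over `p < Y ^ t` -/
theorem sum_PZ (g : ℕ → ℝ) (hg : ∀ p, 0 ≤ g p)
    (hT : Tendsto (fun x : ℝ => (∑ p ∈ PR x, g p * Real.log p) / Real.log x) atTop (𝓝 1))
    (ε₁ κ : ℝ) (hε : 0 < ε₁) (hκ : 0 < κ) : ∃ Y0 : ℕ, ∀ Y : ℕ, Y0 ≤ Y → ∀ t : ℝ, ε₁ ≤ t → t ≤ 1 →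
      |∑ p ∈ PZ Y t, g p * Real.log p - t * Real.log Y| ≤ κ * (t * Real.log Y) := by
  have h1 : ∀ᶠ x : ℝ in atTop, |(∑ p ∈ PR x, g p * Real.log p) / Real.log x - 1| < κ / 2 ∧ 1 < x := by
    have := (Metric.tendsto_nhds.1 hT (κ / 2) (by linarith)).and (eventually_gt_atTop 1)
    filter_upwards [this] with x hx
    rw [Real.dist_eq] at hx
    exact hx
  obtain ⟨x0, hx0⟩ := eventually_atTop.1 h1
  have ev1 : ∀ᶠ Y : ℕ in atTop, 2 * max x0 1 ≤ (Y : ℝ) ^ ε₁ :=
    ((tendsto_rpow_atTop hε).comp tendsto_natCast_atTop_atTop).eventually_ge_atTop _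
  have ev2 : ∀ᶠ Y : ℕ in atTop, 4 / (κ * ε₁) ≤ Real.log Y :=
    (Real.tendsto_log_atTop.comp tendsto_natCast_atTop_atTop).eventually_ge_atTop _
  obtain ⟨Y1, hY1⟩ := eventually_atTop.1 (ev1.and (ev2.and (eventually_ge_atTop 3)))
  refine ⟨Y1, fun Y hY t ht1 ht2 => ?_⟩
  obtain ⟨e1, e2, e3⟩ := hY1 Y hY
  have hYr : (3 : ℝ) ≤ Y := by exact_mod_cast e3
  have hY0 : (0 : ℝ) < Y := by linarith
  have hL : 0 < Real.log Y := Real.log_pos (by linarith)
  have hYt : (Y : ℝ) ^ ε₁ ≤ (Y : ℝ) ^ t := Real.rpow_le_rpow_of_exponent_le (by linarith) ht1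
  have hm1 := le_max_left x0 1
  have hm2 := le_max_right x0 1
  have hx1 : x0 ≤ (Y : ℝ) ^ t := by linarith
  have hx2 : x0 ≤ (Y : ℝ) ^ t / 2 := by linarith
  obtain ⟨a1, a2⟩ := hx0 _ hx1
  obtain ⟨b1, b2⟩ := hx0 _ hx2
  have hlog1 : Real.log ((Y : ℝ) ^ t) = t * Real.log Y := Real.log_rpow hY0 t
  have hlog2 : Real.log ((Y : ℝ) ^ t / 2) = t * Real.log Y - Real.log 2 := by
    rw [Real.log_div (by positivity) (by norm_num), hlog1]
  have ht0 : 0 < t := by linarith
  have htL : 0 < t * Real.log Y := by positivity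
  have hl2 : 0 < Real.log ((Y : ℝ) ^ t / 2) := Real.log_pos b2
  have hsub1 : PZ Y t ⊆ PR ((Y : ℝ) ^ t) := by
    intro p hp
    unfold PZ at hp
    rw [mem_filter, mem_Icc] at hp
    unfold PR
    rw [mem_filter, mem_Icc]
    refine ⟨⟨hp.1.1, Nat.le_floor ?_⟩, hp.2.1⟩
    exact ((tt_lt' Y p t (by omega) (by omega)).1 hp.2.2).le
  have hsub2 : PR ((Y : ℝ) ^ t / 2) ⊆ PZ Y t := by
    intro p hp
    unfold PR at hp
    rw [mem_filter, mem_Icc] at hp
    have h3 : (p : ℝ) ≤ (Y : ℝ) ^ t / 2 := (Nat.le_floor_iff (by positivity)).1 hp.1.2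
    have h4 : (0 : ℝ) < (Y : ℝ) ^ t := by positivity
    have h5 : (Y : ℝ) ^ t ≤ Y := by
      calc (Y : ℝ) ^ t ≤ (Y : ℝ) ^ (1 : ℝ) := Real.rpow_le_rpow_of_exponent_le (by linarith) ht2
        _ = Y := Real.rpow_one _
    unfold PZ
    rw [mem_filter, mem_Icc]
    refine ⟨⟨hp.1.1, ?_⟩, hp.2, (tt_lt' Y p t (by omega) (by omega)).2 (by linarith)⟩
    have : (p : ℝ) ≤ Y := by linarith
    exact_mod_cast this
  have hnn : ∀ p : ℕ, 0 ≤ g p * Real.log p := fun p => mul_nonneg (hg p) (Real.log_natCast_nonneg p)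
  have c1 : ∑ p ∈ PZ Y t, g p * Real.log p ≤ ∑ p ∈ PR ((Y : ℝ) ^ t), g p * Real.log p :=
    sum_le_sum_of_subset_of_nonneg hsub1 fun p _ _ => hnn p
  have c2 : ∑ p ∈ PR ((Y : ℝ) ^ t / 2), g p * Real.log p ≤ ∑ p ∈ PZ Y t, g p * Real.log p :=
    sum_le_sum_of_subset_of_nonneg hsub2 fun p _ _ => hnn p
  rw [hlog1, abs_lt, sub_lt_iff_lt_add, lt_sub_iff_add_lt, div_lt_iff₀ htL, lt_div_iff₀ htL] at a1
  rw [abs_lt, sub_lt_iff_lt_add, lt_sub_iff_add_lt, div_lt_iff₀ hl2, lt_div_iff₀ hl2, hlog2] at b1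
  have hlt : Real.log 2 ≤ 1 := by linarith [Real.log_two_lt_d9]
  have hl20 : 0 < Real.log 2 := Real.log_pos (by norm_num)
  have hbig : 2 ≤ κ / 2 * (t * Real.log Y) := by
    rw [div_le_iff₀ (by positivity)] at e2
    have h6 : ε₁ * Real.log Y ≤ t * Real.log Y := mul_le_mul_of_nonneg_right ht1 hL.le
    have h7 := mul_le_mul_of_nonneg_left h6 hκ.le
    nlinarith
  rw [abs_le]
  constructor
  · have h8 : (-(κ / 2) + 1) * (t * Real.log Y - Real.log 2) < ∑ p ∈ PZ Y t, g p * Real.log p :=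
      b1.1.trans_le c2
    rcases le_or_gt κ 2 with hk | hk
    · nlinarith
    · have h9 : 0 ≤ ∑ p ∈ PZ Y t, g p * Real.log p := sum_nonneg fun p _ => hnn p
      nlinarith
  · have h8 := c1.trans a1.2.le
    nlinarith

theorem pr_mem (Y : ℕ) (u v : ℝ) (p : ℕ) :
    p ∈ pr Y u v ↔ (1 ≤ p ∧ p ≤ Y) ∧ p.Prime ∧ u ≤ tt Y p ∧ tt Y p < v := by
  unfold pr
  rw [mem_filter, mem_Icc]

/-- **Regularity from the sums with logarithms.** -/
theorem mer_of_log (g : ℕ → ℝ) (hg : ∀ p, 0 ≤ g p)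
    (hT : Tendsto (fun x : ℝ => (∑ p ∈ PR x, g p * Real.log p) / Real.log x) atTop (𝓝 1))
    (ε₁ υ η : ℝ) (hε : 0 < ε₁) (hυ : υ ≤ 1) (hη : 0 < η) : ∃ Y0 : ℕ, ∀ Y : ℕ, Y0 ≤ Y →
      Mer (pr Y ε₁ υ) (tt Y) g ε₁ υ η := by
  classical
  obtain ⟨J, hJ1, hJ2⟩ : ∃ J : ℕ, 0 < J ∧ 2 / (η * ε₁ ^ 2) ≤ J := by
    obtain ⟨J, hJ⟩ := exists_nat_ge (max 1 (2 / (η * ε₁ ^ 2)))
    refine ⟨J, ?_, (le_max_right _ _).trans hJ⟩
    have : (1 : ℝ) ≤ J := (le_max_left _ _).trans hJ
    exact_mod_cast this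
  have hJ0 : (0 : ℝ) < J := by exact_mod_cast hJ1
  set κ : ℝ := η * ε₁ / (4 * J) with hκ
  have hκ0 : 0 < κ := by positivity
  obtain ⟨Y0, HY⟩ := sum_PZ g hg hT ε₁ κ hε hκ0
  refine ⟨max Y0 3, fun Y hY a b ha hab hb => ?_⟩
  have hY0 : Y0 ≤ Y := (le_max_left _ _).trans hY
  have hY3 : 3 ≤ Y := (le_max_right _ _).trans hY
  have hYr : (3 : ℝ) ≤ Y := by exact_mod_cast hY3
  have hL : 0 < Real.log Y := Real.log_pos (by linarith)
  have hset : (pr Y ε₁ υ).filter (fun p => a ≤ tt Y p ∧ tt Y p < b) = pr Y a b := by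
    ext p
    rw [mem_filter, pr_mem, pr_mem]
    constructor
    · rintro ⟨⟨h1, h2, h3, h4⟩, h5, h6⟩
      exact ⟨h1, h2, h5, h6⟩
    · rintro ⟨h1, h2, h5, h6⟩
      exact ⟨⟨h1, h2, ha.trans h5, h6.trans_le hb⟩, h5, h6⟩
  rw [hset]
  -- one cell
  have cell : ∀ u δ : ℝ, ε₁ ≤ u → 0 ≤ δ → u + δ ≤ 1 →
      |∑ p ∈ pr Y u (u + δ), g p - Real.log ((u + δ) / u)| ≤ δ ^ 2 / ε₁ ^ 2 + 2 * κ / ε₁ := by
    intro u δ hu hδ huδ
    set v := u + δ with hv
    have hu0 : 0 < u := by linarith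
    have hv0 : 0 < v := by linarith
    have hdisj : PZ Y v = PZ Y u ∪ pr Y u v := by
      ext p
      rw [mem_union, pr_mem]
      unfold PZ
      rw [mem_filter, mem_filter, mem_Icc]
      constructor
      · rintro ⟨h1, h2, h3⟩
        rcases lt_or_ge (tt Y p) u with h4 | h4
        · exact Or.inl ⟨h1, h2, h4⟩
        · exact Or.inr ⟨h1, h2, h4, h3⟩
      · rintro (⟨h1, h2, h3⟩ | ⟨h1, h2, h3, h4⟩)
        · exact ⟨h1, h2, by linarith⟩
        · exact ⟨h1, h2, h4⟩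
    have hd2 : Disjoint (PZ Y u) (pr Y u v) := by
      rw [Finset.disjoint_left]
      intro p h1 h2
      rw [pr_mem] at h2
      unfold PZ at h1
      rw [mem_filter] at h1
      linarith [h1.2.2, h2.2.2.1]
    have hAA : ∑ p ∈ pr Y u v, g p * Real.log p =
        ∑ p ∈ PZ Y v, g p * Real.log p - ∑ p ∈ PZ Y u, g p * Real.log p := by
      rw [hdisj, sum_union hd2]
      ring
    have m1 := abs_le.1 (HY Y hY0 u hu (by linarith))
    have m2 := abs_le.1 (HY Y hY0 v (by linarith) huδ)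
    have hup : ∑ p ∈ pr Y u v, g p * (u * Real.log Y) ≤ ∑ p ∈ pr Y u v, g p * Real.log p := by
      apply sum_le_sum
      intro p hp
      rw [pr_mem] at hp
      apply mul_le_mul_of_nonneg_left _ (hg p)
      have := hp.2.2.1
      unfold tt at this
      rwa [le_div_iff₀ hL] at this
    have hlo : ∑ p ∈ pr Y u v, g p * Real.log p ≤ ∑ p ∈ pr Y u v, g p * (v * Real.log Y) := by
      apply sum_le_sum
      intro p hp
      rw [pr_mem] at hp
      apply mul_le_mul_of_nonneg_left _ (hg p)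
      have := hp.2.2.2
      unfold tt at this
      rw [div_lt_iff₀ hL] at this
      exact this.le
    rw [← sum_mul] at hup hlo
    set Sg := ∑ p ∈ pr Y u v, g p with hSg
    have hS0 : 0 ≤ Sg := sum_nonneg fun p _ => hg p
    set AA := ∑ p ∈ pr Y u v, g p * Real.log p with hAAd
    have n1 : AA ≤ (δ + 2 * κ) * Real.log Y := by
      have e1 : AA ≤ (v * Real.log Y + κ * (v * Real.log Y)) -
          (u * Real.log Y - κ * (u * Real.log Y)) := by linarith [m1.1, m2.2]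
      have e2 : (v * Real.log Y + κ * (v * Real.log Y)) - (u * Real.log Y - κ * (u * Real.log Y)) =
          (δ + κ * (u + v)) * Real.log Y := by rw [hv]; ring
      rw [e2] at e1
      refine e1.trans (mul_le_mul_of_nonneg_right ?_ hL.le)
      nlinarith
    have n2 : (δ - 2 * κ) * Real.log Y ≤ AA := by
      have e1 : (v * Real.log Y - κ * (v * Real.log Y)) -
          (u * Real.log Y + κ * (u * Real.log Y)) ≤ AA := by linarith [m1.2, m2.1]
      have e2 : (v * Real.log Y - κ * (v * Real.log Y)) - (u * Real.log Y + κ * (u * Real.log Y)) =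
          (δ - κ * (u + v)) * Real.log Y := by rw [hv]; ring
      rw [e2] at e1
      refine le_trans (mul_le_mul_of_nonneg_right ?_ hL.le) e1
      nlinarith
    have n3 : Sg * u ≤ δ + 2 * κ := by
      have : Sg * u * Real.log Y ≤ (δ + 2 * κ) * Real.log Y := by
        calc Sg * u * Real.log Y = Sg * (u * Real.log Y) := by ring
          _ ≤ AA := hup
          _ ≤ _ := n1
      exact le_of_mul_le_mul_right this hL
    have n4 : δ - 2 * κ ≤ Sg * v := by
      have : (δ - 2 * κ) * Real.log Y ≤ Sg * v * Real.log Y := by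
        calc (δ - 2 * κ) * Real.log Y ≤ AA := n2
          _ ≤ Sg * (v * Real.log Y) := hlo
          _ = _ := by ring
      exact le_of_mul_le_mul_right this hL
    have hr0 : 0 < v / u := by positivity
    have l1 : Real.log (v / u) ≤ v / u - 1 := Real.log_le_sub_one_of_pos hr0
    have l2 : 1 - (v / u)⁻¹ ≤ Real.log (v / u) := Real.one_sub_inv_le_log_of_pos hr0
    have f1 : v / u - 1 = δ / u := by rw [hv]; field_simp; ring
    have f2 : 1 - (v / u)⁻¹ = δ / v := by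
      rw [inv_div, hv]
      have : u + δ ≠ 0 := by rw [← hv]; exact hv0.ne'
      field_simp
      ring
    rw [f1] at l1
    rw [f2] at l2
    have f3 : δ / u - δ / v = δ ^ 2 / (u * v) := by
      have h1 : δ = v - u := by rw [hv]; ring
      field_simp
      rw [h1]
      ring
    have f4 : δ ^ 2 / (u * v) ≤ δ ^ 2 / ε₁ ^ 2 := by
      apply div_le_div_of_nonneg_left (by positivity) (by positivity)
      rw [sq]
      apply mul_le_mul hu (by linarith) hε.le hu0.le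
    have f5 : 2 * κ / u ≤ 2 * κ / ε₁ := div_le_div_of_nonneg_left (by positivity) hε hu
    have f6 : 2 * κ / v ≤ 2 * κ / ε₁ := div_le_div_of_nonneg_left (by positivity) hε (by linarith)
    have g1 : Sg ≤ δ / u + 2 * κ / u := by
      rw [← add_div, le_div_iff₀ hu0]
      exact n3
    have g2 : δ / v - 2 * κ / v ≤ Sg := by
      rw [← sub_div, div_le_iff₀ hv0]
      exact n4
    rw [abs_le]
    constructor <;> linarith
  -- all cells
  set δ : ℝ := (b - a) / J with hδ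
  have hδ0 : 0 ≤ δ := div_nonneg (by linarith) hJ0.le
  have hJδ : (J : ℝ) * δ = b - a := by rw [hδ]; field_simp
  have ha0 : 0 < a := by linarith
  have hall : ∀ j : ℕ, j ≤ J → |∑ p ∈ pr Y a (a + j * δ), g p - Real.log ((a + j * δ) / a)| ≤
      j * (δ ^ 2 / ε₁ ^ 2 + 2 * κ / ε₁) := by
    intro j
    induction j with
    | zero =>
      intro _
      have h1 : pr Y a (a + ((0 : ℕ) : ℝ) * δ) = ∅ := by
        rw [Finset.eq_empty_iff_forall_notMem]
        intro p hp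
        rw [pr_mem] at hp
        push_cast at hp
        linarith [hp.2.2.1, hp.2.2.2]
      rw [h1]
      push_cast
      rw [zero_mul, zero_mul, add_zero, div_self ha0.ne', Real.log_one, sum_empty, sub_zero, abs_zero]
    | succ j ih =>
      intro hj
      have ih' := ih (by omega)
      have hjJ : ((j : ℝ) + 1) * δ ≤ b - a := by
        rw [← hJδ]
        apply mul_le_mul_of_nonneg_right _ hδ0
        exact_mod_cast hj
      have hjδ : 0 ≤ (j : ℝ) * δ := by positivity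
      have hc := cell (a + j * δ) δ (by linarith) hδ0 (by linarith)
      have e1 : a + ((j + 1 : ℕ) : ℝ) * δ = a + j * δ + δ := by push_cast; ring
      rw [e1]
      have hun : pr Y a (a + j * δ + δ) = pr Y a (a + j * δ) ∪ pr Y (a + j * δ) (a + j * δ + δ) := by
        ext p
        rw [mem_union, pr_mem, pr_mem, pr_mem]
        constructor
        · rintro ⟨h1, h2, h3, h4⟩
          rcases lt_or_ge (tt Y p) (a + j * δ) with h5 | h5
          · exact Or.inl ⟨h1, h2, h3, h5⟩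
          · exact Or.inr ⟨h1, h2, h5, h4⟩
        · rintro (⟨h1, h2, h3, h4⟩ | ⟨h1, h2, h3, h4⟩)
          · exact ⟨h1, h2, h3, by linarith⟩
          · exact ⟨h1, h2, by linarith, h4⟩
      have hdj : Disjoint (pr Y a (a + j * δ)) (pr Y (a + j * δ) (a + j * δ + δ)) := by
        rw [Finset.disjoint_left]
        intro p h1 h2
        rw [pr_mem] at h1 h2
        linarith [h1.2.2.2, h2.2.2.1]
      rw [hun, sum_union hdj]
      have e2 : Real.log ((a + j * δ + δ) / a) = Real.log ((a + j * δ) / a) +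
          Real.log ((a + j * δ + δ) / (a + j * δ)) := by
        have h1 : 0 < a + j * δ := by linarith
        have h2 : 0 < a + j * δ + δ := by linarith
        rw [Real.log_div h2.ne' ha0.ne', Real.log_div h1.ne' ha0.ne', Real.log_div h2.ne' h1.ne']
        ring
      rw [e2]
      rw [abs_le] at ih' hc ⊢
      push_cast
      constructor <;> linarith [ih'.1, ih'.2, hc.1, hc.2]
  have hfin := hall J le_rfl
  rw [hJδ, show a + (b - a) = b by ring] at hfin
  refine hfin.trans ?_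
  have h1 : (J : ℝ) * (δ ^ 2 / ε₁ ^ 2) ≤ η / 2 := by
    have h2 : δ ≤ 1 / J := by
      rw [hδ]
      apply div_le_div_of_nonneg_right _ hJ0.le
      linarith
    have h3 : δ ^ 2 ≤ (1 / J) ^ 2 := pow_le_pow_left₀ hδ0 h2 2
    calc (J : ℝ) * (δ ^ 2 / ε₁ ^ 2) ≤ J * ((1 / J) ^ 2 / ε₁ ^ 2) := by gcongr
      _ = 1 / (J * ε₁ ^ 2) := by field_simp
      _ ≤ η / 2 := by
          rw [div_le_iff₀ (by positivity)] at hJ2 ⊢
          nlinarith
  have h2 : (J : ℝ) * (2 * κ / ε₁) = η / 2 := by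
    rw [hκ]
    field_simp
    norm_num
  rw [mul_add, h2]
  linarith

end Pool.Agent.J4.H29.SP
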