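import Pool.Agent.K3h31.LP.Sieve
import Pool.Agent.J4.H29.SP.Dens
import Pool.Agent.J4.H29.SP.Mer
import Pool.Agent.J4.H29.SP.Reg
import Pool.Agent.H474R2.PG.Growth

/-! Regularity of the densities. -/

set_option autoImplicit false

namespace Pool.Agent.J4.H29.SP

open Polynomial Finset Filter Topology
open Pool.Agent.H474R2.PG
open Pool.Agent.W23.DC
open Pool.Agent.Y882
open Pool.Agent.K3h31.LP (pr_facts pr_sq log_pow_le)

/-- bound for the values of a polynomial -/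
theorem eval_bound (f : ℤ[X]) : ∃ C : ℤ, 1 ≤ C ∧ ∀ M : ℤ, 1 ≤ M → |f.eval M| ≤ C * M ^ f.natDegree := by
  refine ⟨∑ i ∈ range (f.natDegree + 1), |f.coeff i| + 1, ?_, fun M hM => ?_⟩
  · have : 0 ≤ ∑ i ∈ range (f.natDegree + 1), |f.coeff i| := sum_nonneg fun _ _ => abs_nonneg _
    linarith
  · rw [eval_eq_sum_range]
    have hM0 : 0 ≤ M := by linarith
    calc |∑ i ∈ range (f.natDegree + 1), f.coeff i * M ^ i| ≤
        ∑ i ∈ range (f.natDegree + 1), |f.coeff i * M ^ i| := abs_sum_le_sum_abs _ _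
      _ ≤ ∑ i ∈ range (f.natDegree + 1), |f.coeff i| * M ^ f.natDegree := by
          apply sum_le_sum
          intro i hi
          rw [mem_range] at hi
          rw [abs_mul, abs_of_nonneg (pow_nonneg hM0 i)]
          exact mul_le_mul_of_nonneg_left (pow_le_pow_right₀ hM (by omega)) (abs_nonneg _)
      _ = (∑ i ∈ range (f.natDegree + 1), |f.coeff i|) * M ^ f.natDegree := by rw [sum_mul]
      _ ≤ _ := by
          apply mul_le_mul_of_nonneg_right _ (by positivity)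
          linarith

/-- a uniform bound for the numbers of roots -/
theorem rho_bound (f : ℤ[X]) (hf : f ≠ 0) : ∃ K : ℕ, 1 ≤ K ∧ ∀ p : ℕ, p.Prime → rho f p ≤ K := by
  obtain ⟨B, hB⟩ := rho_le f hf
  refine ⟨max (max B f.natDegree) 1, le_max_right _ _, fun p hp => ?_⟩
  rcases le_or_gt p B with h | h
  · have h1 : rho f p ≤ p := by
      unfold rho
      exact (card_filter_le _ _).trans (by rw [card_range])
    exact h1.trans (h.trans ((le_max_left _ _).trans (le_max_left _ _)))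
  · exact (hB p hp h).trans ((le_max_right _ _).trans (le_max_left _ _))

/-- common roots of `F` and `M - m x` -/
theorem dvd_H (F : ℤ[X]) (m : ℕ) (M : ℤ) (p : ℕ) (a : ℕ) (h1 : (p : ℤ) ∣ F.eval (a : ℤ))
    (h2 : (p : ℤ) ∣ M - m * a) : (p : ℤ) ∣ (F.scaleRoots (m : ℤ)).eval M := by
  have h3 : M - m * a ∣ (F.scaleRoots (m : ℤ)).eval M - (F.scaleRoots (m : ℤ)).eval ((m : ℤ) * a) :=
    sub_dvd_eval_sub _ _ _
  have h4 : (F.scaleRoots (m : ℤ)).eval ((m : ℤ) * a) = (m : ℤ) ^ F.natDegree * F.eval (a : ℤ) :=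
    scaleRoots_eval_mul F _ _
  have h5 := h2.trans h3
  rw [h4] at h5
  have h6 := dvd_add h5 (Dvd.dvd.mul_left h1 ((m : ℤ) ^ F.natDegree))
  rwa [sub_add_cancel] at h6

theorem rho_sub_rN (F : ℤ[X]) (m : ℕ) (M : ℤ) (p : ℕ) (hp : p.Prime) (hpm : ¬ p ∣ m) :
    (rho F p : ℝ) - rN F m M p ≤ if (p : ℤ) ∣ (F.scaleRoots (m : ℤ)).eval M then 1 else 0 := by
  classical
  have h0 : rho F p = rN F m M p + ((range p).filter (fun a : ℕ => (p : ℤ) ∣ F.eval (a : ℤ) ∧
      (p : ℤ) ∣ M - m * a)).card := by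
    unfold rho rN
    rw [← card_filter_add_card_filter_not (s := (range p).filter (fun a : ℕ => (p : ℤ) ∣ F.eval (a : ℤ)))
      (fun a : ℕ => ¬ (p : ℤ) ∣ M - m * a), filter_filter, filter_filter]
    congr 2
    apply filter_congr
    intro a _
    rw [not_not]
  obtain ⟨a0, ha0, ha1, ha2⟩ := lin_root m M p hp hpm
  rw [h0]
  push_cast
  rw [add_sub_cancel_left]
  split_ifs with h
  · have h1 : ((range p).filter (fun a : ℕ => (p : ℤ) ∣ F.eval (a : ℤ) ∧
      (p : ℤ) ∣ M - m * a)).card ≤ 1 := by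
      rw [card_le_one]
      intro a ha a' ha'
      rw [mem_filter, mem_range] at ha ha'
      rw [ha2 a ha.1 ha.2.2, ha2 a' ha'.1 ha'.2.2]
    exact_mod_cast h1
  · have h1 : (range p).filter (fun a : ℕ => (p : ℤ) ∣ F.eval (a : ℤ) ∧ (p : ℤ) ∣ M - m * a) = ∅ := by
      rw [filter_eq_empty_iff]
      rintro a _ ⟨h2, h3⟩
      exact h (dvd_H F m M p a h2 h3)
    rw [h1, card_empty, Nat.cast_zero]

/-- few large primes divide a number -/
theorem few_primes (P : Finset ℕ) (hP : ∀ p ∈ P, p.Prime) (w A : ℝ) (hw : 1 < w)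
    (hPw : ∀ p ∈ P, w ≤ p) (n : ℤ) (hn : n ≠ 0) (hd : ∀ p ∈ P, (p : ℤ) ∣ n) (hA : |(n : ℝ)| ≤ A) :
    (P.card : ℝ) * Real.log w ≤ Real.log A := by
  have h1 : ∏ p ∈ P, p ∣ n.natAbs := by
    apply Finset.prod_primes_dvd
    · intro p hp
      exact (hP p hp).prime
    · intro p hp
      exact Int.natCast_dvd.1 (hd p hp)
  have h2 : ∏ p ∈ P, p ≤ n.natAbs := Nat.le_of_dvd (Int.natAbs_pos.2 hn) h1
  have h3 : ((n.natAbs : ℕ) : ℝ) = |(n : ℝ)| := by
    rw [Nat.cast_natAbs, Int.cast_abs]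
  have h4 : w ^ P.card ≤ A := by
    calc w ^ P.card = ∏ _p ∈ P, w := by rw [prod_const]
      _ ≤ ∏ p ∈ P, (p : ℝ) := prod_le_prod (fun _ _ => by linarith) hPw
      _ = ((∏ p ∈ P, p : ℕ) : ℝ) := by push_cast; rfl
      _ ≤ ((n.natAbs : ℕ) : ℝ) := by exact_mod_cast h2
      _ ≤ A := by rw [h3]; exact hA
  have h5 := Real.log_le_log (by positivity) h4
  rwa [Real.log_pow] at h5

/-- **Regularity of the densities.** -/
theorem mer_dens (F : ℤ[X]) (hF : Irreducible F) (hd : 0 < F.natDegree) (hl : 0 < F.leadingCoeff)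
    (m : ℕ) (hm : 1 ≤ m) (ε₁ υ η : ℝ) (hε : 0 < ε₁) (hυ : υ ≤ 1) (hη : 0 < η) :
    ∃ Y0 : ℕ, ∀ Y : ℕ, Y0 ≤ Y → ∀ M : ℤ, (Y : ℤ) ≤ 2 * M → M ≤ 3 * Y →
      Mer (pr (Y ^ F.natDegree) ε₁ υ) (tt (Y ^ F.natDegree)) (dens F m M) ε₁ υ η := by
  classical
  set h := F.natDegree with hh
  obtain ⟨K, hK1, hK⟩ := rho_bound F hF.ne_zero
  have hKr : (1 : ℝ) ≤ K := by exact_mod_cast hK1
  obtain ⟨Z0, HM⟩ := mer_of_log (fun p => (rho F p : ℝ) / p) (fun p => by positivity)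
    (rho_log F hF hd) ε₁ υ (η / 2) hε hυ (by linarith)
  set H := F.scaleRoots (m : ℤ) with hH
  have hHd : H.natDegree = h := natDegree_scaleRoots F _
  have hHl : 0 < H.leadingCoeff := by rw [hH, leadingCoeff_scaleRoots]; exact hl
  obtain ⟨t0, hgr⟩ := growth H (by rw [hHd]; exact hd) hHl
  obtain ⟨C, hC1, hC⟩ := eval_bound H
  rw [hHd] at hC
  -- thresholds
  have ev1 : ∀ᶠ Y : ℕ in atTop, (16 * K + 32 / ε₁ + 1) / η + m + 2 ≤ (Y : ℝ) ^ ε₁ :=
    ((tendsto_rpow_atTop hε).comp tendsto_natCast_atTop_atTop).eventually_ge_atTop _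
  have ev2 : ∀ᶠ Y : ℕ in atTop, (C : ℝ) * 3 ^ h + 2 * |(t0 : ℝ)| + 3 ≤ (Y : ℝ) :=
    tendsto_natCast_atTop_atTop.eventually_ge_atTop _
  obtain ⟨Y1, hY1⟩ := eventually_atTop.1 (ev1.and ev2)
  refine ⟨max Z0 Y1, fun Y hY M hM1 hM2 => ?_⟩
  obtain ⟨e1, e2⟩ := hY1 Y ((le_max_right _ _).trans hY)
  have hCr : (1 : ℝ) ≤ C := by exact_mod_cast hC1
  have hY3 : (3 : ℝ) ≤ Y := by
    have : 0 ≤ (C : ℝ) * 3 ^ h := by positivity
    have : 0 ≤ |(t0 : ℝ)| := abs_nonneg _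
    linarith
  have hYn : 3 ≤ Y := by exact_mod_cast hY3
  set Z := Y ^ h with hZ
  have hYZ : Y ≤ Z := by
    calc Y = Y ^ 1 := (pow_one Y).symm
      _ ≤ Y ^ h := Nat.pow_le_pow_right (by omega) hd
  have hZ0 : Z0 ≤ Z := ((le_max_left _ _).trans hY).trans hYZ
  have hZn : 3 ≤ Z := hYn.trans hYZ
  have hZr : (3 : ℝ) ≤ Z := by exact_mod_cast hZn
  have hZY : (Y : ℝ) ^ ε₁ ≤ (Z : ℝ) ^ ε₁ :=
    Real.rpow_le_rpow (by positivity) (by exact_mod_cast hYZ) hε.le
  set W := (Z : ℝ) ^ ε₁ with hW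
  have hmr : (1 : ℝ) ≤ m := by exact_mod_cast hm
  have hbig0 : 0 ≤ (16 * K + 32 / ε₁ + 1) / η := by positivity
  have hWm : (m : ℝ) + 2 ≤ W := by linarith
  have hW3 : 3 ≤ W := by linarith
  have hWη : 16 * K + 32 / ε₁ ≤ η * W := by
    have h1 : (16 * K + 32 / ε₁ + 1) / η ≤ W := by linarith
    rw [div_le_iff₀ hη] at h1
    linarith
  have m1 := HM Z hZ0
  -- the value of `H`
  have hM0 : (1 : ℤ) ≤ M := by
    have : (3 : ℤ) ≤ Y := by exact_mod_cast hYn
    omega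
  have hHM : 1 ≤ H.eval M := by
    have h1 : t0 ≤ M := by
      have h2 : (2 * |(t0 : ℝ)|) ≤ (Y : ℝ) := by
        have : 0 ≤ (C : ℝ) * 3 ^ h := by positivity
        linarith
      have h3 : ((Y : ℤ) : ℝ) ≤ ((2 * M : ℤ) : ℝ) := by exact_mod_cast hM1
      push_cast at h3
      have h4 : (t0 : ℝ) ≤ M := by
        have := le_abs_self (t0 : ℝ)
        linarith
      exact_mod_cast h4
    have h2 := hgr M h1
    omega
  have hHup : |((H.eval M : ℤ) : ℝ)| ≤ (Y : ℝ) ^ (h + 1) := by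
    have h1 := hC M hM0
    have h2 : (M : ℝ) ≤ 3 * Y := by exact_mod_cast hM2
    have hMr : (1 : ℝ) ≤ M := by exact_mod_cast hM0
    calc |((H.eval M : ℤ) : ℝ)| = ((|H.eval M| : ℤ) : ℝ) := by rw [Int.cast_abs]
      _ ≤ ((C * M ^ h : ℤ) : ℝ) := by exact_mod_cast h1
      _ = C * (M : ℝ) ^ h := by push_cast; rfl
      _ ≤ C * (3 * Y : ℝ) ^ h := by
          apply mul_le_mul_of_nonneg_left _ (by linarith)
          exact pow_le_pow_left₀ (by linarith) h2 h
      _ = (C * 3 ^ h) * (Y : ℝ) ^ h := by rw [mul_pow]; ring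
      _ ≤ Y * (Y : ℝ) ^ h := by
          apply mul_le_mul_of_nonneg_right _ (by positivity)
          have : 0 ≤ |(t0 : ℝ)| := abs_nonneg _
          linarith
      _ = _ := by rw [pow_succ]; ring
  intro a b ha hab hb
  have m2 := m1 a b ha hab hb
  set P := (pr Z ε₁ υ).filter (fun p => a ≤ tt Z p ∧ tt Z p < b) with hP
  have hPf : ∀ p ∈ P, p.Prime ∧ W ≤ p := by
    intro p hp
    rw [hP, mem_filter] at hp
    obtain ⟨h1, h2, h3, h4⟩ := pr_facts (by omega) hp.1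
    exact ⟨h1, h3⟩
  set D : Finset ℕ := P.filter (fun p : ℕ => (p : ℤ) ∣ H.eval M) with hD
  have hDc : (D.card : ℝ) ≤ 2 / ε₁ := by
    have h1 := few_primes D (fun p hp => (hPf p (mem_filter.1 hp).1).1) W ((Y : ℝ) ^ (h + 1))
      (by linarith) (fun p hp => (hPf p (mem_filter.1 hp).1).2) (H.eval M) (by omega)
      (fun p hp => (mem_filter.1 hp).2) hHup
    have hlY : 0 < Real.log Y := Real.log_pos (by linarith)
    have hhr : (1 : ℝ) ≤ h := by exact_mod_cast hd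
    have e : Real.log W = ε₁ * (h * Real.log Y) := by
      rw [hW, Real.log_rpow (by linarith), hZ]
      push_cast
      rw [Real.log_pow]
    rw [e, Real.log_pow] at h1
    push_cast at h1
    rw [le_div_iff₀ hε]
    have h2 : (D.card : ℝ) * ε₁ * (h * Real.log Y) ≤ 2 * (h * Real.log Y) := by
      calc (D.card : ℝ) * ε₁ * (h * Real.log Y) = D.card * (ε₁ * (h * Real.log Y)) := by ring
        _ ≤ ((h : ℝ) + 1) * Real.log Y := h1
        _ ≤ _ := by nlinarith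
    exact le_of_mul_le_mul_right h2 (by positivity)
  have hterm : ∀ p ∈ P, |dens F m M p - (rho F p : ℝ) / p| ≤ 2 * K * (1 / (p : ℝ) ^ 2) +
      (if (p : ℤ) ∣ H.eval M then 2 / W else 0) := by
    intro p hp
    obtain ⟨hpp, hpW⟩ := hPf p hp
    have hp3 : (3 : ℝ) ≤ p := hW3.trans hpW
    have hp0 : (0 : ℝ) < p := by linarith
    have hpm : ¬ p ∣ m := by
      intro h1
      have h2 := Nat.le_of_dvd (by omega) h1
      have h3 : (p : ℝ) ≤ m := by exact_mod_cast h2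
      linarith
    have h1 := rho_sub_rN F m M p hpp hpm
    have h2 : (rN F m M p : ℝ) ≤ rho F p := by exact_mod_cast rN_le_rho F m M p
    have h3 : (rho F p : ℝ) ≤ K := by exact_mod_cast hK p hpp
    have h4 : (0 : ℝ) ≤ rho F p := Nat.cast_nonneg _
    unfold dens
    rw [if_neg hpm]
    have hp1 : (0 : ℝ) < (p : ℝ) - 1 := by linarith
    have h5 : 1 / ((p : ℝ) - 1) ≤ 2 / p := by
      rw [div_le_div_iff₀ hp1 hp0]
      linarith
    have h6 : 2 / (p : ℝ) ≤ 2 / W := div_le_div_of_nonneg_left (by norm_num) (by linarith) hpW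
    have e : (rN F m M p : ℝ) / ((p : ℝ) - 1) - (rho F p : ℝ) / p =
        (rho F p : ℝ) * (1 / ((p : ℝ) * (p - 1))) - ((rho F p : ℝ) - rN F m M p) / ((p : ℝ) - 1) := by
      field_simp
      ring
    have h7 : (rho F p : ℝ) * (1 / ((p : ℝ) * (p - 1))) ≤ 2 * K * (1 / (p : ℝ) ^ 2) := by
      calc (rho F p : ℝ) * (1 / ((p : ℝ) * (p - 1))) ≤ K * (2 / (p : ℝ) ^ 2) := by
            apply mul_le_mul h3 _ (by positivity) (by linarith)
            rw [div_le_div_iff₀ (by positivity) (by positivity)]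
            nlinarith
        _ = _ := by ring
    have h8 : 0 ≤ (rho F p : ℝ) * (1 / ((p : ℝ) * (p - 1))) := by positivity
    have h9 : ((rho F p : ℝ) - rN F m M p) / ((p : ℝ) - 1) ≤
        if (p : ℤ) ∣ H.eval M then 2 / W else 0 := by
      split_ifs with hdv
      · rw [if_pos hdv] at h1
        calc ((rho F p : ℝ) - rN F m M p) / ((p : ℝ) - 1) ≤ 1 / ((p : ℝ) - 1) :=
              div_le_div_of_nonneg_right h1 hp1.le
          _ ≤ _ := h5.trans h6
      · rw [if_neg hdv] at h1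
        apply div_nonpos_of_nonpos_of_nonneg h1 hp1.le
    have h10 : 0 ≤ ((rho F p : ℝ) - rN F m M p) / ((p : ℝ) - 1) :=
      div_nonneg (by linarith) hp1.le
    have h11 : (0 : ℝ) ≤ 2 * K * (1 / (p : ℝ) ^ 2) := by positivity
    rw [e, abs_le]
    constructor <;> linarith
  have hsum : |∑ p ∈ P, dens F m M p - ∑ p ∈ P, (rho F p : ℝ) / p| ≤ η / 2 := by
    rw [← sum_sub_distrib]
    refine (abs_sum_le_sum_abs _ _).trans ((sum_le_sum hterm).trans ?_)
    rw [sum_add_distrib, ← mul_sum, ← sum_filter, sum_const, nsmul_eq_mul]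
    have h1 : ∑ p ∈ P, 1 / (p : ℝ) ^ 2 ≤ 2 / W := by
      refine le_trans ?_ (pr_sq (Y := Z) (by omega) ε₁ υ (by linarith))
      apply sum_le_sum_of_subset_of_nonneg (filter_subset _ _)
      intro p _ _
      positivity
    have hW0 : 0 < W := by linarith
    calc 2 * (K : ℝ) * ∑ p ∈ P, 1 / (p : ℝ) ^ 2 + D.card * (2 / W) ≤
        2 * K * (2 / W) + 2 / ε₁ * (2 / W) := by
          apply add_le_add
          · exact mul_le_mul_of_nonneg_left h1 (by positivity)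
          · exact mul_le_mul_of_nonneg_right hDc (by positivity)
      _ = (4 * K + 4 / ε₁) / W := by field_simp; ring
      _ ≤ η / 2 := by
          rw [div_le_iff₀ hW0]
          have : 0 < 1 / ε₁ := by positivity
          have e1 : 32 / ε₁ = 32 * (1 / ε₁) := by ring
          have e2 : 4 / ε₁ = 4 * (1 / ε₁) := by ring
          rw [e1] at hWη
          rw [e2]
          linarith
  rw [abs_le] at hsum m2 ⊢
  constructor <;> linarith [hsum.1, hsum.2, m2.1, m2.2]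

end Pool.Agent.J4.H29.SP
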