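import Pool.Agent.J4.H29.SP.Sq

/-! The weighted sieve for the values `F(n)` with `M - m n` prime. -/

set_option autoImplicit false

namespace Pool.Agent.J4.H29.SP

open Polynomial Finset Filter Topology
open Pool.Agent.H474R2.PG
open Pool.Agent.W23.DC
open Pool.Agent.Y882
open Pool.Agent.Y882.PX (V_low)
open Pool.Agent.Y882.KW
open Pool.Agent.TH926.EH
open Pool.Agent.K3h31.LP (sum_inv_le)

theorem PZ_facts {Z : ℕ} {w : ℝ} {p : ℕ} (hp : p ∈ PZ Z w) : p.Prime ∧ p ≤ Z ∧ tt Z p < w := by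
  unfold PZ at hp
  rw [mem_filter, mem_Icc] at hp
  exact ⟨hp.2.1, hp.1.2, hp.2.2⟩

open Classical in
/-- **The weighted sieve**, with the remainder as it is. -/
theorem lowerN (F : ℤ[X]) (hF : Irreducible F) (hd : 0 < F.natDegree) (hl : 0 < F.leadingCoeff)
    (m : ℕ) (hm : 1 ≤ m) (τ ζ υ lam τ' : ℝ) (hζ : 0 < ζ) (h2 : 2 * ζ < τ) (h4 : τ ≤ 4 * ζ)
    (hτ : τ ≤ 1) (hζυ : ζ ≤ υ) (hυτ : υ < τ) (hlam : 0 < lam)
    (hJ0 : ∫ x in ζ..υ, (lam - lam / υ * x) / (τ - x) / x < Real.log (τ / ζ - 1) / τ)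
    (h5 : τ < τ') :
    ∃ f ε₁ : ℝ, 0 < f ∧ 0 < ε₁ ∧ ε₁ ≤ ζ ∧ ∃ Y0 : ℕ, ∀ Y : ℕ, Y0 ≤ Y →
      ∃ c : Finset ℕ → ℝ, (∀ T, |c T| ≤ 5 * Real.log (Y ^ F.natDegree : ℕ)) ∧
      (∀ T ⊆ PZ (Y ^ F.natDegree) υ, c T ≠ 0 → ((∏ p ∈ T, p : ℕ) : ℝ) ≤
        ((Y ^ F.natDegree : ℕ) : ℝ) ^ τ') ∧
      ∀ M : ℤ, (Y : ℤ) ≤ 2 * M → M ≤ 3 * Y → (∀ p : ℕ, p.Prime → Adm F m M p) →
      ∀ (J : Finset ℕ) (a : ℕ → ℕ) (X : ℝ), 0 ≤ X →
        f * X * ∏ p ∈ PZ (Y ^ F.natDegree) ε₁, (1 - dens F m M p) +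
          ∑ T ∈ (PZ (Y ^ F.natDegree) υ).powerset, c T *
          (((J.filter (fun j => ∏ p ∈ T, p ∣ a j)).card : ℝ) - X * ∏ p ∈ T, dens F m M p) ≤
          ((J.filter (fun j => 0 < WW (Y ^ F.natDegree) ζ υ lam (lam / υ) (a j))).card : ℝ) := by
  have hυ0 : 0 < υ := by linarith
  set h := F.natDegree with hh
  obtain ⟨K, hK1, hK⟩ := rho_bound F hF.ne_zero
  obtain ⟨ε₁, η, f, hε₁, hε₁ζ, hε₁β, hη, hf, Y1, HC⟩ :=
    core3 (max K m) τ ζ υ lam (lam / υ) τ' 1 hζ h2 h4 hτ hζυ hυτ hlam.le (by positivity)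
      (by rw [div_mul_cancel₀ _ hυ0.ne']) hJ0 h5 one_pos
  obtain ⟨Y2, HM⟩ := mer_dens F hF hd hl m hm ε₁ υ η hε₁ (by linarith) hη
  refine ⟨f, ε₁, hf, hε₁, hε₁ζ, max (max Y1 Y2) 3, fun Y hY => ?_⟩
  have hY1 : Y1 ≤ Y := ((le_max_left _ _).trans (le_max_left _ _)).trans hY
  have hY2 : Y2 ≤ Y := ((le_max_right _ _).trans (le_max_left _ _)).trans hY
  have hY3 : 3 ≤ Y := (le_max_right _ _).trans hY
  have hYZ : Y ≤ Y ^ h := by
    calc Y = Y ^ 1 := (pow_one Y).symm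
      _ ≤ Y ^ h := Nat.pow_le_pow_right (by omega) hd
  obtain ⟨c, hcL, hcD, hcN, hcV⟩ := HC (Y ^ h) (hY1.trans hYZ)
  refine ⟨c, hcL, hcD, ?_⟩
  intro M hM1 hM2 hadm J a X hX
  have hmain := hcV (dens F m M) (fun p hp => dens_nonneg (PZ_facts hp).1)
    (fun p hp => by
      have h6 := dens_le (PZ_facts hp).1 (hadm p (PZ_facts hp).1)
      have h7 : (0 : ℝ) ≤ 1 / p := by positivity
      linarith)
    (fun p hp hκ => by
      have hpp := (PZ_facts hp).1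
      have hpm : ¬ p ∣ m := by
        intro h6
        have h7 := Nat.le_of_dvd (by omega) h6
        have h8 := lt_of_le_of_lt (le_max_right K m) hκ
        omega
      apply dens_le_of_not_dvd hpp hpm
      have h9 : rho F p ≤ max K m := (hK p hpp).trans (le_max_left _ _)
      exact_mod_cast h9)
    (HM Y hY2 M hM1 hM2)
  -- the sieve inequality
  have hs : X * VV (PZ (Y ^ h) υ) c (dens F m M) +
      ∑ T ∈ (PZ (Y ^ h) υ).powerset, c T * (((J.filter (fun j => ∏ p ∈ T, p ∣ a j)).card : ℝ) -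
          X * ∏ p ∈ T, dens F m M p) ≤
      ((J.filter (fun j => 0 < WW (Y ^ h) ζ υ lam (lam / υ) (a j))).card : ℝ) := by
    have h6 : X * VV (PZ (Y ^ h) υ) c (dens F m M) +
      ∑ T ∈ (PZ (Y ^ h) υ).powerset, c T * (((J.filter (fun j => ∏ p ∈ T, p ∣ a j)).card : ℝ) -
          X * ∏ p ∈ T, dens F m M p) =
      ∑ T ∈ (PZ (Y ^ h) υ).powerset, c T * ((J.filter (fun j => ∏ p ∈ T, p ∣ a j)).card : ℝ) := by
      unfold VV
      rw [mul_sum, ← sum_add_distrib]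
      apply sum_congr rfl
      intro T _
      ring
    have h7 : ∑ T ∈ (PZ (Y ^ h) υ).powerset, c T * ((J.filter (fun j => ∏ p ∈ T, p ∣ a j)).card : ℝ) =
        ∑ j ∈ J, VV (PZ (Y ^ h) υ) c (fun p => if p ∣ a j then 1 else 0) := by
      unfold VV
      rw [sum_comm]
      apply sum_congr rfl
      intro T hT
      rw [mem_powerset] at hT
      rw [card_filter]
      push_cast
      rw [mul_sum]
      apply sum_congr rfl
      intro j _
      rw [Pool.Agent.Y882.PX.prod_ind T (fun p hp => (PZ_facts (hT hp)).1)]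
    rw [h6, h7, card_filter]
    push_cast
    apply sum_le_sum
    intro j _
    refine (hcN (a j)).trans ?_
    split_ifs with hW
    · exact WW_le_one (Y ^ h) ζ υ lam (lam / υ) (by positivity)
        (by rw [div_mul_cancel₀ _ hυ0.ne']) (a j)
    · exact not_lt.1 hW
  have hm1 := mul_le_mul_of_nonneg_left hmain hX
  have e1 : f * X * ∏ p ∈ PZ (Y ^ h) ε₁, (1 - dens F m M p) =
      X * (f * ∏ p ∈ PZ (Y ^ h) ε₁, (1 - dens F m M p)) := by ring
  rw [e1]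
  linarith

/-- lower bound for the product -/
theorem W_low (F : ℤ[X]) (hF : F ≠ 0) (m : ℕ) (ε₁ : ℝ) (hε : 0 < ε₁) :
    ∃ c : ℝ, 0 < c ∧ ∃ k Z0 : ℕ, ∀ Z : ℕ, Z0 ≤ Z → ∀ M : ℤ, (∀ p : ℕ, p.Prime → Adm F m M p) →
      c / Real.log Z ^ k ≤ ∏ p ∈ PZ Z ε₁, (1 - dens F m M p) := by
  obtain ⟨K, hK1, hK⟩ := rho_bound F hF
  obtain ⟨c0, hc0, HV⟩ := V_low (2 * K)
  obtain ⟨Z1, HJ⟩ := exJ ε₁ hε
  refine ⟨c0 * (Real.log 2 / (2 * ε₁)) ^ (2 * (2 * K)), ?_, 2 * (2 * K), max Z1 3, ?_⟩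
  · have : 0 < Real.log 2 := Real.log_pos (by norm_num)
    positivity
  intro Z hZ M hadm
  have hZ1 : Z1 ≤ Z := (le_max_left _ _).trans hZ
  have hZ3 : 3 ≤ Z := (le_max_right _ _).trans hZ
  have hZr : (3 : ℝ) ≤ Z := by exact_mod_cast hZ3
  have hlZ : 0 < Real.log Z := Real.log_pos (by linarith)
  obtain ⟨J, hJ1, hJ2⟩ := HJ Z hZ1
  have h1 := HV J (PZ Z ε₁) (fun p => (p : ℝ) * dens F m M p) (by
    intro p hp
    obtain ⟨h1, h2, h3⟩ := PZ_facts hp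
    refine ⟨h1, ?_⟩
    have h4 := (tt_lt' Z p ε₁ (by omega) h1.pos).1 h3
    have h5 : (p : ℝ) < ((2 ^ 2 ^ J : ℕ) : ℝ) := by
      push_cast
      linarith
    exact_mod_cast h5) (by
    intro p hp
    obtain ⟨h1, h2, h3⟩ := PZ_facts hp
    have hp2 : (2 : ℝ) ≤ p := by exact_mod_cast h1.two_le
    have hp0 : (0 : ℝ) < p := by linarith
    have h5 : (rN F m M p : ℝ) ≤ K := by
      exact_mod_cast (rN_le_rho F m M p).trans (hK p h1)
    have h6 : (0 : ℝ) ≤ rN F m M p := Nat.cast_nonneg _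
    unfold dens
    push_cast
    split_ifs with hpm
    · rw [mul_div_cancel₀ _ hp0.ne']
      linarith
    · rw [mul_div_assoc', div_le_iff₀ (by linarith)]
      nlinarith) (by
    intro p hp
    obtain ⟨h1, h2, h3⟩ := PZ_facts hp
    have hp0 : (0 : ℝ) < p := by exact_mod_cast h1.pos
    have h4 := mul_le_mul_of_nonneg_left (dens_le h1 (hadm p h1)) hp0.le
    have h5 : (p : ℝ) * (1 - 1 / p) = p - 1 := by field_simp
    linarith)
  have h2 : ∏ p ∈ PZ Z ε₁, (1 - (p : ℝ) * dens F m M p / p) = ∏ p ∈ PZ Z ε₁, (1 - dens F m M p) := by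
    apply prod_congr rfl
    intro p hp
    have hp0 : (p : ℝ) ≠ 0 := by exact_mod_cast (PZ_facts hp).1.ne_zero
    rw [mul_div_assoc, mul_div_cancel₀ _ hp0]
  rw [h2] at h1
  refine le_trans ?_ h1
  have h3 : Real.log 2 / (2 * ε₁) / Real.log Z ≤ 1 / 2 ^ J := by
    have h4 := Real.log_le_log (by positivity) hJ2
    rw [Real.log_pow, Real.log_rpow (by linarith)] at h4
    push_cast at h4
    rw [div_div, div_le_div_iff₀ (by positivity) (by positivity)]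
    linarith
  have hl2 : 0 < Real.log 2 := Real.log_pos (by norm_num)
  calc c0 * (Real.log 2 / (2 * ε₁)) ^ (2 * (2 * K)) / Real.log Z ^ (2 * (2 * K)) =
      c0 * (Real.log 2 / (2 * ε₁) / Real.log Z) ^ (2 * (2 * K)) := by
        rw [div_pow (Real.log 2 / (2 * ε₁)), mul_div_assoc]
    _ ≤ _ := by
        apply mul_le_mul_of_nonneg_left _ hc0.le
        exact pow_le_pow_left₀ (by positivity) h3 _

/-- upper bound for the product in the error -/
theorem P_up (F : ℤ[X]) (hF : F ≠ 0) : ∃ C : ℝ, 0 < C ∧ ∃ k : ℕ, ∀ Z : ℕ, 3 ≤ Z → ∀ υ : ℝ,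
    ∏ p ∈ PZ Z υ, (1 + (rho F p : ℝ) ^ 2 / ((p : ℝ) - 1)) ≤ C * Real.log Z ^ k := by
  obtain ⟨K, hK1, hK⟩ := rho_bound F hF
  obtain ⟨C, hC⟩ := sum_inv_le
  refine ⟨Real.exp ((2 * K ^ 2 : ℕ) * C), Real.exp_pos _, 2 * K ^ 2, fun Z hZ υ => ?_⟩
  have hZr : (3 : ℝ) ≤ Z := by exact_mod_cast hZ
  have hlZ : 0 < Real.log Z := Real.log_pos (by linarith)
  calc ∏ p ∈ PZ Z υ, (1 + (rho F p : ℝ) ^ 2 / ((p : ℝ) - 1)) ≤
      ∏ p ∈ PZ Z υ, Real.exp ((2 * K ^ 2 : ℕ) * (1 / (p : ℝ))) := by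
        apply Finset.prod_le_prod
        · intro p hp
          have hp2 : (2 : ℝ) ≤ p := by exact_mod_cast (PZ_facts hp).1.two_le
          have : 0 ≤ (rho F p : ℝ) ^ 2 / ((p : ℝ) - 1) := div_nonneg (by positivity) (by linarith)
          linarith
        · intro p hp
          have hp2 : (2 : ℝ) ≤ p := by exact_mod_cast (PZ_facts hp).1.two_le
          have h1 : (rho F p : ℝ) ≤ K := by exact_mod_cast hK p (PZ_facts hp).1
          have h2 := Real.add_one_le_exp ((2 * K ^ 2 : ℕ) * (1 / (p : ℝ)))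
          have h3 : (rho F p : ℝ) ^ 2 / ((p : ℝ) - 1) ≤ (2 * K ^ 2 : ℕ) * (1 / (p : ℝ)) := by
            push_cast
            rw [mul_one_div, div_le_div_iff₀ (by linarith) (by linarith)]
            have h4 : (rho F p : ℝ) ^ 2 ≤ (K : ℝ) ^ 2 := pow_le_pow_left₀ (Nat.cast_nonneg _) h1 2
            have h5 : (p : ℝ) ≤ 2 * (p - 1) := by linarith
            calc (rho F p : ℝ) ^ 2 * p ≤ (K : ℝ) ^ 2 * (2 * (p - 1)) :=
                  mul_le_mul h4 h5 (by linarith) (by positivity)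
              _ = _ := by ring
          linarith
    _ = Real.exp (∑ p ∈ PZ Z υ, (2 * K ^ 2 : ℕ) * (1 / (p : ℝ))) := (Real.exp_sum _ _).symm
    _ ≤ Real.exp ((2 * K ^ 2 : ℕ) * (Real.log (Real.log Z) + C)) := by
        apply Real.exp_le_exp.2
        rw [← mul_sum]
        apply mul_le_mul_of_nonneg_left _ (Nat.cast_nonneg _)
        apply hC Z hZ
        intro p hp
        rw [mem_filter, mem_Icc]
        exact ⟨⟨(PZ_facts hp).1.one_le, (PZ_facts hp).2.1⟩, (PZ_facts hp).1⟩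
    _ = _ := by
        rw [mul_add, Real.exp_add, mul_comm (Real.exp _)]
        congr 1
        rw [Real.exp_nat_mul, Real.exp_log hlZ]

/-- Chebyshev -/
theorem pc_low : ∀ᶠ x : ℕ in atTop, (x : ℝ) / (2 * Real.log x) ≤ pc x := by
  have h1 : ∀ᶠ x : ℝ in atTop, Real.log x ≤ (1 / 20) * x := by
    have := Real.isLittleO_log_id_atTop.bound (show (0 : ℝ) < 1 / 20 by norm_num)
    filter_upwards [this, eventually_ge_atTop (1 : ℝ)] with x hx hx1
    simp only [id, Real.norm_eq_abs] at hx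
    rw [abs_of_nonneg (by linarith : (0 : ℝ) ≤ x)] at hx
    exact (le_abs_self _).trans hx
  have h2 : Tendsto (fun x : ℕ => (x : ℝ) + 1) atTop atTop :=
    tendsto_natCast_atTop_atTop.atTop_add tendsto_const_nhds
  filter_upwards [h2.eventually h1, eventually_ge_atTop 3] with x hx hx3
  have hx3' : (3 : ℝ) ≤ x := by exact_mod_cast hx3
  have hpi := Chebyshev.pi_ge x
  have hpc : (Nat.primeCounting x : ℝ) = pc x := by
    unfold pc
    rw [← Nat.primesLE_card_eq_primeCounting, Nat.primesLE_eq_filter_Icc_one]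
  rw [hpc] at hpi
  refine le_trans ?_ hpi
  have hlog : 0 < Real.log x := Real.log_pos (by linarith)
  have h3 : (x : ℝ) / (2 * Real.log x) = (x / 2) / Real.log x := by
    field_simp
  rw [h3]
  apply div_le_div_of_nonneg_right _ hlog.le
  have := Real.log_two_gt_d9
  nlinarith

end Pool.Agent.J4.H29.SP
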