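import Pool.Agent.J4.H29.SP.RegN

/-! Values divisible by the square of a large prime. -/

set_option autoImplicit false

namespace Pool.Agent.J4.H29.SP

open Polynomial Finset Filter Topology
open Pool.Agent.H474R2.PG
open Pool.Agent.W23.DC
open Pool.Agent.K3h31.LP (pr_facts pr_sq)

/-- an irreducible polynomial and its derivative have no common root modulo large primes -/
theorem no_common (F : ℤ[X]) (hF : Irreducible F) (hd : 0 < F.natDegree) :
    ∃ B : ℕ, ∀ q : ℕ, q.Prime → B < q → ∀ n : ℤ, (q : ℤ) ∣ F.eval n →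
      ¬ (q : ℤ) ∣ F.derivative.eval n := by
  have hprim : F.IsPrimitive := hF.isPrimitive hd.ne'
  have hirr : Irreducible (F.map (Int.castRingHom ℚ)) :=
    (IsPrimitive.Int.irreducible_iff_irreducible_map_cast hprim).1 hF
  set Q : ℚ[X] := F.map (Int.castRingHom ℚ) with hQ
  have hnQ : Q.natDegree = F.natDegree :=
    natDegree_map_eq_of_injective (RingHom.injective_int (Int.castRingHom ℚ)) F
  have hmap : F.derivative.map (Int.castRingHom ℚ) = Q.derivative := by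
    rw [hQ, derivative_map]
  have hnG : Q.derivative.natDegree = F.derivative.natDegree := by
    rw [← hmap, natDegree_map_eq_of_injective (RingHom.injective_int (Int.castRingHom ℚ))]
  have hcop : IsCoprime Q Q.derivative := hirr.separable
  have hres : F.resultant F.derivative F.natDegree F.derivative.natDegree ≠ 0 := by
    intro h0
    have h1 := resultant_map_map F F.derivative F.natDegree F.derivative.natDegree (Int.castRingHom ℚ)
    rw [h0, map_zero, hmap, ← hQ] at h1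
    have h2 := resultant_ne_zero Q Q.derivative hcop
    rw [hnQ, hnG] at h2
    exact h2 h1
  obtain ⟨P, R, -, -, hPQ⟩ := exists_mul_add_mul_eq_C_resultant F F.derivative le_rfl le_rfl
    (Or.inl hd.ne')
  set D := F.resultant F.derivative F.natDegree F.derivative.natDegree with hD
  refine ⟨D.natAbs, fun q hq hB n h1 h2 => ?_⟩
  have h3 := congrArg (fun f : ℤ[X] => f.eval n) hPQ
  simp only [eval_add, eval_mul, eval_C] at h3
  have h4 : (q : ℤ) ∣ D := by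
    rw [← h3]
    exact dvd_add (Dvd.dvd.mul_right h1 _) (Dvd.dvd.mul_right h2 _)
  have h5 := Int.natAbs_le_of_dvd_ne_zero h4 hres
  rw [Int.natAbs_natCast] at h5
  omega

/-- lifting of roots modulo squares -/
theorem sq_lift (F : ℤ[X]) (q : ℕ) (hq : q.Prime) (hnc : ∀ n : ℤ, (q : ℤ) ∣ F.eval n →
      ¬ (q : ℤ) ∣ F.derivative.eval n) (n n' : ℤ) (h : (q : ℤ) ∣ n' - n)
    (h1 : (q : ℤ) ^ 2 ∣ F.eval n) (h2 : (q : ℤ) ^ 2 ∣ F.eval n') : (q : ℤ) ^ 2 ∣ n' - n := by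
  obtain ⟨k, hk⟩ := F.binomExpansion n (n' - n)
  rw [add_sub_cancel] at hk
  have h3 : (q : ℤ) ^ 2 ∣ k * (n' - n) ^ 2 := Dvd.dvd.mul_left (pow_dvd_pow_of_dvd h 2) _
  have h4 : (q : ℤ) ^ 2 ∣ F.derivative.eval n * (n' - n) := by
    have h5 := dvd_sub (dvd_sub h2 h1) h3
    have e : F.eval n' - F.eval n - k * (n' - n) ^ 2 = F.derivative.eval n * (n' - n) := by
      rw [hk]; ring
    rwa [e] at h5
  have h5 : ¬ (q : ℤ) ∣ F.derivative.eval n := hnc n ((dvd_pow_self _ two_ne_zero).trans h1)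
  have h6 : IsCoprime ((q : ℤ) ^ 2) (F.derivative.eval n) := by
    apply IsCoprime.pow_left
    exact ((Nat.prime_iff_prime_int.1 hq).coprime_iff_not_dvd).2 h5
  exact h6.dvd_of_dvd_mul_left h4

theorem count_mod (X Q v : ℕ) (hQ : 1 ≤ Q) (S : Finset ℕ) (hS : S ⊆ Icc 1 X)
    (h : ∀ n ∈ S, (Q : ℤ) ∣ (n : ℤ) - v) : (S.card : ℝ) ≤ X / Q + 1 := by
  have hsub : S ⊆ (Ioc 0 X).filter (fun p => p ≡ v [MOD Q]) := by
    intro p hp
    have h1 := hS hp
    rw [mem_Icc] at h1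
    rw [mem_filter, mem_Ioc]
    refine ⟨⟨by omega, h1.2⟩, ?_⟩
    apply Nat.ModEq.symm
    rw [Nat.modEq_iff_dvd]
    exact h p hp
  have h1 : (((Ioc 0 X).filter (fun p => p ≡ v [MOD Q])).card : ℤ) ≤ ⌊(X : ℚ) / Q⌋ + 1 := by
    rw [Nat.Ioc_filter_modEq_card 0 X (by omega) v]
    apply max_le
    · have e1 : ((X : ℚ) - v) / Q = (X : ℚ) / Q + (((0 : ℕ) : ℚ) - v) / Q := by
        push_cast
        ring
      have h3 : ⌊((X : ℚ) - v) / Q⌋ ≤ ⌊(X : ℚ) / Q⌋ + ⌊(((0 : ℕ) : ℚ) - v) / Q⌋ + 1 := by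
        rw [e1]
        have := Int.le_floor_add_floor ((X : ℚ) / Q) ((((0 : ℕ) : ℚ) - v) / Q)
        linarith
      linarith
    · have : (0 : ℤ) ≤ ⌊(X : ℚ) / Q⌋ := Int.floor_nonneg.2 (by positivity)
      linarith
  have h2 : (S.card : ℤ) ≤ ⌊(X : ℚ) / Q⌋ + 1 :=
    le_trans (by exact_mod_cast card_le_card hsub) h1
  have h3 : ((⌊(X : ℚ) / Q⌋ : ℤ) : ℚ) ≤ (X : ℚ) / Q := Int.floor_le _
  have h4 : ((S.card : ℕ) : ℚ) ≤ (X : ℚ) / Q + 1 := by
    have h5 : ((S.card : ℤ) : ℚ) ≤ ((⌊(X : ℚ) / Q⌋ + 1 : ℤ) : ℚ) := by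
      exact_mod_cast h2
    push_cast at h5
    linarith
  have h5 : (((S.card : ℕ) : ℚ) : ℝ) ≤ (((X : ℚ) / Q + 1 : ℚ) : ℝ) := by
    exact_mod_cast h4
  push_cast at h5
  exact h5

/-- **Values divisible by the square of a large prime.** -/
theorem sq_count (F : ℤ[X]) (hF : Irreducible F) (hd : 0 < F.natDegree) :
    ∃ K B : ℕ, ∀ q : ℕ, q.Prime → B < q → ∀ X : ℕ,
      (((Icc 1 X).filter (fun n : ℕ => (q : ℤ) ^ 2 ∣ F.eval (n : ℤ))).card : ℝ) ≤
        K * (X / (q : ℝ) ^ 2 + 1) := by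
  classical
  obtain ⟨B, hB⟩ := no_common F hF hd
  obtain ⟨K, hK1, hK⟩ := rho_bound F hF.ne_zero
  refine ⟨K, B, fun q hq hBq X => ?_⟩
  set S := (Icc 1 X).filter (fun n : ℕ => (q : ℤ) ^ 2 ∣ F.eval (n : ℤ)) with hS
  have hmap : ∀ n ∈ S, n % q ∈ rts F q := by
    intro n hn
    rw [hS, mem_filter] at hn
    unfold rts
    rw [mem_filter, mem_range]
    refine ⟨Nat.mod_lt _ hq.pos, ?_⟩
    rw [eval_mod]
    exact (dvd_pow_self _ two_ne_zero).trans hn.2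
  have h1 := card_eq_sum_card_fiberwise (s := S) (f := fun n : ℕ => n % q) (t := rts F q) hmap
  have h2 : ∀ a ∈ rts F q, ((S.filter (fun n => n % q = a)).card : ℝ) ≤ X / (q : ℝ) ^ 2 + 1 := by
    intro a _
    rcases (S.filter (fun n => n % q = a)).eq_empty_or_nonempty with h | ⟨v, hv⟩
    · rw [h, card_empty, Nat.cast_zero]
      positivity
    · have h3 := count_mod X (q ^ 2) v (Nat.pow_pos hq.pos) (S.filter (fun n => n % q = a))
        ((filter_subset _ _).trans (filter_subset _ _)) (by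
          intro n hn
          rw [mem_filter, hS, mem_filter] at hn hv
          push_cast
          apply sq_lift F q hq (hB q hq hBq) v n
          · have h4 : v ≡ n [MOD q] := by
              unfold Nat.ModEq
              rw [hn.2, hv.2]
            exact Nat.modEq_iff_dvd.1 h4
          · exact hv.1.2
          · exact hn.1.2)
      push_cast at h3
      exact h3
  have h3 : ((rts F q).card : ℝ) ≤ K := by
    have : (rts F q).card ≤ K := hK q hq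
    exact_mod_cast this
  rw [h1]
  push_cast
  calc ∑ a ∈ rts F q, ((S.filter (fun n => n % q = a)).card : ℝ) ≤
      ∑ _a ∈ rts F q, ((X : ℝ) / (q : ℝ) ^ 2 + 1) := sum_le_sum h2
    _ = (rts F q).card * (X / (q : ℝ) ^ 2 + 1) := by rw [sum_const, nsmul_eq_mul]
    _ ≤ _ := mul_le_mul_of_nonneg_right h3 (by positivity)

/-- all the squares of the medium primes -/
theorem sq_total (F : ℤ[X]) (hF : Irreducible F) (hd : 0 < F.natDegree) (ζ υ : ℝ) (hζ : 0 < ζ)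
    (hυ : υ ≤ 1) : ∃ K Z0 : ℕ, ∀ Z : ℕ, Z0 ≤ Z → ∀ X : ℕ,
      (((Icc 1 X).filter (fun n : ℕ => ∃ q ∈ pr Z ζ υ, (q : ℤ) ^ 2 ∣ F.eval (n : ℤ))).card : ℝ) ≤
        K * (2 * X / (Z : ℝ) ^ ζ + (Z : ℝ) ^ υ) := by
  classical
  obtain ⟨K, B, hKB⟩ := sq_count F hF hd
  have ev1 : ∀ᶠ Z : ℕ in atTop, (B : ℝ) + 2 ≤ (Z : ℝ) ^ ζ :=
    ((tendsto_rpow_atTop hζ).comp tendsto_natCast_atTop_atTop).eventually_ge_atTop _
  obtain ⟨Z0, hZ0⟩ := eventually_atTop.1 (ev1.and (eventually_ge_atTop 3))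
  refine ⟨K, Z0, fun Z hZ X => ?_⟩
  obtain ⟨e1, e2⟩ := hZ0 Z hZ
  have hsub : (Icc 1 X).filter (fun n : ℕ => ∃ q ∈ pr Z ζ υ, (q : ℤ) ^ 2 ∣ F.eval (n : ℤ)) ⊆
      (pr Z ζ υ).biUnion (fun q => (Icc 1 X).filter (fun n : ℕ => (q : ℤ) ^ 2 ∣ F.eval (n : ℤ))) := by
    intro n hn
    rw [mem_filter] at hn
    obtain ⟨h1, q, hq, h2⟩ := hn
    rw [mem_biUnion]
    exact ⟨q, hq, by rw [mem_filter]; exact ⟨h1, h2⟩⟩
  have hB0 : (0 : ℝ) ≤ B := Nat.cast_nonneg B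
  have h1 := pr_sq (Y := Z) (by omega) ζ υ (by linarith)
  have hcard : ((pr Z ζ υ).card : ℝ) ≤ (Z : ℝ) ^ υ := by
    have h2 : pr Z ζ υ ⊆ Icc 1 ⌊(Z : ℝ) ^ υ⌋₊ := by
      intro q hq
      obtain ⟨h1, h2, h3, h4⟩ := pr_facts (by omega) hq
      rw [mem_Icc]
      exact ⟨h1.one_le, Nat.le_floor h4.le⟩
    have h3 := card_le_card h2
    rw [Nat.card_Icc, Nat.add_sub_cancel] at h3
    calc ((pr Z ζ υ).card : ℝ) ≤ (⌊(Z : ℝ) ^ υ⌋₊ : ℝ) := by exact_mod_cast h3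
      _ ≤ _ := Nat.floor_le (by positivity)
  calc (((Icc 1 X).filter (fun n : ℕ => ∃ q ∈ pr Z ζ υ, (q : ℤ) ^ 2 ∣ F.eval (n : ℤ))).card : ℝ) ≤
      (((pr Z ζ υ).biUnion (fun q => (Icc 1 X).filter
        (fun n : ℕ => (q : ℤ) ^ 2 ∣ F.eval (n : ℤ)))).card : ℝ) := by
        exact_mod_cast card_le_card hsub
    _ ≤ ∑ q ∈ pr Z ζ υ, (((Icc 1 X).filter (fun n : ℕ => (q : ℤ) ^ 2 ∣ F.eval (n : ℤ))).card : ℝ) := by
        exact_mod_cast card_biUnion_le
    _ ≤ ∑ q ∈ pr Z ζ υ, (K : ℝ) * (X / (q : ℝ) ^ 2 + 1) := by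
        apply sum_le_sum
        intro q hq
        obtain ⟨h2, h3, h4, h5⟩ := pr_facts (by omega) hq
        apply hKB q h2
        have : (B : ℝ) < q := by linarith
        exact_mod_cast this
    _ = K * (X * ∑ q ∈ pr Z ζ υ, 1 / (q : ℝ) ^ 2 + (pr Z ζ υ).card) := by
        rw [← mul_sum, sum_add_distrib, sum_const, nsmul_eq_mul, mul_one, mul_sum]
        congr 2
        apply sum_congr rfl
        intro q _
        ring
    _ ≤ K * (X * (2 / (Z : ℝ) ^ ζ) + (Z : ℝ) ^ υ) := by gcongr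
    _ = _ := by ring

end Pool.Agent.J4.H29.SP
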